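import Pool.Agent.P.MP_1a00c7_lc.Defs
import Pool.Agent.Lib.Helper43.CompFP

namespace Pool.Agent.P.MP_1a00c7_lc

open Filter Pool.Agent.Lib.Helper43 Encodable

attribute [local irreducible] Computable

def chi (A : ℕ → Bool) : ℕ →. ℕ := fun x => Part.some (A x).toNat

/-- Turing reducibility of sets -/
def Red (A B : ℕ → Bool) : Prop := TuringReducible (chi A) (chi B)

theorem deg_le {A B : ℕ → Bool} : deg A ≤ deg B ↔ Red A B := Iff.rfl

theorem Red.refl (A : ℕ → Bool) : Red A A := TuringReducible.refl _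

theorem Red.trans {A B C : ℕ → Bool} (h : Red A B) (h' : Red B C) : Red A C :=
  TuringReducible.trans h h'

def seg (A : ℕ → Bool) (n : ℕ) : List Bool := (List.range n).map A

@[simp] theorem seg_length (x : ℕ → Bool) (n : ℕ) : (seg x n).length = n := by simp [seg]

theorem seg_getElem? (x : ℕ → Bool) {n i : ℕ} (h : i < n) : (seg x n)[i]? = some (x i) := by
  simp [seg, h]

theorem seg_getD (x : ℕ → Bool) {n i : ℕ} (h : i < n) : (seg x n).getD i false = x i := by
  simp [List.getD_eq_getElem?_getD, seg_getElem? x h]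

theorem seg_take (x : ℕ → Bool) {n m : ℕ} (h : m ≤ n) : (seg x n).take m = seg x m := by
  simp [seg, ← List.map_take, List.take_range, min_eq_left h]

theorem seg_eq_iff {x y : ℕ → Bool} {n : ℕ} : seg x n = seg y n ↔ ∀ i < n, x i = y i := by
  simp [seg]

@[fun_prop] theorem comp_seg {α : Type} [Primcodable α] {g : α → ℕ → Bool} {n : α → ℕ}
    (hg : Computable fun p : α × ℕ => g p.1 p.2) (hn : Computable n) :
    Computable fun a => seg (g a) (n a) := CFP.map hg (CFP.range hn)

/-! ### The use principle -/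

def Use (O : ℕ → Bool) (f : ℕ →. ℕ) : Prop :=
  ∃ ψ : List Bool → ℕ →. ℕ, Partrec₂ ψ ∧ (∀ n y v, v ∈ ψ (seg O n) y → v ∈ f y) ∧
    ∀ y v, v ∈ f y → ∀ᶠ n in atTop, v ∈ ψ (seg O n) y

theorem use_partrec (O : ℕ → Bool) {f : ℕ →. ℕ} (hf : Nat.Partrec f) : Use O f :=
  ⟨fun _ y => f y, (Partrec.nat_iff.2 hf).comp Computable.snd, fun _ _ _ h => h,
    fun _ _ h => Eventually.of_forall fun _ => h⟩

theorem use_of {O : ℕ → Bool} {f : ℕ →. ℕ} (hf : Nat.RecursiveIn {chi O} f) : Use O f := by
  induction hf with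
  | zero => exact use_partrec O .zero
  | succ => exact use_partrec O .succ
  | left => exact use_partrec O .left
  | right => exact use_partrec O .right
  | oracle g hg =>
    obtain rfl : g = chi O := hg
    refine ⟨fun τ y => Part.ofOption ((τ[y]?).map Bool.toNat), ?_, ?_, ?_⟩
    · refine Computable.ofOption (f := fun p : List Bool × ℕ => (p.1[p.2]?).map Bool.toNat) ?_
      refine CFP.optMap (g := fun _ b => Bool.toNat b) (by fun_prop) ?_
      exact CFP.comp (Primrec.dom_bool Bool.toNat).to_comp (by fun_prop)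
    · intro n y v h
      by_cases hy : y < n
      · simpa [seg_getElem? O hy, chi] using h
      · have : (seg O n)[y]? = none := List.getElem?_eq_none (by simpa using hy)
        simp [this] at h
    · intro y v h
      filter_upwards [eventually_gt_atTop y] with n hn
      simpa [seg_getElem? O hn, chi] using h
  | pair _ _ ihf ihh =>
    obtain ⟨ψ, p1, p2, p3⟩ := ihf
    obtain ⟨χ, q1, q2, q3⟩ := ihh
    refine ⟨fun τ y => (ψ τ y).bind fun a => (χ τ y).map (Nat.pair a), ?_, ?_, ?_⟩
    · refine Partrec.bind p1 (Partrec.map (q1.comp (Computable.fst.comp Computable.fst)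
        (Computable.snd.comp Computable.fst)) ?_)
      exact Primrec₂.natPair.to_comp.comp (Computable.snd.comp Computable.fst) Computable.snd
    · intro n y v h
      simp only [Part.mem_bind_iff, Part.mem_map_iff] at h
      obtain ⟨a, ha, b, hb, rfl⟩ := h
      simp only [Seq.seq, Part.map_eq_map, Part.mem_bind_iff, Part.mem_map_iff]
      exact ⟨_, ⟨a, p2 _ _ _ ha, rfl⟩, b, q2 _ _ _ hb, rfl⟩
    · intro y v h
      simp only [Seq.seq, Part.map_eq_map, Part.mem_bind_iff, Part.mem_map_iff] at h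
      obtain ⟨_, ⟨a, ha, rfl⟩, b, hb, rfl⟩ := h
      filter_upwards [p3 _ _ ha, q3 _ _ hb] with n h1 h2
      simp only [Part.mem_bind_iff, Part.mem_map_iff]
      exact ⟨a, h1, b, h2, rfl⟩
  | comp _ _ ihf ihh =>
    obtain ⟨ψ, p1, p2, p3⟩ := ihf
    obtain ⟨χ, q1, q2, q3⟩ := ihh
    refine ⟨fun τ y => (χ τ y).bind (ψ τ), ?_, ?_, ?_⟩
    · exact Partrec.bind q1 (p1.comp (Computable.fst.comp Computable.fst) Computable.snd)
    · intro n y v h
      simp only [Part.bind_eq_bind, Part.mem_bind_iff] at h ⊢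
      obtain ⟨a, ha, hb⟩ := h
      exact ⟨a, q2 _ _ _ ha, p2 _ _ _ hb⟩
    · intro y v h
      simp only [Part.bind_eq_bind, Part.mem_bind_iff] at h ⊢
      obtain ⟨a, ha, hb⟩ := h
      filter_upwards [q3 _ _ ha, p3 _ _ hb] with n h1 h2
      exact ⟨a, h1, h2⟩
  | prec _ _ ihf ihh =>
    obtain ⟨ψ, p1, p2, p3⟩ := ihf
    obtain ⟨χ, q1, q2, q3⟩ := ihh
    refine ⟨fun τ p => Nat.rec (ψ τ p.unpair.1) (fun y IH => IH.bind fun i =>
      χ τ (Nat.pair p.unpair.1 (Nat.pair y i))) p.unpair.2, ?_, ?_, ?_⟩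
    · refine Partrec.nat_rec (f := fun q : List Bool × ℕ => q.2.unpair.2)
        (g := fun q : List Bool × ℕ => ψ q.1 q.2.unpair.1)
        (h := fun (q : List Bool × ℕ) (r : ℕ × ℕ) =>
          χ q.1 (Nat.pair q.2.unpair.1 (Nat.pair r.1 r.2))) (by fun_prop)
        (p1.comp Computable.fst (by fun_prop)) ?_
      exact q1.comp (f := χ) (g := fun q : (List Bool × ℕ) × ℕ × ℕ => q.1.1)
        (h := fun q : (List Bool × ℕ) × ℕ × ℕ =>
          Nat.pair q.1.2.unpair.1 (Nat.pair q.2.1 q.2.2)) (by fun_prop) (by fun_prop)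
    · intro n p
      dsimp only
      generalize p.unpair.1 = a
      induction p.unpair.2 with
      | zero => exact fun v h => p2 _ _ _ h
      | succ k ih =>
        intro v h
        simp only [Part.bind_eq_bind, Part.mem_bind_iff] at h ⊢
        obtain ⟨i, hi, hb⟩ := h
        exact ⟨i, ih _ hi, q2 _ _ _ hb⟩
    · intro p
      dsimp only
      generalize p.unpair.1 = a
      induction p.unpair.2 with
      | zero => exact fun v h => p3 _ _ h
      | succ k ih =>
        intro v h
        simp only [Part.bind_eq_bind, Part.mem_bind_iff] at h ⊢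
        obtain ⟨i, hi, hb⟩ := h
        filter_upwards [ih _ hi, q3 _ _ hb] with n h1 h2
        exact ⟨i, h1, h2⟩
  | rfind _ ihf =>
    obtain ⟨ψ, p1, p2, p3⟩ := ihf
    refine ⟨fun τ a => Nat.rfind fun n => (ψ τ (Nat.pair a n)).map fun m => decide (m = 0),
      ?_, ?_, ?_⟩
    · refine Partrec.rfind (p := fun (q : List Bool × ℕ) n =>
        (ψ q.1 (Nat.pair q.2 n)).map fun m => decide (m = 0)) (Partrec.map ?_ ?_)
      · exact p1.comp (f := ψ) (g := fun q : (List Bool × ℕ) × ℕ => q.1.1)
          (h := fun q : (List Bool × ℕ) × ℕ => Nat.pair q.1.2 q.2) (by fun_prop) (by fun_prop)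
      · show Computable fun q : ((List Bool × ℕ) × ℕ) × ℕ => decide (q.2 = 0)
        fun_prop
    · intro n a v h
      simp only [Nat.mem_rfind, Part.map_eq_map, Part.mem_map_iff] at h ⊢
      obtain ⟨⟨b, hb, e⟩, h2⟩ := h
      refine ⟨⟨b, p2 _ _ _ hb, e⟩, fun hm => ?_⟩
      obtain ⟨b, hb, e⟩ := h2 hm
      exact ⟨b, p2 _ _ _ hb, e⟩
    · intro a v h
      simp only [Nat.mem_rfind, Part.map_eq_map, Part.mem_map_iff] at h ⊢
      obtain ⟨⟨b, hb, e⟩, h2⟩ := h
      have h3 : ∀ m ∈ Finset.range v, ∀ᶠ n in atTop,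
          ∃ b ∈ ψ (seg O n) (Nat.pair a m), decide (b = 0) = false := by
        intro m hm
        obtain ⟨b, hb, e⟩ := h2 (Finset.mem_range.1 hm)
        filter_upwards [p3 _ _ hb] with n hn
        exact ⟨b, hn, e⟩
      filter_upwards [p3 _ _ hb, (Finset.eventually_all _).2 h3] with n h4 h5
      exact ⟨⟨b, h4, e⟩, fun hm => h5 _ (Finset.mem_range.2 hm)⟩

/-- the `c`-th Turing functional on a finite oracle string -/
def phi (c : ℕ) (τ : List Bool) (y : ℕ) : Option Bool :=
  (((List.range (τ.length + 1)).filterMap fun t => Nat.Partrec.Code.evaln t.unpair.2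
    (Denumerable.ofNat Nat.Partrec.Code c) (Nat.pair (encode (τ.take t.unpair.1)) y)).head?).map
      fun v => decide (v = 1)

@[fun_prop] theorem comp_phi {α : Type} [Primcodable α] {c y : α → ℕ} {τ : α → List Bool}
    (hc : Computable c) (hτ : Computable τ) (hy : Computable y) :
    Computable fun a => phi (c a) (τ a) (y a) := by
  unfold phi
  refine CFP.optMap (g := fun _ v => decide (v = 1)) ?_ (by fun_prop)
  fun_prop

theorem phi_mono {c : ℕ} {O : ℕ → Bool} {n m y : ℕ} {v : Bool} (h : n ≤ m)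
    (hv : phi c (seg O n) y = some v) : phi c (seg O m) y = some v := by
  obtain ⟨k, rfl⟩ := Nat.exists_eq_add_of_le h
  unfold phi at *
  rw [seg_length] at *
  rw [show n + k + 1 = (n + 1) + k by ring, List.range_add, List.filterMap_append,
    List.filterMap_congr (g := fun t => Nat.Partrec.Code.evaln t.unpair.2
      (Denumerable.ofNat Nat.Partrec.Code c) (Nat.pair (encode ((seg O n).take t.unpair.1)) y))]
  · rw [List.head?_append]
    obtain ⟨w, hw, e⟩ := Option.map_eq_some_iff.1 hv
    rw [hw]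
    simpa using e
  · intro t ht
    have := List.mem_range.1 ht
    have := Nat.unpair_left_le t
    rw [seg_take O (by omega), seg_take O (by omega)]

theorem phi_unique {c : ℕ} {O : ℕ → Bool} {n m y : ℕ} {v w : Bool}
    (hv : phi c (seg O n) y = some v) (hw : phi c (seg O m) y = some w) : v = w :=
  Option.some.inj ((phi_mono (le_max_left n m) hv).symm.trans (phi_mono (le_max_right n m) hw))

theorem Red.use {A O : ℕ → Bool} (h : Red A O) :
    ∃ c, ∀ y, ∀ᶠ n in atTop, phi c (seg O n) y = some (A y) := by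
  obtain ⟨ψ, p1, p2, p3⟩ := use_of (RecursiveIn.iff_nat.1 h)
  obtain ⟨c, hc⟩ := Nat.Partrec.Code.exists_code.1 p1
  have key : ∀ τ y v, v ∈ c.eval (Nat.pair (encode τ) y) ↔ v ∈ ψ τ y := by
    intro τ y v
    rw [hc]
    have : (decode (Nat.pair (encode τ) y) : Option (List Bool × ℕ)) = some (τ, y) :=
      encodek (τ, y)
    simp [this]
  refine ⟨encode c, fun y => ?_⟩
  obtain ⟨n0, hn0⟩ := eventually_atTop.1 (p3 y _ (Part.mem_some _))
  obtain ⟨k, hk⟩ := Nat.Partrec.Code.evaln_complete.1 ((key _ _ _).2 (hn0 n0 le_rfl))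
  have hex : ∃ n, (phi (encode c) (seg O n) y).isSome := by
    refine ⟨Nat.pair n0 k, ?_⟩
    unfold phi
    rw [Option.isSome_map, List.isSome_head?]
    refine List.ne_nil_of_mem (a := (A y).toNat) (List.mem_filterMap.2 ⟨Nat.pair n0 k, by simp, ?_⟩)
    rw [Denumerable.ofNat_encode, Nat.unpair_pair, seg_take O (Nat.left_le_pair _ _)]
    exact hk
  obtain ⟨n, hn⟩ := hex
  obtain ⟨v, hv⟩ := Option.isSome_iff_exists.1 hn
  have : v = A y := by
    unfold phi at hv
    obtain ⟨w, hw, rfl⟩ := Option.map_eq_some_iff.1 hv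
    obtain ⟨t, ht, e⟩ := List.mem_filterMap.1 (List.mem_of_mem_head? hw)
    rw [Denumerable.ofNat_encode, seg_take O ((Nat.unpair_left_le t).trans
      (by simpa [Nat.lt_succ_iff] using ht))] at e
    have := p2 _ _ _ ((key _ _ _).1 (Nat.Partrec.Code.evaln_sound e))
    simp only [chi, Part.mem_some_iff] at this
    subst this
    cases A y <;> simp
  filter_upwards [eventually_ge_atTop n] with m hm
  exact phi_mono hm (this ▸ hv)

/-! ### Building reductions -/

theorem recIn_comp {O : Set (ℕ →. ℕ)} {f : ℕ →. ℕ} {g : ℕ → ℕ} (hf : Nat.RecursiveIn O f)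
    (hg : Computable g) : Nat.RecursiveIn O fun n => f (g n) :=
  (Nat.RecursiveIn.comp hf (Partrec.nat_iff.1 hg.partrec).recursiveIn).of_eq fun n => by simp

theorem recIn_chi {O : Set (ℕ →. ℕ)} {A : ℕ → Bool} {g : ℕ → ℕ} (hf : Nat.RecursiveIn O (chi A))
    (hg : Computable g) : Nat.RecursiveIn O fun n => Part.some (A (g n)).toNat :=
  recIn_comp (f := chi A) hf hg

theorem recIn_map {O : Set (ℕ →. ℕ)} {f : ℕ → ℕ} {g : ℕ → ℕ}
    (hf : Nat.RecursiveIn O fun n => Part.some (f n))
    (hg : Computable g) : Nat.RecursiveIn O fun n => Part.some (g (f n)) :=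
  (Nat.RecursiveIn.comp (Partrec.nat_iff.1 hg.partrec).recursiveIn hf).of_eq fun n => by simp

theorem recIn_pair {O : Set (ℕ →. ℕ)} {f g : ℕ → ℕ}
    (hf : Nat.RecursiveIn O fun n => Part.some (f n))
    (hg : Nat.RecursiveIn O fun n => Part.some (g n)) :
    Nat.RecursiveIn O fun n => Part.some (Nat.pair (f n) (g n)) :=
  (Nat.RecursiveIn.pair hf hg).of_eq fun n => by simp [Seq.seq]

theorem recIn_of_comp {O : Set (ℕ →. ℕ)} {g : ℕ → ℕ} (hg : Computable g) :
    Nat.RecursiveIn O fun n => Part.some (g n) := (Partrec.nat_iff.1 hg.partrec).recursiveIn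

theorem recIn_seg {O : Set (ℕ →. ℕ)} {A : ℕ → Bool} (hA : Nat.RecursiveIn O (chi A)) :
    Nat.RecursiveIn O fun n => Part.some (encode (seg A n)) := by
  have h1 : Nat.RecursiveIn O fun p => Part.some (encode (((decode p.unpair.2.unpair.2 :
      Option (List Bool)).getD []) ++ [A p.unpair.2.unpair.1])) := by
    have := recIn_map (g := fun q => encode (((decode q.unpair.1.unpair.2.unpair.2 :
      Option (List Bool)).getD []) ++ [decide (q.unpair.2 = 1)]))
      (recIn_pair (recIn_of_comp (g := fun p => p) (by fun_prop))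
        (recIn_chi (g := fun p => p.unpair.2.unpair.1) hA (by fun_prop))) (by
        refine CFP.encode (CFP.append (CFP.optGetD (Computable.decode.comp ?_) ?_) ?_) <;> fun_prop)
    refine this.of_eq fun p => ?_
    simp only [Nat.unpair_pair]
    cases A p.unpair.2.unpair.1 <;> simp
  have h2 := Nat.RecursiveIn.prec (recIn_of_comp (O := O) (g := fun _ => encode ([] : List Bool))
    (by fun_prop)) h1
  refine (recIn_comp (g := fun n => Nat.pair 0 n) h2 (by fun_prop)).of_eq fun n => ?_
  simp only [Nat.unpair_pair]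
  induction n with
  | zero => rfl
  | succ n ih =>
    dsimp only at ih ⊢
    rw [ih]
    simp [seg, List.range_succ]

/-- a reduction by search for a witness `a` and a length `n` -/
theorem red_of_search {A O : ℕ → Bool} (P out : ℕ → ℕ → List Bool → Bool)
    (hP : Computable fun q : ℕ × ℕ × List Bool => P q.1 q.2.1 q.2.2)
    (ho : Computable fun q : ℕ × ℕ × List Bool => out q.1 q.2.1 q.2.2)
    (h1 : ∀ x a n, P x a (seg O n) = true → out x a (seg O n) = A x)
    (h2 : ∀ x, ∃ a n, P x a (seg O n) = true) : Red A O := by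
  have hO : Nat.RecursiveIn {chi O} (chi O) := .oracle _ rfl
  have hs : Nat.RecursiveIn {chi O} fun p => Part.some
      (Nat.pair p (encode (seg O p.unpair.2.unpair.2))) :=
    recIn_pair (recIn_of_comp (g := fun p => p) (by fun_prop))
      (recIn_comp (g := fun p => p.unpair.2.unpair.2) (recIn_seg hO) (by fun_prop))
  have hc : ∀ R : ℕ → ℕ → List Bool → Bool,
      (Computable fun q : ℕ × ℕ × List Bool => R q.1 q.2.1 q.2.2) →
      Nat.RecursiveIn {chi O} fun p => Part.some
        (R p.unpair.1 p.unpair.2.unpair.1 (seg O p.unpair.2.unpair.2)).toNat := by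
    intro R hR
    refine (recIn_map (g := fun q => (R q.unpair.1.unpair.1 q.unpair.1.unpair.2.unpair.1
      ((decode q.unpair.2 : Option (List Bool)).getD [])).toNat) hs ?_).of_eq fun p => by simp
    refine CFP.comp (Primrec.dom_bool Bool.toNat).to_comp (CFP.comp (g := fun q : ℕ =>
      (q.unpair.1.unpair.1, q.unpair.1.unpair.2.unpair.1,
        (decode q.unpair.2 : Option (List Bool)).getD [])) hR ?_)
    refine CFP.prodMk (by fun_prop) (CFP.prodMk (by fun_prop)
      (CFP.optGetD (Computable.decode.comp ?_) ?_)) <;> fun_prop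
  have h3 := Nat.RecursiveIn.rfind (hc (fun x a τ => !P x a τ) (CFP.not hP))
  have h4 := Nat.RecursiveIn.comp (hc out ho) (Nat.RecursiveIn.pair
    (recIn_of_comp (g := fun p => p) (by fun_prop)) h3)
  refine RecursiveIn.iff_nat.2 (h4.of_eq fun x => ?_)
  have hex : ∃ m : ℕ, P x m.unpair.1 (seg O m.unpair.2) = true := by
    obtain ⟨a, n, h⟩ := h2 x
    exact ⟨Nat.pair a n, by simpa using h⟩
  have : Nat.rfind (fun n => (fun m => decide (m = 0)) <$> Part.some
      (!P (Nat.pair x n).unpair.1 (Nat.pair x n).unpair.2.unpair.1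
        (seg O (Nat.pair x n).unpair.2.unpair.2)).toNat) = Part.some (Nat.find hex) := by
    rw [Part.eq_some_iff, Nat.mem_rfind]
    refine ⟨by simpa using Nat.find_spec hex, fun {m} hm => ?_⟩
    simpa using Nat.find_min hex hm
  rw [this]
  simp [Seq.seq, chi, h1 _ _ _ (Nat.find_spec hex)]

theorem red_of_comp {A : ℕ → Bool} (hA : Computable A) (O : ℕ → Bool) : Red A O :=
  red_of_search (fun _ _ _ => true) (fun x _ _ => A x) (by fun_prop) (by fun_prop)
    (fun _ _ _ _ => rfl) fun _ => ⟨0, 0, rfl⟩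

theorem Red.computable {A O : ℕ → Bool} (h : Red A O) (hO : Computable O) : Computable A := by
  have h1 : Partrec (chi O) := (CFP.comp (Primrec.dom_bool Bool.toNat).to_comp hO).partrec
  have h2 : Partrec (chi A) := RecursiveIn.partrec_of_oracle (by rintro g rfl; exact h1) h
  have h3 : Computable fun x => (A x).toNat := by unfold Computable; exact h2
  have h4 : Computable fun x => decide ((A x).toNat = 1) := by fun_prop
  exact h4.of_eq fun x => by cases A x <;> simp

/-! ### Joins -/

def join (A B : ℕ → Bool) : ℕ → Bool := fun n => bif n.bodd then B (n / 2) else A (n / 2)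

@[simp] theorem join_even (A B : ℕ → Bool) (n : ℕ) : join A B (2 * n) = A n := by
  simp [join]

@[simp] theorem join_odd (A B : ℕ → Bool) (n : ℕ) : join A B (2 * n + 1) = B n := by
  have : (2 * n + 1) / 2 = n := by omega
  simp [join, this]

theorem red_left (A B : ℕ → Bool) : Red A (join A B) :=
  red_of_search (fun x _ τ => decide (2 * x < τ.length)) (fun x _ τ => τ.getD (2 * x) false)
    (by fun_prop) (by fun_prop) (fun x _ n h => by rw [seg_getD _ (by simpa using h), join_even])
    fun x => ⟨0, 2 * x + 1, by simp⟩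

theorem red_right (A B : ℕ → Bool) : Red B (join A B) :=
  red_of_search (fun x _ τ => decide (2 * x + 1 < τ.length))
    (fun x _ τ => τ.getD (2 * x + 1) false)
    (by fun_prop) (by fun_prop) (fun x _ n h => by rw [seg_getD _ (by simpa using h), join_odd])
    fun x => ⟨0, 2 * x + 2, by simp⟩

theorem recIn_join {O : Set (ℕ →. ℕ)} {A B : ℕ → Bool} (hA : Nat.RecursiveIn O (chi A))
    (hB : Nat.RecursiveIn O (chi B)) : Nat.RecursiveIn O (chi (join A B)) := by
  have := recIn_map (g := fun q => bif q.unpair.1.bodd then q.unpair.2.unpair.2 else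
    q.unpair.2.unpair.1) (recIn_pair (recIn_of_comp (g := fun p => p) (by fun_prop))
      (recIn_pair (recIn_chi (g := fun p => p / 2) hA (by fun_prop))
        (recIn_chi (g := fun p => p / 2) hB (by fun_prop)))) (by fun_prop)
  refine this.of_eq fun n => ?_
  simp only [Nat.unpair_pair, chi, join]
  cases n.bodd <;> rfl

theorem Red.join {A B C : ℕ → Bool} (hA : Red A C) (hB : Red B C) : Red (join A B) C :=
  RecursiveIn.iff_nat.2 (recIn_join (RecursiveIn.iff_nat.1 hA) (RecursiveIn.iff_nat.1 hB))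

theorem isLUB_join (A B : ℕ → Bool) : IsLUB {deg A, deg B} (deg (join A B)) := by
  constructor
  · rintro _ (rfl | rfl)
    exacts [red_left A B, red_right A B]
  · intro c hc
    induction c using Antisymmetrization.ind with
    | _ c =>
    exact RecursiveIn.iff_nat.2 (recIn_join (RecursiveIn.iff_nat.1 (hc (Or.inl rfl)))
      (RecursiveIn.iff_nat.1 (hc (Or.inr rfl))))

theorem join_congr {A B A' B' : ℕ → Bool} {n : ℕ} (h : ∀ i < n, A i = A' i)
    (h' : ∀ i < n, B i = B' i) : ∀ i < n, join A B i = join A' B' i := by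
  intro i hi
  simp only [join, h (i / 2) (by omega), h' (i / 2) (by omega)]

@[fun_prop] theorem comp_join {α : Type} [Primcodable α] {f g : α → ℕ → Bool} {n : α → ℕ}
    (hf : Computable fun p : α × ℕ => f p.1 p.2) (hg : Computable fun p : α × ℕ => g p.1 p.2)
    (hn : Computable n) : Computable fun a => join (f a) (g a) (n a) :=
  CFP.cond (by fun_prop) (CFP.comp (g := fun a => (a, n a / 2)) hg (by fun_prop))
    (CFP.comp (g := fun a => (a, n a / 2)) hf (by fun_prop))

/-! ### The difference hierarchy -/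

theorem NCE.mono {n m : ℕ} {A : ℕ → Bool} (h : NCE n A) (hn : n ≤ m) : NCE m A := by
  obtain ⟨g, h1, h2⟩ := h
  exact ⟨g, h1, fun x => ⟨(h2 x).1, (h2 x).2.1, (h2 x).2.2.trans (by exact_mod_cast hn)⟩⟩

theorem NCE.join {n : ℕ} {A B : ℕ → Bool} (h : NCE n A) (h' : NCE n B) : NCE n (join A B) := by
  obtain ⟨g, h1, h2⟩ := h
  obtain ⟨g', h1', h2'⟩ := h'
  refine ⟨fun x s => bif x.bodd then g' (x / 2) s else g (x / 2) s, ?_, fun x => ?_⟩
  · exact CFP.cond (by fun_prop) (CFP.comp (g := fun a : ℕ × ℕ => (a.1 / 2, a.2)) h1' (by fun_prop))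
      (CFP.comp (g := fun a : ℕ × ℕ => (a.1 / 2, a.2)) h1 (by fun_prop))
  · unfold MP_1a00c7_lc.join
    dsimp only
    cases x.bodd
    · exact h2 _
    · exact h2' _

theorem nce_one {A : ℕ → Bool} (g : ℕ → ℕ → Bool) (hg : Computable fun p : ℕ × ℕ => g p.1 p.2)
    (h0 : ∀ x, g x 0 = false) (hm : ∀ x s, g x s = true → g x (s + 1) = true)
    (hA : ∀ x, A x = true ↔ ∃ s, g x s = true) : NCE 1 A := by
  have hm' : ∀ x s t, s ≤ t → g x s = true → g x t = true := by
    intro x s t hst h
    induction hst with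
    | refl => exact h
    | step _ ih => exact hm _ _ ih
  refine ⟨g, hg, fun x => ⟨h0 x, ?_, ?_⟩⟩
  · by_cases h : A x = true
    · obtain ⟨s, hs⟩ := (hA x).1 h
      filter_upwards [eventually_ge_atTop s] with t ht
      rw [h, hm' x s t ht hs]
    · refine Eventually.of_forall fun s => ?_
      have := (hA x).not.1 h
      push Not at this
      rw [Bool.eq_false_iff.2 (this s), Bool.eq_false_iff.2 h]
  · rw [Nat.cast_one, Set.encard_le_one_iff]
    intro a b ha hb
    have key : ∀ a, g x (a + 1) ≠ g x a → g x a = false ∧ g x (a + 1) = true := by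
      intro a ha
      have := hm x a
      revert ha this
      cases g x a <;> cases g x (a + 1) <;> simp
    by_contra hne
    rcases lt_or_gt_of_ne hne with h | h
    · have := hm' x _ _ h (key a ha).2
      rw [(key b hb).1] at this
      exact absurd this (by simp)
    · have := hm' x _ _ h (key b hb).2
      rw [(key a ha).1] at this
      exact absurd this (by simp)

theorem nce_two {A : ℕ → Bool} (g : ℕ → ℕ → Bool) (hg : Computable fun p : ℕ × ℕ => g p.1 p.2)
    (h0 : ∀ x, g x 0 = false)
    (hc : ∀ x s t, s < t → g x s = true → g x (s + 1) = false → g x t = false)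
    (hA : ∀ x, ∀ᶠ s in atTop, g x s = A x) : NCE 2 A := by
  refine ⟨g, hg, fun x => ⟨h0 x, hA x, ?_⟩⟩
  have e : {s | g x (s + 1) ≠ g x s} = {s | g x s = true ∧ g x (s + 1) = false} ∪
      {s | g x s = false ∧ g x (s + 1) = true} := by
    ext s
    simp only [Set.mem_ofPred_eq, Set.mem_union]
    cases g x s <;> cases g x (s + 1) <;> simp
  rw [e]
  refine (Set.encard_union_le _ _).trans ?_
  rw [show ((2 : ℕ) : ℕ∞) = 1 + 1 from rfl]
  refine add_le_add (Set.encard_le_one_iff.2 fun a b ha hb => ?_)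
    (Set.encard_le_one_iff.2 fun a b ha hb => ?_)
  · by_contra hne
    rcases lt_or_gt_of_ne hne with h | h
    · exact absurd ((hc x a b h ha.1 ha.2).symm.trans hb.1) (by simp)
    · exact absurd ((hc x b a h hb.1 hb.2).symm.trans ha.1) (by simp)
  · have key : ∀ a b, a < b → g x (a + 1) = true → g x b = false → g x (b + 1) = false := by
      intro a b hab h1 h2
      have : ∃ c, a + 1 ≤ c ∧ c < b ∧ g x c = true ∧ g x (c + 1) = false := by
        by_contra hn
        push Not at hn
        have : ∀ c, a + 1 ≤ c → c ≤ b → g x c = true := by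
          intro c hc1
          induction hc1 with
          | refl => exact fun _ => h1
          | step h ih => exact fun h' => by simpa using hn _ h h' (ih (by omega))
        rw [this b hab le_rfl] at h2
        exact absurd h2 (by simp)
      obtain ⟨c, -, c2, c3, c4⟩ := this
      exact hc x c (b + 1) (by omega) c3 c4
    by_contra hne
    rcases lt_or_gt_of_ne hne with h | h
    · exact absurd ((key a b h ha.2 hb.1).symm.trans hb.2) (by simp)
    · exact absurd ((key b a h hb.2 ha.1).symm.trans ha.2) (by simp)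

/-- enumeration of the c.e. sets -/
def We (e x s : ℕ) : Bool := (List.range s).any fun t =>
  Nat.Partrec.Code.evaln s (Denumerable.ofNat Nat.Partrec.Code e) (Nat.pair x t) == some 1

@[fun_prop] theorem comp_We {α : Type} [Primcodable α] {e x s : α → ℕ}
    (he : Computable e) (hx : Computable x) (hs : Computable s) :
    Computable fun a => We (e a) (x a) (s a) := by
  unfold We
  fun_prop

theorem We_mono {e x s t : ℕ} (h : s ≤ t) (hs : We e x s = true) : We e x t = true := by
  simp only [We, List.any_eq_true, List.mem_range, beq_iff_eq] at hs ⊢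
  obtain ⟨r, h1, h2⟩ := hs
  exact ⟨r, by omega, Nat.Partrec.Code.evaln_mono h h2⟩

theorem NCE.approx_mono {g : ℕ → Bool} (h0 : g 0 = false)
    (h : {s | g (s + 1) ≠ g s}.encard ≤ (1 : ℕ)) {s t : ℕ} (hst : s ≤ t) (hs : g s = true) :
    g t = true := by
  rw [Nat.cast_one, Set.encard_le_one_iff] at h
  have h1 : ∀ a b, a ≤ b → g a ≠ g b → ∃ c, a ≤ c ∧ c < b ∧ g (c + 1) ≠ g c := by
    intro a b hab
    induction hab with
    | refl => simp
    | @step m hm ih =>
      intro hne
      by_cases e : g (m + 1) = g m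
      · obtain ⟨c, c1, c2, c3⟩ := ih (e ▸ hne)
        exact ⟨c, c1, by omega, c3⟩
      · exact ⟨m, hm, by omega, e⟩
  by_contra hn
  obtain ⟨c, -, c2, c3⟩ := h1 0 s (Nat.zero_le _) (by simp [h0, hs])
  obtain ⟨d, d1, -, d3⟩ := h1 s t hst (by simpa [hs] using hn)
  have := h c d c3 d3
  omega

theorem NCE.exists_We {A : ℕ → Bool} (h : NCE 1 A) :
    ∃ e, ∀ x, A x = true ↔ ∃ s, We e x s = true := by
  obtain ⟨g, h1, h2⟩ := h
  have h3 : Computable fun p : ℕ => (g p.unpair.1 p.unpair.2).toNat :=
    CFP.comp (Primrec.dom_bool Bool.toNat).to_comp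
      (CFP.comp (g := fun p : ℕ => (p.unpair.1, p.unpair.2)) h1 (by fun_prop))
  obtain ⟨c, hc⟩ := Nat.Partrec.Code.exists_code.1 (Partrec.nat_iff.1 h3.partrec)
  refine ⟨encode c, fun x => ?_⟩
  simp only [We, List.any_eq_true, List.mem_range, beq_iff_eq, Denumerable.ofNat_encode]
  constructor
  · intro hx
    obtain ⟨t, ht⟩ := (h2 x).2.1.exists
    obtain ⟨k, hk⟩ := Nat.Partrec.Code.evaln_complete.1
      (show 1 ∈ c.eval (Nat.pair x t) by rw [hc]; simp [ht, hx])
    exact ⟨max k (t + 1), t, by omega, Nat.Partrec.Code.evaln_mono (le_max_left _ _) hk⟩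
  · rintro ⟨s, t, -, h⟩
    have := Nat.Partrec.Code.evaln_sound h
    rw [hc] at this
    have h4 : g x t = true := by
      revert this
      cases h : g x t <;> simp [h]
    obtain ⟨r, hr, hr'⟩ := (((h2 x).2.1).and (eventually_ge_atTop t)).exists
    rw [← hr]
    exact NCE.approx_mono (h2 x).1 (h2 x).2.2 hr' h4

end Pool.Agent.P.MP_1a00c7_lc
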