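import Pool.Agent.P.MP_1a00c7_lc.BPath

/-!
The combinatorial content of the requirements.
-/

namespace Pool.Agent.P.MP_1a00c7_lc.B.Lin

open Set Filter St

variable {M : Lin}

theorem st_big (N : ℕ) : ∀ᶠ i in atTop, N ≤ (M.U i).st := by
  obtain ⟨j, a1, a2⟩ := frequently_atTop.1 (freqK (M := M)) N
  refine eventually_atTop.2 ⟨j + 1, fun i hi => ?_⟩
  induction i, hi using Nat.le_induction with
  | base =>
    have := M.t_mono.le_apply (x := j)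
    have := M.le j
    simp only [M.step, upd, a2, if_true]
    omega
  | succ i _ ih =>
    have := (M.inv i).st_le
    have := M.le i
    simp only [M.step, upd]
    split_ifs <;> omega

theorem back {j : ℕ} (h : (M.U j).Go (M.see j)) : ∃ i, M.see i ∧ (M.U i).cur = (M.U j).cur ∧
    (M.U i).X = (M.U j).X ∧ (M.U i).st = (M.U j).st ∧
    (M.U i).L (M.U j).cur (fin (M.U j).cur) = (M.U j).L (M.U j).cur (fin (M.U j).cur) ∧
    (i = j ∨ ∃ l, Act (M.U j).cur l) := by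
  induction j with
  | zero =>
    rcases h with h | ⟨_, -, -, h⟩
    exacts [absurd (by simp [M.U0, init]) h, ⟨0, h, rfl, rfl, rfl, rfl, Or.inl rfl⟩]
  | succ j ih =>
    rcases h with h | ⟨_, -, -, h⟩
    swap
    · exact ⟨_, h, rfl, rfl, rfl, rfl, Or.inl rfl⟩
    have hT : M.κ j = .T := by simpa [M.step, upd] using h
    obtain ⟨h1, h2⟩ := (M.ok j).top (Or.inr hT)
    obtain ⟨i, a1, a2, a3, a4, a5, -⟩ := ih h1
    obtain ⟨y, b1, -⟩ := (M.inv j).go h1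
    have e : (M.U (j + 1)).cur = (M.U j).cur := by simp [M.step, upd, hT]
    refine ⟨i, a1, a2.trans e.symm, a3.trans (by simp [M.step, upd, hT, Enu]),
      a4.trans (by simp [M.step, upd, hT]), ?_, Or.inr ⟨_, e ▸ h2.1⟩⟩
    rw [e, a5, b1, M.step]
    exact (upd_L_keep (M.ok j) (M.inv j) b1 (Nat.pos_of_ne_zero fun h =>
      ((M.inv j).m1 _ _ (h ▸ b1)).1 rfl) (cur_lt_thr _ _ _) (not_hd j _)).symm

theorem enu_pos {k w : ℕ} (h : (M.U k).Enu (M.κ k) (M.o k) w) : ∃ s, 0 < s ∧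
    (M.U k).L (M.U k).cur (M.o k) = some s ∧ w = num s (M.U k).cur (M.o k) := by
  obtain ⟨h1, s, h2, h3⟩ := h
  obtain ⟨s', h4, h5⟩ := (M.ok k).pos (M.inv k) (by rcases h1 with h | h <;> simp [h])
  obtain rfl : s = s' := by simpa [h2] using h5
  exact ⟨s, h4, h2, h3⟩

theorem Ok.go {S : St} {see : Prop} {κ : Kd} {o : ℕ} (h : S.Ok see κ o) (h' : κ = .C ∨ κ = .S) :
    S.Go see := by
  cases h with
  | C _ h => exact h
  | S h => exact h
  | _ => simp at h'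

/-- a witness is enumerated by a stop -/
theorem enu_wit {k x : ℕ} {σ : List ℕ} (h : (M.U k).Enu (M.κ k) (M.o k) (num x σ (fin σ))) :
    M.κ k = .S ∧ (M.U k).cur = σ ∧ (M.U k).L σ (fin σ) = some x := by
  obtain ⟨s, -, h1, h2⟩ := enu_pos h
  obtain ⟨rfl, rfl, h3⟩ := num_inj.1 h2
  exact ⟨h.1.resolve_left fun h4 => ((M.ok k).top (Or.inl h4)).2.1.lt.ne' h3, rfl, h3 ▸ h1⟩

theorem preserve {j x w : ℕ} (h : M.κ j = .S)
    (hx : (M.U j).L (M.U j).cur (fin (M.U j).cur) = some x)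
    (hk : ∀ k, j ≤ k → (M.U j).cur < M.thr k) (hw : w ∈ M.Xf) (hw' : w < (M.U j).st) :
    w ∈ (M.U j).X ∨ w = num x (M.U j).cur (fin (M.U j).cur) := by
  refine or_iff_not_imp_left.2 fun h1 => ?_
  obtain ⟨k, a1, a2⟩ := exists_enu hw h1
  obtain ⟨s, b1, b2, rfl⟩ := enu_pos a2
  obtain ⟨c1, -, -, -, c2⟩ := stop h hx
  rcases a1.eq_or_lt with rfl | a1
  · rw [c1] at b2 ⊢
    simp_all
  exfalso
  obtain ⟨d1, d2⟩ := old a1.le b2 b1 (((Nat.left_le_pair _ _).trans hw'.le).trans (M.inv j).st_le)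
  have d3 := d2 j le_rfl a1
  simp only [thr, St.thr, h, Kd.th] at d3
  rcases between (le_of_lt_zero d3) (hk k a1.le) with d4 | ⟨o, d4, d5⟩
  · obtain ⟨y, e1, e2⟩ := (M.inv k).go (Ok.go (M.ok k) a2.1)
    have := keep a1.le hx (Nat.pos_of_ne_zero fun h => ((M.inv j).m1 _ _ (h ▸ hx)).1 rfl)
      fun k b _ => ⟨hk k b, fun _ => not_hd _ _⟩
    rw [d4] at e1 e2
    obtain rfl : x = y := by simpa [this] using e1
    exact e2 (X_mono a1 c2)
  · rcases a2.1 with e | e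
    · have := (M.inv j).m2 _ _ ((M.ok k).top (Or.inl e)).2.1
        (Or.inl ⟨o, by simpa [e, Kd.th, Nat.lt_succ_iff] using d4, d5⟩)
      simp [d1, b1.ne'] at this
    · simp [e, Kd.th] at d4

theorem Path.pwin (P : M.Path) (p : ℕ) : ∃ σ x, nf σ = p ∧ 0 < x ∧
    (∀ᶠ i in atTop, (M.U i).L σ (fin σ) = some x) ∧
    ((num x σ (fin σ) ∉ M.Xf ∧ ∃ᶠ i in atTop, (M.U i).cur = σ ∧ ¬ M.see i) ∨
      num x σ (fin σ) ∈ M.Xf ∧ ∃ i, (M.U i).cur = σ ∧ (M.U i).L σ (fin σ) = some x ∧ M.see i ∧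
        (∀ w ∈ M.Xf, w < (M.U i).st → w ∈ (M.U i).X ∨ w = num x σ (fin σ)) ∧
        ((∀ l, ¬ Act σ l) → M.κ i = .S ∧ ∀ k, i ≤ k → σ < M.thr k)) := by
  obtain ⟨n, h1, h2⟩ := P.exists_fin p
  obtain ⟨x, h3, h4⟩ := (P.tp n).wit
  refine ⟨P.f n, x, h2, h3, h4, ?_⟩
  by_cases hz : num x (P.f n) (fin (P.f n)) ∈ M.Xf
  · refine Or.inr ⟨hz, ?_⟩
    obtain ⟨j, -, a1⟩ := exists_enu (i := 0) hz (by simp [M.U0, init])
    obtain ⟨a2, a3, a4⟩ := enu_wit a1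
    have a5 : ∀ k, j ≤ k → P.f n < M.thr k := fun k hk => by
      obtain ⟨i0, h0⟩ := eventually_atTop.1 (h4.and (P.tp n).2)
      rcases le_or_gt i0 k with h | h
      · exact (h0 k h).2
      · exact (old (hk.trans h.le) (h0 i0 le_rfl).1 h3 ((M.inv j).le _ _ _ a4)).2 k hk h
    rw [← a3] at a4 a5 ⊢
    obtain ⟨i, b1, b2, b3, b4, b5, b6⟩ := back (stop a2 a4).2.1
    refine ⟨i, b2, b5.trans a4, b1, fun w c1 c2 => b3 ▸ preserve a2 a4 a5 c1 (b4 ▸ c2),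
      fun h => ?_⟩
    obtain rfl := b6.resolve_right fun ⟨l, hl⟩ => h l hl
    exact ⟨a2, a5⟩
  · refine Or.inl ⟨hz, frequently_atTop.2 fun i0 => ?_⟩
    obtain ⟨i1, a0⟩ := eventually_atTop.1 h4
    obtain ⟨i, a1, a2⟩ := frequently_atTop.1 (P.tp (n + 1)).1 (i0 + i1 + 1)
    obtain ⟨i, rfl⟩ : ∃ j, i = j + 1 := ⟨i - 1, by omega⟩
    rw [P.succ, h1] at a2
    obtain ⟨b1, b2, b3, b4⟩ := arr_succ a2
    refine ⟨i, by omega, b3, ?_⟩
    have b5 := a0 i (by omega)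
    rw [← b3] at b4 b5 hz
    by_cases hS : M.κ i = .S
    · exact absurd ⟨_, (stop hS b5).2.2.2.2⟩ hz
    have := M.ok i
    generalize M.o i = o, M.κ i = κ at this b1 b2 b4 hS
    cases this with
    | C l _ h => exact absurd b4 h.1.lt.ne
    | F y _ h h' =>
      obtain rfl : x = y := by simpa [b5] using h
      exact h'.resolve_left fun h => hz ⟨_, h⟩
    | _ => simp at b1 b2 hS

theorem Path.r1 (P : M.Path) {n : ℕ} (h : Act (P.f n) (P.g n)) (N : ℕ) :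
    ∃ᶠ i in atTop, M.κ i = .C ∧ (M.U i).cur = P.f n ∧ M.o i = P.g n ∧
      ∃ s, N < s ∧ (M.U i).L (P.f n) (P.g n) = some s := by
  have key : ∀ i0, ∃ i, i0 ≤ i ∧ M.κ i = .C ∧ (M.U i).cur = P.f n ∧ M.o i = P.g n := fun i0 => by
    obtain ⟨i, a1, a2⟩ := frequently_atTop.1 (P.tp (n + 1)).1 (i0 + 1)
    obtain ⟨i, rfl⟩ : ∃ j, i = j + 1 := ⟨i - 1, by omega⟩
    obtain ⟨b1, b2, b3, b4⟩ := arr_succ (P.succ n ▸ a2)
    refine ⟨i, by omega, ?_, b3, b4⟩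
    have := M.ok i
    rw [← b3, ← b4] at h
    generalize M.o i = o, M.κ i = κ at this b1 b2 h
    cases this with
    | C => rfl
    | T => exact absurd rfl b2
    | _ => exact absurd h.lt (lt_irrefl _)
  refine frequently_atTop.2 fun i0 => ?_
  obtain ⟨i, a1, a2, a3, a4⟩ := key (i0 + N)
  obtain ⟨j, b1, b2, b3, b4⟩ := key (i + 1)
  obtain ⟨s, c1, c2⟩ := (M.ok j).pos (M.inv j) (by simp [b2])
  rw [b3, b4] at c2
  refine ⟨j, by omega, b2, b3, b4, s, not_le.1 fun h1 => ?_, c2⟩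
  have h2 := (old b1 c2 c1 (h1.trans (le_trans (by omega) M.t_mono.le_apply))).1
  have h3 := (M.inv (i + 1)).m2 _ _ h (Or.inl ⟨_, le_rfl, by
    rw [(cur_succ (by simp [a2]) (by simp [a2])).1, a3, a4]⟩)
  simp [h2, c1.ne'] at h3

theorem cert {i j l s x : ℕ} {Q σ : List ℕ} (hij : i ≤ j) (h1 : (M.U i).L Q l = some s)
    (h2 : 0 < s) (h3 : l ≠ fin Q) (h4 : Q = σ ∨ Q ++ [l] <+: σ) (h5 : x ≤ M.t i)
    (h6 : (M.U j).Enu (M.κ j) (M.o j) (num x σ (fin σ))) :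
    ∃ k, i ≤ k ∧ M.Hd k Q l ∧ (M.U k).L Q l = some s := by
  by_contra hc
  simp only [not_exists, not_and] at hc
  obtain ⟨a1, rfl, a2⟩ := enu_wit h6
  have a3 := (old hij a2 (Nat.pos_of_ne_zero fun h => ((M.inv j).m1 _ _ (h ▸ a2)).1 rfl) h5).2
  have a4 : Q ≤ (M.U j).cur := h4.elim le_of_eq fun h => pre_le (pre_of_app h)
  have a5 := keep hij h1 h2 fun k b1 b2 => ⟨a4.trans_lt (a3 k b1 b2), fun b3 b4 => hc k b1 b4 b3⟩
  have a6 := (((M.inv i).rcd Q l).1 (by simp [h1])).2.resolve_left h3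
  have := (M.inv j).m2 _ _ a6 (h4.symm.imp (fun h => ⟨l, le_rfl, h⟩)
    fun h => ⟨h, (stop a1 a2).2.2.1 l (h ▸ a6)⟩)
  simp [a5, h2.ne'] at this

theorem born {i0 i x : ℕ} {ρ : List ℕ} (hi : i0 ≤ i) (h : (M.U i).L ρ (fin ρ) = some x)
    (hx : M.t i0 < x) : ∃ j, i0 ≤ j ∧ j < i ∧ M.κ j = .K ∧ (M.U j).cur = ρ ∧ x = M.t (j + 1) := by
  induction i, hi using Nat.le_induction with
  | base => exact absurd ((M.inv _).le _ _ _ h) hx.not_ge
  | succ i hi ih =>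
    rcases le_or_gt x (M.r i) with h1 | h1
    · obtain ⟨j, a1, a2, a3⟩ := ih (upd_L_old (M.step i ▸ h) (by omega) h1).1
      exact ⟨j, a1, by omega, a3⟩
    have h2 := (M.inv _).le _ _ _ h
    rw [M.succ] at h2
    refine ⟨i, hi, i.lt_succ_self, ?_⟩
    have h3 := ((upd_L_ne (M.ok i) (M.inv i)).1 (M.step i ▸ (by simp [h] :
      (M.U (i + 1)).L ρ (fin ρ) ≠ none))).2
    by_cases h4 : M.κ i = .K ∧ ρ = (M.U i).cur
    · exact ⟨h4.1, h4.2.symm, by rw [M.succ]; omega⟩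
    rw [if_neg h4] at h3
    obtain ⟨y, hy⟩ := Option.ne_none_iff_exists'.1 h3
    have h5 := upd_L_keep (M.ok i) (M.inv i) hy (Nat.pos_of_ne_zero fun h =>
      ((M.inv i).m1 _ _ (h ▸ hy)).1 rfl) (not_not.1 fun h6 => by
        simp [M.step, upd_L_none h6] at h) (not_hd _ _) (r' := M.r i)
    obtain rfl : x = y := by simpa [← M.step, h] using h5
    have := (M.inv i).le _ _ _ hy
    have := M.le i
    omega

theorem Path.r3 (P : M.Path) {l : ℕ} (hl : l % 2 = 0) (h : ∀ n, l ∉ P.f n) :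
    ∃ N, ∀ σ x, N < x → (nf σ % 4 = 1 ∨ nf σ % 4 = 2) →
      (∀ᶠ i in atTop, (M.U i).L σ (fin σ) = some x) → ∃ Q s, (Q = σ ∨ Q ++ [l] <+: σ) ∧ 0 < s ∧
        ∀ᶠ i in atTop, (M.U i).L Q l = some s := by
  obtain ⟨n, hn⟩ := eventually_atTop.1 (P.big l)
  obtain ⟨i0, h0⟩ := eventually_atTop.1 (P.tp n).2
  refine ⟨M.t i0, fun σ x h1 h2 h3 => ?_⟩
  obtain ⟨i1, h4⟩ := eventually_atTop.1 h3
  obtain ⟨j, a1, a2, a3, a4, rfl⟩ := born (Nat.le_add_right i0 i1) (h4 _ (by omega)) h1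
  have a5 : ∀ k, j + 1 ≤ k → σ < M.thr k := fun k hk =>
    (old (j := k + i1 + 1) (by omega) (h4 _ (by omega)) (by omega) le_rfl).2 k hk (by omega)
  have a6 : P.f n <+: σ := P.pre_of_le (eventually_atTop.2 ⟨_, a5⟩)
    (le_of_lt_zero (by simpa [thr, St.thr, a3, a4, Kd.th] using h0 j a1))
  obtain ⟨Q, b1, b2, b3⟩ : ∃ Q, (Q = σ ∨ Q ++ [l] <+: σ) ∧ n ≤ Q.length ∧
      (M.U (j + 1)).L Q l ≠ none := by
    by_cases hσ : l ∈ σ
    · obtain ⟨Q, t, e⟩ := List.append_of_mem hσ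
      have c1 : Q ++ [l] <+: σ := ⟨t, by simp [e]⟩
      obtain ⟨c2, c3⟩ := (M.inv j).val _ _ (a4 ▸ c1)
      refine ⟨Q, Or.inr c1, not_lt.1 fun c4 => h n ((List.prefix_of_prefix_length_le c1 a6
        (by simpa [P.length] using c4)).subset (by simp)), ?_⟩
      rw [M.step, upd_L_ne (M.ok j) (M.inv j)]
      refine ⟨(pre_le (a4 ▸ pre_of_app c1)).trans_lt (cur_lt_thr _ _ _), ?_⟩
      split_ifs
      exacts [c2, ((M.inv j).rcd _ _).2 ⟨c3, c2⟩]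
    · refine ⟨σ, Or.inl rfl, P.length n ▸ a6.length_le, ?_⟩
      rw [M.step, upd_L_ne (M.ok j) (M.inv j), if_pos ⟨a3, a4.symm⟩]
      have : nf (P.f n) ≤ nf σ := a6.sublist.countP_le
      have := (hn n le_rfl).2
      exact ⟨a4 ▸ cur_lt_thr _ _ _, Or.inr ⟨hl, by omega, hσ, h2⟩⟩
  have b4 : ∀ k, j + 1 ≤ k → Q < M.thr k := fun k hk =>
    (b1.elim le_of_eq fun h => pre_le (pre_of_app h)).trans_lt (a5 k hk)
  have b5 : Q ++ [l + 1] ≤ P.f (Q.length + 1) := not_lt.1 fun hc => by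
    have c1 : Q ≤ P.f (Q.length + 1) := not_lt.1 fun h => by
      simpa [P.length] using (P.pre_of_le (eventually_atTop.2 ⟨_, b4⟩) h.le).length_le
    rcases between c1 hc with c2 | ⟨o, c2, c3⟩
    · simpa [P.length] using congrArg List.length c2
    · have c4 := c3.eq_of_length (by simp [P.length])
      rw [P.succ] at c4
      have := (hn _ b2).1
      have := (List.append_inj' c4 rfl).2
      simp at this
      omega
  obtain ⟨i2, b6⟩ := eventually_atTop.1 (P.tp (Q.length + 1)).2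
  obtain ⟨k, c1, c2⟩ := frequently_atTop.1 (freqK (M := M)) (i2 + j + 1)
  obtain ⟨s, hs⟩ := Option.ne_none_iff_exists'.1 (keep_ne (j := k + 1) (by omega) b3 b4)
  have c3 : 0 < s := Nat.pos_of_ne_zero fun h => by
    obtain ⟨d1, d2, -⟩ := (M.inv _).m1 _ _ (h ▸ hs)
    have d3 := ((((M.inv (k + 1)).rcd Q l).1 (by simp [hs])).2.resolve_left d1).2.1
    simp [List.prefix_nil.1 ((arr_K c2).1 ▸ d2), nf] at d3
  refine ⟨Q, s, b1, c3, eventually_atTop.2 ⟨k + 1, fun i hi => keep hi hs c3 fun m d1 _ =>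
    ⟨b4 m (by omega), fun _ d2 => (b6 m (by omega)).not_ge (le_trans ?_ b5)⟩⟩⟩
  rw [thr, St.thr, ← d2.2.1, ← d2.2.2]
  refine app_le_app ?_
  rcases d2.1 with e | e <;> simp [e, Kd.th]

end Pool.Agent.P.MP_1a00c7_lc.B.Lin
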