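import Pool.Agent.P.MP_1a00c7_lc.BImpl
import Pool.Agent.P.MP_1a00c7_lc.BReq

/-!
A weak 4-bubble in the c.e. degrees which is not a 4-bubble.
-/

namespace Pool.Agent.P.MP_1a00c7_lc.B

open Set Filter St Pool.Agent.Lib.Helper43 Denumerable

attribute [local irreducible] Computable

theorem red_tt {A O : ℕ → Bool} (f : ℕ → ℕ) (q : ℕ → Bool) (hf : Computable f)
    (hq : Computable q) (h : ∀ x, A x = (O (f x) && q x)) : Red A O :=
  red_of_search (fun x _ τ => decide (f x < τ.length)) (fun x _ τ => τ.getD (f x) false && q x)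
    (by fun_prop) (by fun_prop) (fun x _ n h' => by rw [seg_getD _ (by simpa using h'), h])
    fun x => ⟨0, f x + 1, by simp⟩

theorem red_fin {A O : ℕ → Bool} (P out : ℕ → ℕ → List Bool → Bool) (b : ℕ)
    (hP : Computable fun q : ℕ × ℕ × List Bool => P q.1 q.2.1 q.2.2)
    (ho : Computable fun q : ℕ × ℕ × List Bool => out q.1 q.2.1 q.2.2)
    (h1 : ∀ x a n, P x a (seg O n) = true → out x a (seg O n) = A x)
    (h2 : ∀ x, b ≤ x → ∃ a n, P x a (seg O n) = true) : Red A O :=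
  red_of_search (fun x a τ => decide (x < b) || P x a τ)
    (fun x a τ => if x < b then (seg A b).getD x false else out x a τ)
    (CFP.or (by fun_prop) hP) (CFP.ite (by fun_prop) (by fun_prop) ho) (fun x a n h => by
      split_ifs with hx
      exacts [seg_getD _ hx, h1 _ _ _ (by simpa [hx] using h)])
    fun x => (lt_or_ge x b).elim (fun h => ⟨0, 0, by simp [h]⟩)
      fun h => (h2 x h).imp fun a => Exists.imp fun n hn => by simp [hn]

/-- triples -/
abbrev N3 := ℕ × List ℕ × ℕ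

/-- decoding of numbers -/
def dec (z : ℕ) : N3 := (z.unpair.1, ofNat (List ℕ) z.unpair.2.unpair.2, z.unpair.2.unpair.1)

theorem red_num {A O : ℕ → Bool} (P out : N3 → N3 → List Bool → Bool) {F : Set N3} (hF : F.Finite)
    (hP : Computable fun q : N3 × N3 × List Bool => P q.1 q.2.1 q.2.2)
    (ho : Computable fun q : N3 × N3 × List Bool => out q.1 q.2.1 q.2.2)
    (h1 : ∀ z a n, P z a (seg O n) = true → out z a (seg O n) = A (num z.1 z.2.1 z.2.2))
    (h2 : ∀ z ∉ F, ∃ a n, P z a (seg O n) = true) : Red A O := by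
  have e1 : ∀ z, num (dec z).1 (dec z).2.1 (dec z).2.2 = z := fun z => by simp [dec, num]
  have e2 : ∀ a : N3, dec (num a.1 a.2.1 a.2.2) = a := fun a => by simp [dec, num]
  have c : Computable fun q : ℕ × ℕ × List Bool => (dec q.1, dec q.2.1, q.2.2) := by
    unfold dec
    fun_prop
  obtain ⟨b, hb⟩ := (hF.image fun z => num z.1 z.2.1 z.2.2).bddAbove
  refine red_fin (fun x a => P (dec x) (dec a)) (fun x a => out (dec x) (dec a)) (b + 1)
    (CFP.comp hP c) (CFP.comp ho c) (fun x a n h => by rw [h1 _ _ _ h, e1]) fun x hx => ?_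
  obtain ⟨a, n, h⟩ := h2 (dec x) fun h => by
    have := hb ⟨_, h, e1 x⟩
    omega
  exact ⟨num a.1 a.2.1 a.2.2, n, by rwa [e2]⟩

theorem ty_num (s : ℕ) (σ : List ℕ) (o : ℕ) :
    ty (num s σ o) = if o % 2 = 0 then 0 else o / 2 % 4 + 1 := by simp [ty, num]

theorem ty_wit (s : ℕ) (σ : List ℕ) : ty (num s σ (fin σ)) = nf σ % 4 + 1 := by
  rw [ty_num, fin, if_neg (by omega)]
  omega

theorem low_mono (A X : ℕ → Bool) {k k' : ℕ} (h : k ≤ k') : Red (low A X k) (low A X k') :=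
  (red_left _ _).join (red_tt (fun z => 2 * z + 1) (fun z => decide (ty z < k)) (by fun_prop)
    (by fun_prop) fun z => by
      by_cases hz : ty z < k
      exacts [by simp [low, hz, hz.trans_le h], by simp [hz]])

theorem col_le (A X : ℕ → Bool) {t k : ℕ} (h : t < k) :
    Red (fun z => X z && decide (ty z = t)) (low A X k) :=
  red_tt (fun z => 2 * z + 1) (fun z => decide (ty z = t)) (by fun_prop)
    (by fun_prop) fun z => by by_cases hz : ty z = t <;> simp [low, hz, h]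

/-- a computable run with its true timeline -/
structure Con extends CRun where
  Λ : toRun.Line

namespace Con

variable (R : Con)

/-- the linear run -/
def M : Lin where
  U i := R.S (R.Λ.t i)
  κ i := R.ek (R.Λ.r i)
  o i := R.ou (R.Λ.t i)
  t := R.Λ.t
  r := R.Λ.r
  see i := R.see (R.Λ.t i)
  U0 := by rw [R.Λ.t0, R.S0]
  inv _ := R.inv _
  ok i := R.Λ.base i ▸ R.okb (R.Λ.r i)
  step i := by rw [R.Λ.succ, R.step, R.Λ.base]
  le := R.Λ.le
  succ := R.Λ.succ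

open Classical in
/-- the targets -/
noncomputable def A (c : ℕ) : Bool := decide (∃ r, R.toRun.Ab r c)

open Classical in
/-- the final numbers -/
noncomputable def X (z : ℕ) : Bool := decide (z ∈ R.M.Xf)

open Classical in
/-- the used numbers -/
noncomputable def E (z : ℕ) : Bool := decide (∃ q, R.toRun.En q z)

theorem X_iff {z : ℕ} : R.X z = true ↔ z ∈ R.M.Xf := by simp [X]

theorem t_tend : Tendsto R.Λ.t atTop atTop := R.M.t_mono.tendsto_atTop

theorem nce_A : NCE 1 R.A :=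
  nce_one (fun x s => R.Ab' s x) (CFP.comp (g := fun p : ℕ × ℕ => (p.2, p.1)) R.cA (by fun_prop))
    (fun x => by simp [← Bool.not_eq_true, R.Ab_iff, Run.Ab])
    (fun x s => by
      simp only [R.Ab_iff]
      exact fun ⟨t, h1, h2⟩ => ⟨t, by omega, h2⟩) fun x => by simp [A, R.Ab_iff]

theorem nce_B : NCE 1 fun z => R.E z && decide (ty z = 4) :=
  nce_one (fun x s => R.Eb s x && decide (ty x = 4))
    (CFP.and (CFP.comp (g := fun p : ℕ × ℕ => (p.2, p.1)) R.cE (by fun_prop)) (by fun_prop))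
    (fun x => by simp [← Bool.not_eq_true, R.Eb_iff])
    (fun x s => by
      simp only [Bool.and_eq_true, R.Eb_iff]
      exact fun ⟨⟨t, h1, h2⟩, h3⟩ => ⟨⟨t, by omega, h2⟩, h3⟩) fun x => by
      simp only [E, Bool.and_eq_true, R.Eb_iff, decide_eq_true_eq]
      exact ⟨fun ⟨⟨q, h⟩, h'⟩ => ⟨q + 1, ⟨q, q.lt_succ_self, h⟩, h'⟩,
        fun ⟨_, ⟨q, _, h⟩, h'⟩ => ⟨⟨q, h⟩, h'⟩⟩

variable {R}

theorem out_X {s t z : ℕ} (h : s ≤ t) (h1 : ∀ q, s ≤ q → ¬ R.toRun.En q z) (h2 : z ∉ (R.S s).X) :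
    z ∉ (R.S t).X := by
  induction t, h using Nat.le_induction with
  | base => exact h2
  | succ t ht ih => exact fun h => (Run.mem_X_succ h).elim ih (h1 t ht)

variable (R)

theorem X_lim (z : ℕ) : ∀ᶠ s in atTop, R.Xb s z = R.X z := by
  by_cases hz : z ∈ R.M.Xf
  · obtain ⟨i, hi⟩ := hz
    filter_upwards [eventually_ge_atTop (R.Λ.t i)] with s hs
    rw [(R.Xb_iff _ _).2 ((R.Λ.tru i).sub hs hi), R.X_iff.2 ⟨i, hi⟩]
  · obtain ⟨b, hb⟩ : ∃ b, ∀ q, b ≤ q → ¬ R.toRun.En q z := by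
      by_cases h : ∃ q, R.toRun.En q z
      · obtain ⟨q, hq⟩ := h
        exact ⟨q + 1, fun q' h1 h2 => by have := hq.once h2; omega⟩
      · exact ⟨0, fun q _ hq => h ⟨q, hq⟩⟩
    filter_upwards [eventually_ge_atTop (R.Λ.t b)] with s hs
    rw [Bool.eq_false_iff.2 (R.X_iff.not.2 hz), ← Bool.not_eq_true, R.Xb_iff]
    exact out_X hs (fun q hq => hb q (R.M.t_mono.le_apply.trans hq)) fun h => hz ⟨b, h⟩

theorem nce_low (k : ℕ) : NCE 2 (low R.A R.X k) :=
  (R.nce_A.mono one_le_two).join (nce_two (fun x s => R.Xb s x && decide (ty x < k))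
    (CFP.and (CFP.comp (g := fun p : ℕ × ℕ => (p.2, p.1)) R.cX (by fun_prop)) (by fun_prop))
    (fun x => by simp [← Bool.not_eq_true, R.Xb_iff, R.S0, init])
    (fun x s t h1 h2 h3 => by
      simp only [← Bool.not_eq_true, Bool.and_eq_true, R.Xb_iff, not_and] at h2 h3 ⊢
      obtain ⟨q, a1, a2⟩ := Run.X_en h2.1
      exact fun h => absurd h (out_X h1 (fun q' b1 b2 => by have := a2.once b2; omega)
        fun h => h3 h h2.2))
    fun x => (R.X_lim x).mono fun s hs => by rw [hs])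

theorem mono_lim {g : ℕ → Bool} {v : Bool} (h : ∀ s t, s ≤ t → g s = true → g t = true)
    (h' : v = true ↔ ∃ s, g s = true) : ∀ᶠ s in atTop, g s = v := by
  cases v
  · exact .of_forall fun s => by simpa using fun h => h'.2 ⟨s, h⟩
  · obtain ⟨s, hs⟩ := h'.1 rfl
    exact (eventually_ge_atTop s).mono fun t ht => h s t ht hs

theorem orc_lim (k n : ℕ) : ∀ᶠ s in atTop,
    seg (orc (R.Ab' s) (R.Xb s) (R.Eb s) k) n = seg (orc R.A R.X R.E k) n := by
  have h1 : ∀ m, ∀ᶠ s in atTop, R.Ab' s m = R.A m ∧ R.Xb s m = R.X m ∧ R.Eb s m = R.E m := fun m =>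
    (mono_lim (fun s t h => by
      simp only [R.Ab_iff]
      exact fun ⟨u, h1, h2⟩ => ⟨u, by omega, h2⟩) (by simp [A, R.Ab_iff])).and ((R.X_lim m).and
    (mono_lim (fun s t h => by
      simp only [R.Eb_iff]
      exact fun ⟨u, h1, h2⟩ => ⟨u, by omega, h2⟩) (by
      simp only [E, R.Eb_iff, decide_eq_true_eq]
      exact ⟨fun ⟨q, h⟩ => ⟨q + 1, q, q.lt_succ_self, h⟩, fun ⟨_, q, _, h⟩ => ⟨q, h⟩⟩)))
  filter_upwards [(eventually_all_finite (finite_Iio n)).2 fun m _ => h1 m] with s hs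
  exact seg_eq_iff.2 (join_congr (join_congr (fun i hi => (hs i hi).1)
    fun i hi => by rw [(hs i hi).2.1]) fun i hi => by rw [(hs i hi).2.2])

variable {R}

theorem en_final {q s o : ℕ} {ρ : List ℕ} (h : R.toRun.En q (num s ρ o))
    (h' : ∀ᶠ i in atTop, (R.M.U i).L ρ o = some s) : num s ρ o ∈ R.M.Xf := by
  obtain ⟨i, h1, h2⟩ := (h'.and (R.t_tend.eventually_gt_atTop q)).exists
  by_contra hc
  exact (Run.once _).1 _ _ _ ⟨h.le.1, h1, fun h => hc ⟨i, h⟩⟩ q h2 h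

theorem r_eq {i : ℕ} (h : R.M.κ i ≠ .T) : R.Λ.r i = R.Λ.t i :=
  (Run.base_eq h).symm.trans (R.Λ.base i)

theorem tru_A {q : ℕ} : R.toRun.Tru q ↔ ∀ c < q, R.A c = true → R.Ab' q c = true := by
  simp [Run.tru_iff, A, R.Ab_iff]

theorem diag (p : ℕ) {T : ℕ → Bool} (hT : ∀ z, ty z = p % 4 + 1 → T z = R.X z ∨ T z = R.E z) :
    ¬ ∀ y, ∀ᶠ n in atTop, phi (p / 4) (seg (orc R.A R.X R.E ((p + 1) % 4)) n) y = some (T y) := by
  intro h
  obtain ⟨P⟩ := R.M.exists_path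
  obtain ⟨σ, x, rfl, h1, h2, h3⟩ := P.pwin p
  have h4 : T (num x σ (fin σ)) = R.X (num x σ (fin σ)) := (hT _ (ty_wit _ _)).elim id fun h => by
    rw [h, E, X, decide_eq_decide]
    exact ⟨fun ⟨q, hq⟩ => en_final hq h2, fun ⟨i, hi⟩ => (Run.X_en hi).imp fun _ h => h.2⟩
  obtain ⟨n, hn⟩ := (h (num x σ (fin σ))).exists
  rcases h3 with ⟨h3, h5⟩ | ⟨h3, i, rfl, h5, h6, h7, h8⟩
  · obtain ⟨i, ⟨a1, a2⟩, a3, a4, a5⟩ := (h5.and_eventually (h2.and ((Lin.st_big (M := R.M) n).and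
      (R.t_tend.eventually (R.orc_lim ((nf σ + 1) % 4) n))))).exists
    subst a1
    refine a2 ((R.see_iff _).2 ⟨n, a4, ?_⟩)
    rw [h4, Bool.eq_false_iff.2 (R.X_iff.not.2 h3), ← a5] at hn
    change (R.S _).L (R.S _).cur (fin (R.S _).cur) = _ at a3
    rw [a3]
    exact hn
  obtain ⟨m, a1, a2⟩ := (R.see_iff _).1 h6
  change (R.S _).L (R.S _).cur (fin (R.S _).cur) = _ at h5
  rw [h5] at a2
  rw [h4, R.X_iff.2 h3] at hn
  have a3 := (R.inv (R.Λ.t i)).st_le
  refine absurd (phi_unique hn ((seg_eq_iff.2 (join_congr (join_congr (fun c hc => ?_)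
    fun w hw => ?_) fun w hw => ?_)) ▸ a2)) (by simp)
  · rw [Bool.eq_iff_iff]
    exact ⟨fun h => by simpa [A] using ⟨_, (R.Ab_iff _ _).1 h⟩,
      tru_A.1 (R.Λ.tru i) c (by omega)⟩
  · rw [Bool.eq_iff_iff]
    simp only [Bool.and_eq_true, R.Xb_iff, X, decide_eq_true_eq]
    refine ⟨fun h => ⟨⟨i, h.1⟩, h.2⟩, fun h => ⟨(h7 w h.1 (hw.trans_le a1)).resolve_right ?_, h.2⟩⟩
    rintro rfl
    have := h.2
    rw [ty_wit] at this
    omega
  · rw [Bool.eq_iff_iff]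
    simp only [Bool.and_eq_true, R.Eb_iff, E, decide_eq_true_eq]
    refine ⟨fun ⟨⟨⟨q, _, h⟩, h'⟩, h''⟩ => ⟨⟨⟨q, h⟩, h'⟩, h''⟩,
      fun ⟨⟨⟨q, b1⟩, b2⟩, b3⟩ => ⟨⟨⟨q, not_le.1 fun b4 => ?_, b1⟩, b2⟩, b3⟩⟩
    obtain ⟨c1, c2⟩ := h8 fun l hl => by
      have := hl.2.2.2
      omega
    have c3 : R.Λ.t (i + 1) = R.Λ.t i + 1 := by rw [R.Λ.succ, r_eq (by simp [c1])]
    have c4 : w ∈ R.M.Xf := by
      rcases b4.eq_or_lt with rfl | b4
      · exact ⟨i + 1, show w ∈ (R.S _).X from c3 ▸ Run.mem_X.2 (Or.inr b1)⟩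
      obtain ⟨s, rfl, d1, d2, -⟩ := b1.live
      have d3 : s ≤ R.Λ.t i := by
        have := Nat.left_le_pair s (Nat.pair (R.ou q) (Encodable.encode (R.S q).cur))
        unfold num at hw
        omega
      have d4 : (R.M.U (i + 1)).L _ _ = some s :=
        (R.Λ.tru (i + 1)).old (c3 ▸ b4) d2 d1 (by omega)
      have d5 := (Lin.old (Nat.le_succ i) d4 d1 d3).2 i le_rfl i.lt_succ_self
      simp only [Lin.thr, thr, c1, Kd.th] at d5
      have d6 : R.ou q = fin (R.S q).cur := (((R.inv q).rcd _ _).1 (by simp [d2])).2.resolve_right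
        fun h => by simp [ty_num, h.1] at b2
      refine en_final b1 (eventually_atTop.2 ⟨i + 1, fun j hj => Lin.keep hj d4 d1 fun k e _ =>
        ⟨(le_of_lt_zero d5).trans_lt (c2 k (by omega)), fun _ => d6 ▸ Lin.not_hd _ _⟩⟩)
    rcases h7 w c4 (hw.trans_le a1) with c5 | rfl
    · obtain ⟨q', d1, d2⟩ := Run.X_en c5
      have := b1.once d2
      omega
    · rw [ty_wit] at b2
      omega

theorem not_red (t : ℕ) (ht : t < 4) {T : ℕ → Bool}
    (hT : ∀ z, ty z = t + 1 → T z = R.X z ∨ T z = R.E z) :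
    ¬ Red T (orc R.A R.X R.E ((t + 1) % 4)) := fun h => by
  obtain ⟨c, hc⟩ := h.use
  refine diag (4 * c + t) (fun z hz => hT z (by omega)) ?_
  rwa [show (4 * c + t) / 4 = c by omega, show (4 * c + t + 1) % 4 = (t + 1) % 4 by omega]

theorem squeeze {e n q s : ℕ} {W : ℕ → Bool} (hW : ∀ x, W x = true ↔ ∃ s, We e x s = true)
    (h : We e n q = W n) (hs : q ≤ s) : We e n s = W n := by
  rw [Bool.eq_iff_iff]
  exact ⟨fun h => (hW n).2 ⟨s, h⟩, fun h' => We_mono hs (h.trans h')⟩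

theorem We_lim {e : ℕ} {W : ℕ → Bool} (hW : ∀ x, W x = true ↔ ∃ s, We e x s = true) (n : ℕ) :
    ∀ᶠ s in atTop, We e n s = W n := mono_lim (fun _ _ => We_mono) (hW n)

theorem red_one (P : R.M.Path) {e n : ℕ} {W : ℕ → Bool}
    (hW : ∀ x, W x = true ↔ ∃ s, We e x s = true) (h : P.g n = 2 * e) : Red W R.A := by
  have h1 : Act (P.f n) (P.g n) := (P.out n).resolve_left (by unfold fin; omega)
  obtain ⟨i0, h0⟩ := eventually_atTop.1 (P.tp (n + 1)).2
  have cA := R.cA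
  refine red_of_search (fun x q τ => decide (R.Λ.t i0 ≤ q) && decide (q < τ.length) &&
    (List.range q).all (fun c => !τ.getD c false || R.Ab' q c) && !τ.getD q false &&
    decide (R.ek q = .C) && (R.S q).cur == P.f n && R.ou q == 2 * e &&
    decide (x < ((R.S q).L (P.f n) (2 * e)).getD 0)) (fun x q _ => We e x q) ?_ (by fun_prop)
    (fun x q m hq => ?_) fun x => ?_
  · have c1 := CFP.comp (g := fun q : ℕ × ℕ × List Bool => q.2.1) R.cC (by fun_prop)
    have c2 := CFP.comp (g := fun q : ℕ × ℕ × List Bool => q.2.1) R.ccur (by fun_prop)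
    have c3 := CFP.comp (g := fun q : ℕ × ℕ × List Bool => q.2.1) R.cou (by fun_prop)
    have c4 := CFP.comp (g := fun q : ℕ × ℕ × List Bool => (q.2.1, P.f n, 2 * e)) R.cL
      (by fun_prop)
    have c5 := CFP.comp (g := fun q : (ℕ × ℕ × List Bool) × ℕ => (q.1.2.1, q.2)) R.cA (by fun_prop)
    exact CFP.and (CFP.and (CFP.and (CFP.and (CFP.and (CFP.and (by fun_prop) (CFP.all
      (CFP.or (by fun_prop) c5) (by fun_prop))) (by fun_prop)) c1) (CFP.beq c2 (by fun_prop)))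
      (CFP.beq c3 (by fun_prop))) (CFP.decLt (by fun_prop) (CFP.optGetD c4 (by fun_prop)))
  · simp only [Bool.and_eq_true, decide_eq_true_eq, seg_length, List.all_eq_true, List.mem_range,
      Bool.or_eq_true, Bool.not_eq_true', beq_iff_eq] at hq
    obtain ⟨⟨⟨⟨⟨⟨⟨a1, a2⟩, a3⟩, a4⟩, a5⟩, a6⟩, a7⟩, a8⟩ := hq
    obtain ⟨i, rfl⟩ := R.Λ.all q (tru_A.2 fun c hc h => (a3 c hc).resolve_left (by
      rw [seg_getD _ (by omega), h]
      simp))
    rw [seg_getD _ a2] at a4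
    have b1 : R.Λ.r i = R.Λ.t i := r_eq fun hT => by
      simp only [A, decide_eq_false_iff_not] at a4
      exact a4 ⟨_, _, Nat.lt_succ_self _, hT, R.Λ.base i⟩
    have b2 : ∀ j, i + 1 ≤ j → R.Ck (R.Λ.t j) (R.Λ.t i) := fun j hj => by
      induction j, hj using Nat.le_induction with
      | base => exact R.Λ.succ i ▸ Run.ck_succ.2 (Or.inr ⟨b1 ▸ a5, b1.symm⟩)
      | succ j hj ih =>
        refine R.Λ.succ j ▸ Run.ck_succ.2 (Or.inl ⟨(R.Λ.base j).symm ▸ ih, ?_⟩)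
        have := h0 j ((R.M.t_mono.le_iff_le.1 a1).trans (by omega))
        rw [P.succ, h] at this
        rw [Run.ad, Run.thr, R.Λ.base, a6, a7]
        exact this
    obtain ⟨j, c1, c2⟩ := ((eventually_ge_atTop (i + 1)).and
      (R.t_tend.eventually (We_lim hW x))).exists
    have b3 := (R.ord _ (R.Λ.tru j).kd).2 _ (b2 j c1)
    simp only [Chg, a6, a7, R.W_eq, not_exists, not_and, not_not] at b3
    cases hL : (R.S (R.Λ.t i)).L (P.f n) (2 * e) with
    | none => simp [hL] at a8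
    | some s => simpa [c2] using (b3 s hL x (by simpa [hL] using a8)).symm
  · obtain ⟨i, ⟨a1, a2, a3, s, a4, a5⟩, a6⟩ :=
      ((P.r1 h1 x).and_eventually (eventually_ge_atTop i0)).exists
    have b1 := r_eq (R := R) (i := i) (by simp [a1])
    refine ⟨R.Λ.t i, R.Λ.t i + 1, ?_⟩
    simp only [Bool.and_eq_true, decide_eq_true_eq, seg_length, List.all_eq_true, List.mem_range,
      Bool.or_eq_true, Bool.not_eq_true', beq_iff_eq]
    refine ⟨⟨⟨⟨⟨⟨⟨R.M.t_mono.monotone a6, Nat.lt_succ_self _⟩, fun c hc => ?_⟩, ?_⟩, b1 ▸ a1⟩, a2⟩,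
      h ▸ a3⟩, ?_⟩
    · rw [seg_getD _ (by omega), ← Bool.not_eq_true, ← imp_iff_not_or]
      exact tru_A.1 (R.Λ.tru i) c hc
    · rw [seg_getD _ (Nat.lt_succ_self _), A, decide_eq_false_iff_not]
      exact fun ⟨u, hu⟩ => R.Λ.notA i (fun h => by simp [show R.M.κ i = .T from h] at a1) u hu
    · rw [← h, show (R.S (R.Λ.t i)).L _ _ = some s from a5]
      exact a4

theorem red_two (P : R.M.Path) {e : ℕ} {W O : ℕ → Bool}
    (hW : ∀ x, W x = true ↔ ∃ s, We e x s = true) (h : ∀ n, 2 * e ∉ P.f n)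
    (o1 : ∀ c, O (4 * c + 1) = R.A c) (o2 : ∀ c, O (4 * c + 3) = (R.X c && decide (ty c < 2)))
    (o3 : ∀ n, O (2 * n) = W n) : Red (fun z => R.X z && decide (ty z < 4)) O := by
  obtain ⟨N, hN⟩ := P.r3 (by omega) h
  refine red_num (fun z a τ =>
    decide (4 * (num z.1 z.2.1 z.2.2 + a.1 + num a.2.2 a.2.1 (2 * e)) + 3 < τ.length) &&
    (ty (num z.1 z.2.1 z.2.2) != 2 && ty (num z.1 z.2.1 z.2.2) != 3 || decide (z.1 ≤ a.1) &&
      (List.range a.1).all (fun c => !τ.getD (4 * c + 1) false || R.Ab' a.1 c) &&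
      ((R.S a.1).L z.2.1 z.2.2 != some z.1 || (a.2.1 == z.2.1 ||
        a.2.1 ++ [2 * e] == z.2.1.take (a.2.1 ++ [2 * e]).length) && decide (0 < a.2.2) &&
        (R.S a.1).L a.2.1 (2 * e) == some a.2.2 &&
        !τ.getD (4 * num a.2.2 a.2.1 (2 * e) + 3) false &&
        (List.range a.2.2).all fun n => τ.getD (2 * n) false == We e n a.1)))
    (fun z a τ => bif ty (num z.1 z.2.1 z.2.2) != 2 && ty (num z.1 z.2.1 z.2.2) != 3 then
      τ.getD (4 * num z.1 z.2.1 z.2.2 + 3) false else R.Xb a.1 (num z.1 z.2.1 z.2.2))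
    (F := Iic N ×ˢ ((fun σ => (σ, fin σ)) '' {σ | (R.M.U N).L σ (fin σ) ≠ none}))
    ((finite_Iic N).prod ((R.M.inv N).fin.image _)) ?_ ?_ ?_ ?_
  · have c1 := CFP.comp (g := fun q : N3 × N3 × List Bool => (q.2.1.1, q.1.2.1, q.1.2.2)) R.cL
      (by fun_prop)
    have c2 := CFP.comp (g := fun q : N3 × N3 × List Bool => (q.2.1.1, q.2.1.2.1, 2 * e)) R.cL
      (by fun_prop)
    have c3 := CFP.comp (g := fun q : (N3 × N3 × List Bool) × ℕ => (q.1.2.1.1, q.2)) R.cA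
      (by fun_prop)
    exact CFP.and (by fun_prop) (CFP.or (by fun_prop) (CFP.and (CFP.and (by fun_prop) (CFP.all
      (CFP.or (by fun_prop) c3) (by fun_prop))) (CFP.or (CFP.bne c1 (by fun_prop))
      (CFP.and (CFP.and (CFP.and (by fun_prop) (CFP.beq c2 (by fun_prop))) (by fun_prop))
        (by fun_prop)))))
  · exact CFP.cond (by fun_prop) (by fun_prop) (CFP.comp (g := fun q : N3 × N3 × List Bool =>
      (q.2.1.1, num q.1.1 q.1.2.1 q.1.2.2)) R.cX (by fun_prop))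
  · rintro ⟨x, σ, o⟩ ⟨q, Q, s⟩ n hq
    simp only [Bool.and_eq_true, decide_eq_true_eq, seg_length, List.all_eq_true, List.mem_range,
      Bool.or_eq_true, Bool.not_eq_true', beq_iff_eq, bne_iff_ne, ← List.prefix_iff_eq_take,
      cond_eq_ite] at hq ⊢
    obtain ⟨a1, a2⟩ := hq
    split_ifs with a3
    · rw [seg_getD _ (by omega), o2]
      exact congrArg _ (decide_eq_decide.2 (by omega))
    obtain ⟨⟨a4, a5⟩, a6⟩ := a2.resolve_left a3
    obtain ⟨i, rfl⟩ := R.Λ.all q (tru_A.2 fun c hc h => (a5 c hc).resolve_left (by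
      rw [seg_getD _ (by omega), o1, h]
      simp))
    rw [decide_eq_true (by omega : ty (num x σ o) < 4), Bool.and_true, Bool.eq_iff_iff, R.X_iff,
      R.Xb_iff]
    refine ⟨fun h => ⟨i, h⟩, fun hz => by_contra fun hc => ?_⟩
    obtain ⟨j, b1, b2⟩ := Lin.exists_enu hz hc
    obtain ⟨s', b3, b4, b5⟩ := Lin.enu_pos b2
    obtain ⟨rfl, rfl, rfl⟩ := num_inj.1 b5
    have b6 := (Lin.old b1 b4 b3 a4).1
    obtain ⟨⟨⟨⟨c1, c2⟩, c3⟩, c4⟩, c5⟩ := a6.resolve_left (not_not.2 b6)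
    have b7 := (((R.M.inv j).rcd _ _).1 (b4 ▸ Option.some_ne_none _)).2.resolve_right fun h =>
      by simp [ty_num, h.1] at a3
    obtain ⟨k, d1, ⟨d2, rfl, d3⟩, d4⟩ := Lin.cert (M := R.M) b1 c3 c2 (by unfold fin; omega) c1 a4
      (by rwa [← b7])
    rcases d2 with d2 | d2
    · rw [seg_getD _ (by omega), o2, R.X_iff.2 ⟨k + 1, Lin.mem_X.2 (Or.inr
        ⟨Or.inl d2, s, d3 ▸ d4, d3 ▸ rfl⟩)⟩] at c4
      simp [ty_num] at c4
    · obtain ⟨s', e1, m, e2, e3⟩ := (R.trv _ d2).2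
      rw [R.Λ.base] at e1 e3
      obtain rfl : s = s' := Option.some.inj ((d3 ▸ d4).symm.trans e1)
      have e4 := Nat.left_le_pair s (Nat.pair (2 * e) (Encodable.encode (R.M.U k).cur))
      have e5 := c5 m e2
      rw [seg_getD _ (by unfold num at a1; omega), o3] at e5
      have e6 : R.Λ.t i ≤ R.Λ.t k := R.M.t_mono.monotone d1
      refine e3 ?_
      rw [show R.ou (R.Λ.t k) / 2 = e by
        rw [show R.ou (R.Λ.t k) = 2 * e from d3.symm]; omega, R.W_eq, squeeze hW e5.symm e6,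
        squeeze hW e5.symm (e6.trans (R.Λ.le k))]
  · rintro ⟨x, σ, o⟩ hF
    suffices ∃ i Q s, ty (num x σ o) ≠ 2 ∧ ty (num x σ o) ≠ 3 ∨ x ≤ R.Λ.t i ∧
        ((R.M.U i).L σ o ≠ some x ∨ (Q = σ ∨ Q ++ [2 * e] <+: σ) ∧ 0 < s ∧
          (R.M.U i).L Q (2 * e) = some s ∧ num s Q (2 * e) ∉ R.M.Xf ∧
          ∀ n < s, We e n (R.Λ.t i) = W n) by
      obtain ⟨i, Q, s, hs⟩ := this
      refine ⟨(R.Λ.t i, Q, s), 4 * (num x σ o + R.Λ.t i + num s Q (2 * e)) + 4, ?_⟩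
      simp only [Bool.and_eq_true, decide_eq_true_eq, seg_length, List.all_eq_true, List.mem_range,
        Bool.or_eq_true, Bool.not_eq_true', beq_iff_eq, bne_iff_ne, ← List.prefix_iff_eq_take]
      refine ⟨Nat.lt_succ_self _, hs.imp_right fun ⟨a1, a2⟩ => ⟨⟨a1, fun c hc => ?_⟩,
        a2.imp_right fun ⟨b1, b2, b3, b4, b5⟩ => ⟨⟨⟨⟨b1, b2⟩, b3⟩, ?_⟩, fun n hn => ?_⟩⟩⟩
      · rw [seg_getD _ (by omega), o1, ← Bool.not_eq_true, ← imp_iff_not_or]
        exact tru_A.1 (R.Λ.tru i) c hc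
      · rw [seg_getD _ (by omega), o2, Bool.eq_false_iff.2 (R.X_iff.not.2 b4), Bool.false_and]
      · have := Nat.left_le_pair s (Nat.pair (2 * e) (Encodable.encode Q))
        rw [seg_getD _ (by unfold num; omega), o3, b5 n hn]
    by_cases a1 : ty (num x σ o) ≠ 2 ∧ ty (num x σ o) ≠ 3
    · exact ⟨0, [], 0, Or.inl a1⟩
    have a2 := R.t_tend.eventually_ge_atTop x
    by_cases a3 : ∀ᶠ i in atTop, (R.M.U i).L σ o = some x
    swap
    · obtain ⟨i, b1, b2⟩ := ((not_eventually.1 a3).and_eventually a2).exists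
      exact ⟨i, [], 0, Or.inr ⟨b2, Or.inl b1⟩⟩
    obtain ⟨i, b1, b2⟩ := (a3.and (eventually_ge_atTop N)).exists
    obtain rfl := (((R.M.inv i).rcd _ _).1 (b1 ▸ Option.some_ne_none _)).2.resolve_right fun h =>
      by simp [ty_num, h.1] at a1
    obtain ⟨Q, s, c1, c2, c3⟩ := hN σ x (not_le.1 fun h => hF ⟨h, σ, by
      simp [(Lin.old b2 b1 (Nat.pos_of_ne_zero fun h => ((R.M.inv i).m1 _ _ (h ▸ b1)).1 rfl)
        (h.trans R.M.t_mono.le_apply)).1], rfl⟩) (by rw [ty_wit] at a1; omega) a3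
    obtain ⟨j, d1, d2, d3⟩ := (a2.and (c3.and (R.t_tend.eventually
      ((eventually_all_finite (finite_Iio s)).2 fun n _ => We_lim hW n)))).exists
    refine ⟨j, Q, s, Or.inr ⟨d1, Or.inr ⟨c1, c2, d2, fun ⟨k, hk⟩ => ?_, d3⟩⟩⟩
    obtain ⟨m, e1, e2⟩ := (c3.and (eventually_ge_atTop k)).exists
    exact (R.M.inv m).nm _ _ _ e1 (by unfold fin; omega) (Lin.X_mono e2 hk)

theorem red_ce {W : ℕ → Bool} (h : NCE 1 W) :
    Red W R.A ∨ Red (low R.A R.X 4) (join W (low R.A R.X 2)) := by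
  obtain ⟨e, hW⟩ := h.exists_We
  obtain ⟨P⟩ := R.M.exists_path
  by_cases h : ∃ n, P.g n = 2 * e
  · exact Or.inl (h.elim fun _ => red_one P hW)
  refine Or.inr (((red_left _ _).trans (red_right _ _)).join (red_two P hW (fun n => ?_)
    (fun c => ?_) (fun c => ?_) (join_even _ _)))
  · induction n with
    | zero => simp [P.f0]
    | succ n ih => simpa [P.succ, ih] using fun h' => h ⟨n, h'.symm⟩
  · rw [show 4 * c + 1 = 2 * (2 * c) + 1 by omega, join_odd, join_even]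
  · rw [show 4 * c + 3 = 2 * (2 * c + 1) + 1 by omega, join_odd, join_odd]

theorem nce_of_comp (h : Computable R.A) : NCE 1 (low R.A R.X 2) := by
  have c1 := CFP.comp (g := fun q : ((ℕ × ℕ) × ℕ) × ℕ => (q.1.2, q.2)) R.cA (by fun_prop)
  have c2 := CFP.comp (g := fun q : (ℕ × ℕ) × ℕ => (q.2, q.1.1)) R.cX (by fun_prop)
  refine R.nce_A.join (nce_one (fun x s => (List.range s).any (fun q => (List.range q).all
    (fun c => !R.A c || R.Ab' q c) && R.Xb q x) && decide (ty x < 2)) (CFP.and (CFP.any (CFP.and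
    (CFP.all (CFP.or (by fun_prop) c1) (by fun_prop)) c2) (by fun_prop)) (by fun_prop))
    (by simp) (fun x s => ?_) fun x => ?_)
  all_goals simp only [Bool.and_eq_true, List.any_eq_true, List.all_eq_true, List.mem_range,
    Bool.or_eq_true, Bool.not_eq_true', ← Bool.not_eq_true, ← imp_iff_not_or, ← tru_A, R.X_iff,
    R.Xb_iff]
  · exact fun ⟨⟨q, h1, h2⟩, h3⟩ => ⟨⟨q, by omega, h2⟩, h3⟩
  · refine ⟨fun ⟨⟨i, h1⟩, h2⟩ => ⟨_, ⟨_, Nat.lt_succ_self _, R.Λ.tru i, h1⟩, h2⟩,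
      fun ⟨_, ⟨q, _, h1, h2⟩, h3⟩ => ⟨?_, h3⟩⟩
    obtain ⟨i, rfl⟩ := R.Λ.all q h1
    exact ⟨i, h2⟩

end Con

theorem assemble {A B D2 D3 D4 : ℕ → Bool} (hA : NCE 1 A) (hB : NCE 1 B) (h2 : NCE 2 D2)
    (h3 : NCE 2 D3) (r1 : Red A D2) (r2 : Red D2 D3) (r3 : Red D3 D4)
    (hR : ∀ W, NCE 1 W → Red W A ∨ Red D4 (join W D2)) (n0 : Computable A → NCE 1 D2)
    (n1 : ¬ Red D2 A) (n2 : ¬ Red D3 D2) (n3 : ¬ Red D4 D3) (n4 : ¬ Red B A) (n5 : ¬ Red D3 B) :
    ∃ a, WeakBubble 4 1 a ∧ ¬ Bubble 4 1 a := by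
  have k1 : ∀ W, NCE 1 W → Red W D3 → Red W A := fun W h h' =>
    (hR W h).resolve_right fun h'' => n3 (h''.trans (h'.join r2))
  refine ⟨fun k => deg ([fun _ => false, A, D2, D3].getD k (join D3 B)),
    ⟨⟨rfl, fun k hk => ?_, fun k _ _ => ⟨_, ?_, rfl⟩⟩, ?_⟩, fun h => ?_⟩
  · rw [lt_iff_le_not_ge, deg_le, deg_le]
    interval_cases k
    · exact ⟨red_of_comp (Computable.const _) _, fun h => n1 (k1 _ (n0 (h.computable
        (Computable.const _))) r2)⟩
    exacts [⟨r1, n1⟩, ⟨r2, n2⟩, ⟨red_left _ _, fun h => n4 (k1 _ hB ((red_right _ _).trans h))⟩]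
  · interval_cases k
    exacts [hA, h2, h3.mono (by omega), (h3.join (hB.mono (by omega))).mono (by omega)]
  · rintro k _ _ _ ⟨W, hW, rfl⟩ h
    interval_cases k
    · exact Or.inl (k1 W hW (Red.trans h r2))
    · exact Or.inl ((k1 W hW h).trans r1)
    · exact (hR W hW).imp (fun h => (h.trans r1).trans r2)
        fun h => ⟨_, isLUB_join W D2, r3.trans h⟩
  · exact (h.2 4 (by omega) le_rfl _ ⟨B, hB, rfl⟩ (red_right D3 B)).elim
      (fun h => n4 (k1 _ hB h)) n5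

theorem exists_weak41 : ∃ a, WeakBubble 4 1 a ∧ ¬ Bubble 4 1 a := by
  obtain ⟨C⟩ := exists_crun
  obtain ⟨Λ⟩ := C.toRun.exists_line
  let R : Con := ⟨C, Λ⟩
  have key : ∀ t < 3, ¬ Red (low R.A R.X (t + 2)) (orc R.A R.X R.E ((t + 1) % 4)) :=
    fun t ht h => Con.not_red t (by omega) (fun z hz => Or.inl (by simp [hz]))
      ((col_le R.A R.X (Nat.lt_succ_self (t + 1))).trans h)
  exact assemble R.nce_A R.nce_B (R.nce_low 2) (R.nce_low 3) (red_left _ _)
    (low_mono _ _ (by omega)) (low_mono _ _ (by omega)) (fun _ => Con.red_ce) Con.nce_of_comp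
    (fun h => key 0 (by omega) (h.trans ((red_left _ _).trans (red_left _ _))))
    (fun h => key 1 (by omega) (h.trans (red_left _ _)))
    (fun h => key 2 (by omega) (h.trans (red_left _ _)))
    (fun h => Con.not_red 3 (by omega) (fun z hz => Or.inr (by simp [hz]))
      (h.trans ((red_left _ _).trans (red_left _ _))))
    fun h => key 0 (by omega) (((low_mono _ _ (by omega)).trans h).trans (red_tt
      (fun z => 2 * z + 1) (fun _ => true) (by fun_prop) (by fun_prop) fun z => by simp [orc]))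

end Pool.Agent.P.MP_1a00c7_lc.B
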