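import Pool.Agent.P.MP_1a00c7_lc.BTree

/-!
Runs with time travel: every number is enumerated at most once, true steps.
-/

namespace Pool.Agent.P.MP_1a00c7_lc.B

open Set Filter St

/-- the set treated at the checkpoint `c` has changed below the use -/
def Chg (W : ℕ → ℕ → ℕ → Bool) (S : ℕ → St) (ou : ℕ → ℕ) (c r : ℕ) : Prop :=
  ∃ s, (S c).L (S c).cur (ou c) = some s ∧ ∃ n < s, W (ou c / 2) n r ≠ W (ou c / 2) n c

/-- runs of the construction -/
structure Run where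
  W : ℕ → ℕ → ℕ → Bool
  S : ℕ → St
  see : ℕ → Prop
  base : ℕ → ℕ
  ek : ℕ → Kd
  ou : ℕ → ℕ
  Ck : ℕ → ℕ → Prop
  S0 : S 0 = St.init
  step : ∀ r, S (r + 1) = (S (base r)).upd (ek r) (ou (base r)) r
  ok : ∀ r, ek r ≠ .T → (S r).Ok (see r) (ek r) (ou r)
  Ck0 : ∀ c, ¬ Ck 0 c
  Ck_succ : ∀ r c, Ck (r + 1) c ↔ (Ck (base r) c ∧
    (S c).cur ++ [ou c] < (S (base r)).thr (ek r) (ou (base r))) ∨ (ek r = .C ∧ c = r)
  ord : ∀ r, ek r ≠ .T → base r = r ∧ ∀ c, Ck r c → ¬ Chg W S ou c r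
  trv : ∀ r, ek r = .T → Ck r (base r) ∧ Chg W S ou (base r) r

namespace Run

variable (R : Run)

/-- the address of a checkpoint -/
def ad (c : ℕ) : List ℕ := (R.S c).cur ++ [R.ou c]

/-- the threshold of a step -/
def thr (r : ℕ) : List ℕ := (R.S (R.base r)).thr (R.ek r) (R.ou (R.base r))

/-- the number enumerated at a step -/
def En (r z : ℕ) : Prop := (R.S r).Enu (R.ek r) (R.ou r) z

/-- records whose number may still be enumerated -/
def Live (r s : ℕ) (ρ : List ℕ) (o : ℕ) : Prop :=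
  0 < s ∧ (R.S r).L ρ o = some s ∧ num s ρ o ∉ (R.S r).X

/-- true steps -/
def Tru (q : ℕ) : Prop := ∀ t, q ≤ t → q ≤ R.base t

/-- the step `c` was the target of a travel before `r` -/
def Ab (r c : ℕ) : Prop := ∃ t < r, R.ek t = .T ∧ R.base t = c

variable {R}

theorem ck_succ {r c : ℕ} : R.Ck (r + 1) c ↔
    (R.Ck (R.base r) c ∧ R.ad c < R.thr r) ∨ (R.ek r = .C ∧ c = r) := R.Ck_succ r c

theorem base_eq {r : ℕ} (h : R.ek r ≠ .T) : R.base r = r := (R.ord r h).1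

theorem ck_lt {r : ℕ} : ∀ {c}, R.Ck r c → c < r ∧ R.ek c = .C := by
  induction r using Nat.strong_induction_on with
  | _ r ih =>
  intro c h
  cases r with
  | zero => exact absurd h (R.Ck0 c)
  | succ r =>
    have hb : R.base r ≤ r := by
      by_cases hT : R.ek r = .T
      exacts [(ih r (Nat.lt_succ_self r) (R.trv r hT).1).1.le, (base_eq hT).le]
    rcases ck_succ.1 h with ⟨h, -⟩ | ⟨h, rfl⟩
    · have := ih _ (Nat.lt_succ_of_le hb) h
      exact ⟨by omega, this.2⟩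
    · exact ⟨Nat.lt_succ_self _, h⟩

theorem base_lt {r : ℕ} (h : R.ek r = .T) : R.base r < r := (ck_lt (R.trv r h).1).1

variable (R) in
theorem base_le (r : ℕ) : R.base r ≤ r := by
  by_cases hT : R.ek r = .T
  exacts [(base_lt hT).le, (base_eq hT).le]

theorem ck_ok {r c : ℕ} (h : R.Ck r c) : (R.S c).Ok (R.see c) .T (R.ou c) :=
  let h' := (R.ok c (by simp [(ck_lt h).2])).top (Or.inl (ck_lt h).2)
  .T _ h'.1 h'.2

variable (R) in
theorem okb (r : ℕ) : (R.S (R.base r)).Ok (R.see (R.base r)) (R.ek r) (R.ou (R.base r)) := by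
  by_cases hT : R.ek r = .T
  · exact hT ▸ ck_ok (R.trv r hT).1
  · rw [base_eq hT]
    exact R.ok r hT

variable (R) in
theorem inv (r : ℕ) : (R.S r).Inv r := by
  induction r using Nat.strong_induction_on with
  | _ r ih =>
  cases r with
  | zero => exact R.S0 ▸ inv_init
  | succ r =>
    rw [R.step]
    exact ((ih _ (Nat.lt_succ_of_le (R.base_le r))).mono (R.base_le r)).upd (R.okb r)

theorem thr_T {r : ℕ} (h : R.ek r = .T) : R.thr r = R.ad (R.base r) := by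
  simp [thr, St.thr, h, ad, Kd.th]

theorem En.kd {r z : ℕ} (h : R.En r z) : R.ek r ≠ .T := by
  rcases h.1 with h | h <;> simp [h]

theorem mem_X {r z : ℕ} : z ∈ (R.S (r + 1)).X ↔ z ∈ (R.S (R.base r)).X ∨ R.En r z := by
  rw [R.step]
  refine or_congr_right (?_ : St.Enu _ _ _ z ↔ _)
  by_cases hT : R.ek r = .T
  · simp [En, St.Enu, hT]
  · rw [base_eq hT, En]

theorem coh {r c c0 : ℕ} (h : R.Ck r c0) (h1 : R.Ck c0 c) (h2 : R.ad c < R.ad c0) : R.Ck r c := by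
  induction r using Nat.strong_induction_on with
  | _ r ih =>
  cases r with
  | zero => exact absurd h (R.Ck0 _)
  | succ r =>
    rcases ck_succ.1 h with ⟨h, h3⟩ | ⟨h, rfl⟩
    · exact ck_succ.2 (Or.inl ⟨ih _ (Nat.lt_succ_of_le (R.base_le r)) h, h2.trans h3⟩)
    · have e : R.base c0 = c0 := base_eq (by simp [h])
      refine ck_succ.2 (Or.inl ⟨e.symm ▸ h1, h2.trans ?_⟩)
      simp only [thr, St.thr, e, h, ad]
      exact lt_of_pre List.prefix_rfl (Nat.lt_succ_self _)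

theorem ck_sub {r c : ℕ} (h : R.Ck r c) : (R.S c).X ⊆ (R.S r).X := by
  induction r using Nat.strong_induction_on with
  | _ r ih =>
  cases r with
  | zero => exact absurd h (R.Ck0 _)
  | succ r =>
    rcases ck_succ.1 h with ⟨h, -⟩ | ⟨h, rfl⟩
    · exact fun z hz => mem_X.2 (Or.inl (ih _ (Nat.lt_succ_of_le (R.base_le r)) h hz))
    · exact fun z hz => mem_X.2 (Or.inl ((base_eq (R := R) (r := c) (by simp [h])).symm ▸ hz))

theorem mem_X_succ {r z : ℕ} (h : z ∈ (R.S (r + 1)).X) : z ∈ (R.S r).X ∨ R.En r z := by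
  refine (mem_X.1 h).imp_left fun h => ?_
  by_cases hT : R.ek r = .T
  exacts [ck_sub (R.trv r hT).1 h, base_eq hT ▸ h]

theorem X_en {r z : ℕ} (h : z ∈ (R.S r).X) : ∃ q < r, R.En q z := by
  induction r with
  | zero => simp [R.S0, init] at h
  | succ r ih =>
    rcases mem_X_succ h with h | h
    · obtain ⟨q, h1, h2⟩ := ih h
      exact ⟨q, by omega, h2⟩
    · exact ⟨r, Nat.lt_succ_self r, h⟩

theorem En.live {r z : ℕ} (h : R.En r z) :
    ∃ s, z = num s (R.S r).cur (R.ou r) ∧ R.Live r s (R.S r).cur (R.ou r) := by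
  have hok := R.ok r h.kd
  obtain ⟨h1, s, h2, rfl⟩ := h
  obtain ⟨s', h3, h4⟩ := hok.pos (R.inv r) (by rcases h1 with h | h <;> simp [h])
  obtain rfl : s = s' := by simpa [h2] using h4
  refine ⟨s, rfl, h3, h2, ?_⟩
  rcases h1 with h | h
  · exact (R.inv r).nm _ _ _ h2 (hok.top (Or.inl h)).2.1.lt.ne
  · rw [h] at hok
    generalize R.ou r = o at hok h2
    cases hok with
    | S hg =>
      obtain ⟨x, h5, h6⟩ := (R.inv r).go hg
      obtain rfl : s = x := by simpa [h2] using h5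
      exact h6

theorem En.le {r s o : ℕ} {ρ : List ℕ} (h : R.En r (num s ρ o)) : 0 < s ∧ s ≤ r := by
  obtain ⟨s', h1, h2⟩ := h.live
  obtain ⟨rfl, -⟩ := num_inj.1 h1
  exact ⟨h2.1, (R.inv r).le _ _ _ h2.2.1⟩

theorem once (r : ℕ) : (∀ s ρ o, R.Live r s ρ o → ∀ q < r, ¬ R.En q (num s ρ o)) ∧
    ∀ c, R.Ck r c → ∀ s ρ o, R.Live c s ρ o → ρ < R.ad c →
      ¬ (ρ = (R.S c).cur ∧ o = R.ou c) → ∀ q < r, ¬ R.En q (num s ρ o) := by
  induction r with
  | zero => simp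
  | succ r ih =>
    refine ⟨fun s ρ o h q hq hE => ?_, fun c hc s ρ o h h1 h2 q hq hE => ?_⟩
    · have h3 := hE.le
      obtain ⟨a1, a2, a3⟩ := upd_L_old (R.step r ▸ h.2.1) h.1 (by omega)
      have a4 : R.Live (R.base r) s ρ o := ⟨h.1, a1, fun h' => h.2.2 (mem_X.2 (Or.inl h'))⟩
      rcases (Nat.le_of_lt_succ hq).eq_or_lt with rfl | hq
      · exact h.2.2 (mem_X.2 (Or.inr hE))
      by_cases hT : R.ek r = .T
      · exact ih.2 _ (R.trv r hT).1 s ρ o a4 (thr_T hT ▸ a2) (fun h => a3 ⟨Or.inr hT, h⟩) q hq hE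
      · exact ih.1 s ρ o (base_eq hT ▸ a4) q hq hE
    rcases (Nat.le_of_lt_succ hq).eq_or_lt with rfl | hq
    · obtain ⟨s', h3, -⟩ := hE.live
      obtain ⟨rfl, rfl, rfl⟩ := num_inj.1 h3
      rcases ck_succ.1 hc with ⟨h4, h5⟩ | ⟨-, rfl⟩
      swap
      · exact h2 ⟨rfl, rfl⟩
      simp only [thr, St.thr, base_eq hE.kd] at h4 h5
      rcases between h1.le h5 with h6 | ⟨o', h6, h7⟩
      · exact h1.ne h6
      rcases hE.1 with h8 | h8
      swap
      · simp [h8, Kd.th] at h6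
      have h9 := ((R.ok q hE.kd).top (Or.inl h8)).2.1
      have h10 : o' ≤ R.ou q := by simpa [h8, Kd.th, Nat.lt_succ_iff] using h6
      have : (R.S c).L (R.S q).cur (R.ou q) = some 0 := by
        refine (R.inv c).m2 _ _ h9 ?_
        rcases app_pre_app.1 h7 with ⟨e, rfl⟩ | h7
        · refine Or.inr ⟨e, not_lt.1 fun h11 => h2 ⟨e, le_antisymm ?_ h10⟩⟩
          exact ((ck_ok h4).top (Or.inr rfl)).2.2.2 _ (e ▸ h9) h11
        · exact Or.inl ⟨o', h10, h7⟩
      have h11 := h.1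
      simp [h.2.1, h11.ne'] at this
    · rcases ck_succ.1 hc with ⟨h4, h5⟩ | ⟨-, rfl⟩
      · refine ih.2 c ?_ s ρ o h h1 h2 q hq hE
        by_cases hT : R.ek r = .T
        exacts [coh (R.trv r hT).1 h4 (thr_T hT ▸ h5), base_eq hT ▸ h4]
      · exact ih.1 s ρ o h q hq hE

theorem En.once {q q' z : ℕ} (h : R.En q z) (h' : R.En q' z) : q = q' := by
  have key : ∀ {q q'}, R.En q z → R.En q' z → ¬ q < q' := fun h h' hq =>
    let ⟨_, h1, h2⟩ := h'.live; (Run.once _).1 _ _ _ h2 _ hq (h1 ▸ h)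
  exact le_antisymm (not_lt.1 (key h' h)) (not_lt.1 (key h h'))

theorem used {t t' : ℕ} (h : R.ek t = .T) (ht : t < t') :
    ∀ {c}, R.base t ≤ c → c ≤ t → ¬ R.Ck t' c := by
  induction t' using Nat.strong_induction_on with
  | _ t' ih =>
  intro c h1 h2 h3
  obtain ⟨u, rfl⟩ : ∃ u, t' = u + 1 := ⟨t' - 1, by omega⟩
  rcases ck_succ.1 h3 with ⟨h4, -⟩ | ⟨h4, rfl⟩
  · have h5 := (ck_lt h4).1
    have h6 := R.base_le u
    by_cases h7 : t < R.base u
    · exact ih _ (by omega) h7 h1 h2 h4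
    rcases (Nat.le_of_lt_succ ht).eq_or_lt with rfl | h8
    · omega
    · by_cases hT : R.ek u = .T
      · exact ih u (by omega) h8 (by omega) (by omega) (R.trv u hT).1
      · have := base_eq hT
        omega
  · obtain rfl : t = c := by omega
    simp [h] at h4

theorem Tru.kd {q : ℕ} (h : R.Tru q) : R.ek q ≠ .T := fun h' => (base_lt h').not_ge (h q le_rfl)

theorem Tru.sub {q t : ℕ} (h : R.Tru q) (ht : q ≤ t) : (R.S q).X ⊆ (R.S t).X := by
  induction t using Nat.strong_induction_on with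
  | _ t ih =>
  rcases ht.eq_or_lt with rfl | ht
  · exact Subset.rfl
  obtain ⟨u, rfl⟩ : ∃ u, t = u + 1 := ⟨t - 1, by omega⟩
  exact fun z hz => mem_X.2 (Or.inl (ih _ (Nat.lt_succ_of_le (R.base_le u)) (h u (by omega)) hz))

theorem Tru.old {q t s o : ℕ} {ρ : List ℕ} (h : R.Tru q) (ht : q ≤ t)
    (h1 : (R.S t).L ρ o = some s) (h2 : 0 < s) (h3 : s ≤ q) : (R.S q).L ρ o = some s := by
  induction t using Nat.strong_induction_on with
  | _ t ih =>
  rcases ht.eq_or_lt with rfl | ht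
  · exact h1
  obtain ⟨u, rfl⟩ : ∃ u, t = u + 1 := ⟨t - 1, by omega⟩
  exact ih _ (Nat.lt_succ_of_le (R.base_le u)) (h u (by omega))
    (upd_L_old (R.step u ▸ h1) h2 (by omega)).1

theorem tru_iff {q : ℕ} : R.Tru q ↔ ∀ c < q, (∃ r, R.Ab r c) → R.Ab q c := by
  refine ⟨fun h c hc ⟨_, t, _, h1, h2⟩ => ⟨t, not_le.1 fun ht => ?_, h1, h2⟩,
    fun h t ht => not_lt.1 fun hc => ?_⟩
  · have := h t ht
    omega
  · have hT : R.ek t = .T := by
      by_contra hT
      have := base_eq hT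
      omega
    obtain ⟨t', h1, h2, h3⟩ := h _ hc ⟨t + 1, t, Nat.lt_succ_self t, hT, rfl⟩
    exact used h2 (h1.trans_le ht) h3.le (h3 ▸ R.base_le t') (R.trv t hT).1

theorem Tru.next {q : ℕ} (h : R.Tru q) : ∃ r, q ≤ r ∧ R.base r = q ∧ R.Tru (r + 1) ∧
    (R.ek r ≠ .T → ∀ u, ¬ R.Ab u q) := by
  by_cases hc : ∃ t, R.ek t = .T ∧ R.base t = q
  · obtain ⟨t, h1, h2⟩ := hc
    have h3 := base_lt h1
    refine ⟨t, by omega, h2, fun u hu => ?_, fun h => absurd h1 h⟩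
    by_cases hT : R.ek u = .T
    · exact not_le.1 fun h4 => used h1 hu (h2 ▸ h u (by omega)) h4 (R.trv u hT).1
    · exact (base_eq hT).symm ▸ hu
  · refine ⟨q, le_rfl, base_eq h.kd, fun u hu => ?_, fun _ u ⟨t, _, h1⟩ => hc ⟨t, h1⟩⟩
    by_cases hT : R.ek u = .T
    · exact lt_of_le_of_ne (h u (by omega)) fun e => hc ⟨u, hT, e.symm⟩
    · exact (base_eq hT).symm ▸ hu

variable (R) in
/-- the true timeline -/
structure Line where
  t : ℕ → ℕ
  r : ℕ → ℕ
  t0 : t 0 = 0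
  tru : ∀ i, R.Tru (t i)
  le : ∀ i, t i ≤ r i
  succ : ∀ i, t (i + 1) = r i + 1
  base : ∀ i, R.base (r i) = t i
  all : ∀ q, R.Tru q → ∃ i, t i = q
  notA : ∀ i, R.ek (r i) ≠ .T → ∀ u, ¬ R.Ab u (t i)

variable (R) in
theorem exists_line : Nonempty R.Line := by
  choose nx h1 h2 h3 h4 using fun q : {q // R.Tru q} => q.2.next
  let t : ℕ → {q // R.Tru q} := fun i => Nat.rec ⟨0, fun _ _ => Nat.zero_le _⟩
    (fun _ q => ⟨nx q + 1, h3 q⟩) i
  refine ⟨⟨fun i => (t i).1, fun i => nx (t i), rfl, fun i => (t i).2, fun i => h1 _,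
    fun _ => rfl, fun i => h2 _, fun q hq => ?_, fun i => h4 _⟩⟩
  have hm : StrictMono fun i => (t i).1 :=
    strictMono_nat_of_lt_succ fun i => Nat.lt_succ_of_le (h1 (t i))
  have hex : ∃ i, q < (t (i + 1)).1 := ⟨q, hm.le_apply (x := q + 1)⟩
  classical
  have a1 := Nat.find_spec hex
  have a2 : (t (Nat.find hex)).1 ≤ q := by
    rcases h : Nat.find hex with _ | i
    · exact Nat.zero_le _
    · exact not_lt.1 (Nat.find_min hex (h ▸ Nat.lt_succ_self i))
  exact ⟨_, a2.antisymm (h2 _ ▸ hq _ (Nat.le_of_lt_succ a1))⟩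

end Run

end Pool.Agent.P.MP_1a00c7_lc.B
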