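import Pool.Agent.P.MP_1a00c7_lc.Basic
import Pool.Agent.P.MP_1a00c7_lc.BRun

/-!
A computable run.
-/

namespace Pool.Agent.P.MP_1a00c7_lc.B

open Set Filter St Pool.Agent.Lib.Helper43

attribute [local irreducible] Computable

/-- the type of a number -/
def ty (z : ℕ) : ℕ := if z.unpair.2.unpair.1 % 2 = 0 then 0 else z.unpair.2.unpair.1 / 2 % 4 + 1

/-- the numbers of small type -/
def low (A X : ℕ → Bool) (k : ℕ) : ℕ → Bool := join A fun z => X z && decide (ty z < k)

/-- the oracles of the diagonalizations -/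
def orc (A X E : ℕ → Bool) (k : ℕ) : ℕ → Bool :=
  join (low A X k) fun z => E z && decide (ty z = 4) && decide (k = 1)

/-- a computation is seen -/
def See (A X E : ℕ → Bool) (S : St) : Prop :=
  ∃ n ≤ S.st, phi (nf S.cur / 4) (seg (orc A X E ((nf S.cur + 1) % 4)) n)
    (num ((S.L S.cur (fin S.cur)).getD 0) S.cur (fin S.cur)) = some false

/-- computable runs -/
structure CRun extends Run where
  Ab' : ℕ → ℕ → Bool
  Xb : ℕ → ℕ → Bool
  Eb : ℕ → ℕ → Bool
  W_eq : W = We
  Ab_iff : ∀ r c, Ab' r c = true ↔ toRun.Ab r c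
  Xb_iff : ∀ r z, Xb r z = true ↔ z ∈ (S r).X
  Eb_iff : ∀ r z, Eb r z = true ↔ ∃ q < r, toRun.En q z
  see_iff : ∀ r, see r ↔ See (Ab' r) (Xb r) (Eb r) (S r)
  cA : Computable fun p : ℕ × ℕ => Ab' p.1 p.2
  cX : Computable fun p : ℕ × ℕ => Xb p.1 p.2
  cE : Computable fun p : ℕ × ℕ => Eb p.1 p.2
  cL : Computable fun p : ℕ × List ℕ × ℕ => (S p.1).L p.2.1 p.2.2
  cC : Computable fun r => decide (ek r = .C)
  ccur : Computable fun r => (S r).cur
  cou : Computable ou

section
variable {α : Type} [Primcodable α]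

@[fun_prop] theorem comp_ty {z : α → ℕ} (h : Computable z) : Computable fun a => ty (z a) := by
  unfold ty
  fun_prop

@[fun_prop] theorem comp_nf {σ : α → List ℕ} (h : Computable σ) :
    Computable fun a => nf (σ a) := by
  simp only [nf, List.countP_eq_length_filter]
  fun_prop

@[fun_prop] theorem comp_fin {σ : α → List ℕ} (h : Computable σ) :
    Computable fun a => fin (σ a) := by
  unfold fin
  fun_prop

@[fun_prop] theorem comp_num {s o : α → ℕ} {σ : α → List ℕ} (h1 : Computable s)
    (h2 : Computable σ) (h3 : Computable o) : Computable fun a => num (s a) (σ a) (o a) := by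
  unfold num
  fun_prop

/-- the lexicographic order -/
def ltb (ρ θ : List ℕ) : Bool :=
  (List.range θ.length).any fun i => ρ.take i == θ.take i &&
    decide ((ρ.map (· + 1)).getD i 0 < (θ.map (· + 1)).getD i 0)

theorem ltb_iff {ρ θ : List ℕ} : ltb ρ θ = true ↔ ρ < θ := by
  simp only [ltb, List.any_eq_true, List.mem_range, Bool.and_eq_true, beq_iff_eq, decide_eq_true_eq]
  induction θ generalizing ρ with
  | nil => simp
  | cons y θ ih =>
    cases ρ with
    | nil => simp
    | cons x ρ =>
      rw [List.cons_lt_cons_iff, ← ih, List.length_cons, Nat.exists_lt_succ_left]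
      simp [and_assoc, and_left_comm]

@[fun_prop] theorem comp_ltb {ρ θ : α → List ℕ} (h1 : Computable ρ) (h2 : Computable θ) :
    Computable fun a => ltb (ρ a) (θ a) := by
  unfold ltb
  fun_prop

/-- active levels -/
def actb (σ : List ℕ) (l : ℕ) : Bool :=
  l % 2 == 0 && decide (l < 2 * nf σ) && !σ.contains l && (nf σ % 4 == 1 || nf σ % 4 == 2)

theorem actb_iff {σ : List ℕ} {l : ℕ} : actb σ l = true ↔ Act σ l := by
  simp [actb, Act, and_assoc]

@[fun_prop] theorem comp_actb {σ : α → List ℕ} {l : α → ℕ} (h1 : Computable σ)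
    (h2 : Computable l) : Computable fun a => actb (σ a) (l a) := by
  unfold actb
  fun_prop

/-- codes of the kinds of events -/
def Kd.of (k : ℕ) : Kd :=
  if k = 0 then .K else if k = 1 then .F else if k = 2 then .C else if k = 3 then .S else .T

/-- the last entry of the threshold -/
def thb (k o : ℕ) : ℕ := if k = 0 then 0 else if k = 3 then 0 else if k < 3 then o + 1 else o

theorem thb_eq (k o : ℕ) : thb k o = (Kd.of k).th o := by
  rcases k with _ | _ | _ | _ | k <;> simp [thb, Kd.of, Kd.th]

theorem of_K {k : ℕ} : Kd.of k = .K ↔ k = 0 := by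
  rcases k with _ | _ | _ | _ | k <;> simp [Kd.of]

theorem of_C {k : ℕ} : Kd.of k = .C ↔ k = 2 := by
  rcases k with _ | _ | _ | _ | k <;> simp [Kd.of]

theorem of_S {k : ℕ} : Kd.of k = .S ↔ k = 3 := by
  rcases k with _ | _ | _ | _ | k <;> simp [Kd.of]

theorem of_T {k : ℕ} : Kd.of k = .T ↔ 3 < k := by
  rcases k with _ | _ | _ | _ | k <;> simp [Kd.of]

@[fun_prop] theorem comp_thb {k o : α → ℕ} (h1 : Computable k) (h2 : Computable o) :
    Computable fun a => thb (k a) (o a) := by
  unfold thb
  fun_prop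

/-- events -/
abbrev Ev := List ℕ × ℕ × ℕ × ℕ

/-- the new records -/
def updb (e : Ev) (ρ : List ℕ) (o : ℕ) (v : Option ℕ) : Option ℕ :=
  bif !ltb ρ (e.1 ++ [thb e.2.1 e.2.2.1]) then none
  else bif e.2.1 == 0 then
    bif ρ == e.1 then (bif o == fin e.1 || actb e.1 o then some (e.2.2.2 + 1) else none)
    else v.map fun s => if s = 0 then e.2.2.2 + 1 else s
  else bif (e.2.1 == 2 || decide (3 < e.2.1)) && ρ == e.1 && o == e.2.2.1 then some 0 else v

theorem updb_eq (σ : List ℕ) (k o r : ℕ) (ρ : List ℕ) (o' : ℕ) (v : Option ℕ) :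
    updb (σ, k, o, r) ρ o' v = updL σ (Kd.of k) o r ρ o' v := by
  cases h : ltb ρ (σ ++ [(Kd.of k).th o]) <;>
    simp [updb, updL, thb_eq, ← ltb_iff, ← actb_iff, of_K, of_C, of_T, and_assoc, cond_eq_ite, h]

@[fun_prop] theorem comp_updb {e : α → Ev} {ρ : α → List ℕ} {o : α → ℕ} {v : α → Option ℕ}
    (h1 : Computable e) (h2 : Computable ρ) (h3 : Computable o) (h4 : Computable v) :
    Computable fun a => updb (e a) (ρ a) (o a) (v a) := by
  unfold updb
  fun_prop

/-- concrete states: node, phase, stage, events, numbers, checkpoints, targets, used numbers -/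
abbrev I := (List ℕ × Option ℕ × ℕ) × List Ev × List ℕ × List ℕ × List ℕ × List ℕ

/-- the records -/
def Lb (s : I) (ρ : List ℕ) (o : ℕ) : Option ℕ := s.2.1.foldl (fun v e => updb e ρ o v) none

@[fun_prop] theorem comp_Lb {s : α → I} {ρ : α → List ℕ} {o : α → ℕ} (h1 : Computable s)
    (h2 : Computable ρ) (h3 : Computable o) : Computable fun a => Lb (s a) (ρ a) (o a) := by
  unfold Lb
  fun_prop

/-- the abstract state -/
def toSt (s : I) : St := ⟨s.1.1, s.1.2.1, s.1.2.2, Lb s, {z | z ∈ s.2.2.1}⟩

/-- a computation is seen -/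
def seeb (s : I) : Bool :=
  (List.range (s.1.2.2 + 1)).any fun n => phi (nf s.1.1 / 4) (seg (orc s.2.2.2.2.1.contains
    s.2.2.1.contains s.2.2.2.2.2.contains ((nf s.1.1 + 1) % 4)) n)
      (num ((Lb s s.1.1 (fin s.1.1)).getD 0) s.1.1 (fin s.1.1)) == some false

@[fun_prop] theorem comp_seeb {s : α → I} (h : Computable s) :
    Computable fun a => seeb (s a) := by
  unfold seeb orc low
  fun_prop

/-- the current node attacks -/
def gob (s : I) : Bool :=
  s.1.2.1.isSome || ((Lb s s.1.1 (fin s.1.1)).isSome &&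
    !s.2.2.1.contains (num ((Lb s s.1.1 (fin s.1.1)).getD 0) s.1.1 (fin s.1.1)) && seeb s)

/-- the next level -/
def topb (s : I) : Option ℕ := (List.range (s.1.2.1.getD (fin s.1.1))).reverse.find? (actb s.1.1)

/-- the kind of the ordinary event -/
def kdb (s : I) : ℕ :=
  bif gob s then (bif (topb s).isSome then 2 else 3)
  else bif (Lb s s.1.1 (fin s.1.1)).isSome then 1 else 0

/-- the outcome of the ordinary event -/
def oub (s : I) : ℕ := bif gob s then (topb s).getD (fin s.1.1) else fin s.1.1

@[fun_prop] theorem comp_kdb {s : α → I} (h : Computable s) : Computable fun a => kdb (s a) := by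
  unfold kdb gob topb
  fun_prop

@[fun_prop] theorem comp_oub {s : α → I} (h : Computable s) : Computable fun a => oub (s a) := by
  unfold oub gob topb
  fun_prop

theorem gob_iff (s : I) : gob s = true ↔ (toSt s).Go (seeb s = true) := by
  simp only [gob, Go, toSt, mem_ofPred_eq]
  cases Lb s s.1.1 (fin s.1.1) <;> simp [Option.isSome_iff_ne_none]

theorem find_rev (p : ℕ → Bool) (b : ℕ) :
    (∀ l, (List.range b).reverse.find? p = some l →
      p l = true ∧ l < b ∧ ∀ l', p l' = true → l' < b → l' ≤ l) ∧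
    ((List.range b).reverse.find? p = none → ∀ l, p l = true → b ≤ l) := by
  induction b with
  | zero => simp
  | succ b ih =>
    rw [List.range_succ, List.reverse_append, List.reverse_singleton, List.singleton_append,
      List.find?_cons]
    cases h : p b
    · refine ⟨fun l hl => ?_, fun h1 l h2 => lt_of_le_of_ne (ih.2 h1 l h2) ?_⟩
      · obtain ⟨a1, a2, a3⟩ := ih.1 l hl
        refine ⟨a1, by omega, fun l' b1 b2 => a3 l' b1 (lt_of_le_of_ne (by omega) ?_)⟩
        rintro rfl
        simp [h] at b1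
      · rintro rfl
        simp [h] at h2
    · simpa [h] using fun l' _ h => h

theorem ok_kdb (s : I) : (toSt s).Ok (seeb s = true) (Kd.of (kdb s)) (oub s) := by
  have key := find_rev (actb s.1.1) (s.1.2.1.getD (fin s.1.1))
  simp only [actb_iff] at key
  unfold kdb oub
  cases hg : gob s
  · have h1 := (gob_iff s).not.1 (by simp [hg])
    simp only [Go, not_or, not_not, not_exists, not_and] at h1
    cases h : Lb s s.1.1 (fin s.1.1) with
    | none => exact .K h1.1 h
    | some x => exact .F x h1.1 h (or_iff_not_imp_left.2 (h1.2 x h))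
  · cases h : topb s with
    | none => exact .S ((gob_iff s).1 hg) (key.2 h)
    | some l => exact .C l ((gob_iff s).1 hg) (key.1 l h)

theorem kdb_le (s : I) : kdb s ≤ 3 := by
  unfold kdb
  cases gob s <;> cases (topb s).isSome <;> cases (Lb s s.1.1 (fin s.1.1)).isSome <;> simp

/-- a change below the use -/
def chgb (s : I) (c r : ℕ) : Bool :=
  (List.range ((Lb s s.1.1 (oub s)).getD 0)).any fun n =>
    We (oub s / 2) n r != We (oub s / 2) n c

/-- the target of the travel -/
def trvb (h : ℕ → I) (r : ℕ) : Option ℕ := (h r).2.2.2.1.find? fun c => chgb (h c) c r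

/-- the kind of the event -/
def ekb (h : ℕ → I) (r : ℕ) : ℕ := bif (trvb h r).isSome then 4 else kdb (h r)

/-- the numbers enumerated -/
def enb (s : I) (k : ℕ) : List ℕ :=
  bif (k == 2 || k == 3) && (Lb s s.1.1 (oub s)).isSome then
    [num ((Lb s s.1.1 (oub s)).getD 0) s.1.1 (oub s)] else []

/-- the next state -/
def nxb (h : ℕ → I) (r c k : ℕ) : I :=
  ((if k = 0 then [] else if 3 < k then (h c).1.1 else (h c).1.1 ++ [oub (h c)],
    if 3 < k then some (oub (h c)) else none, if k = 0 then r + 1 else (h c).1.2.2),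
    (h c).2.1 ++ [((h c).1.1, k, oub (h c), r)], (h c).2.2.1 ++ enb (h c) k,
    ((h c).2.2.2.1.filter fun d => ltb ((h d).1.1 ++ [oub (h d)])
      ((h c).1.1 ++ [thb k (oub (h c))])) ++ (if k = 2 then [r] else []),
    (h r).2.2.2.2.1 ++ (if 3 < k then [c] else []), (h r).2.2.2.2.2 ++ enb (h c) k)

/-- the initial state -/
def i0 : I := (([], none, 0), [], [], [], [], [])

theorem mem_enb {s : I} {k z : ℕ} : z ∈ enb s k ↔ (toSt s).Enu (Kd.of k) (oub s) z := by
  simp only [enb, Enu, of_C, of_S, toSt]
  cases Lb s s.1.1 (oub s) <;> by_cases h : k = 2 ∨ k = 3 <;> simp [h, cond_eq_ite]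

theorem toSt_nxb (h : ℕ → I) (r c k : ℕ) :
    toSt (nxb h r c k) = (toSt (h c)).upd (Kd.of k) (oub (h c)) r := by
  simp only [toSt, nxb, upd, of_K, of_T, St.mk.injEq, true_and]
  refine ⟨funext₂ fun ρ o => by simp [Lb, updb_eq], Set.ext fun z => ?_⟩
  simp only [List.mem_append, mem_enb, toSt, mem_union, mem_ofPred_eq]

theorem exists_seq : ∃ u : ℕ → I, Computable u ∧ Computable (trvb u) ∧ u 0 = i0 ∧
    ∀ r, u (r + 1) = nxb u r ((trvb u r).getD r) (ekb u r) := by
  have c1 : Computable fun p : ℕ × List I => trvb (fun i => p.2.getD i i0) p.1 := by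
    unfold trvb chgb
    fun_prop
  have c2 : Computable fun p : (ℕ × List I) × ℕ × ℕ =>
      nxb (fun i => p.1.2.getD i i0) p.1.1 p.2.1 p.2.2 := by
    unfold nxb enb
    fun_prop
  obtain ⟨u, h1, h2⟩ := CFP.exists_strongRec (σ := I) (fun n l => if n = 0 then i0 else
    nxb (fun i => l.getD i i0) (n - 1) ((trvb (fun i => l.getD i i0) (n - 1)).getD (n - 1))
      (ekb (fun i => l.getD i i0) (n - 1))) (by
    have c3 := CFP.comp (g := fun p : ℕ × List I => (p.1 - 1, p.2)) c1 (by fun_prop)
    refine CFP.ite (by fun_prop) (by fun_prop) (CFP.comp (g := fun p : ℕ × List I =>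
      ((p.1 - 1, p.2), (trvb (fun i => p.2.getD i i0) (p.1 - 1)).getD (p.1 - 1),
        ekb (fun i => p.2.getD i i0) (p.1 - 1))) c2 ?_)
    unfold ekb
    exact CFP.prodMk (by fun_prop) (CFP.prodMk (CFP.optGetD c3 (by fun_prop))
      (CFP.cond (CFP.isSome c3) (by fun_prop) (by fun_prop))))
  have h3 : ∀ r i, i ≤ r → ((List.range (r + 1)).map u).getD i i0 = u i := fun r i hi => by
    simp [List.getD_eq_getElem?_getD, Nat.lt_succ_of_le hi]
  have h4 : ∀ n, (∀ c ∈ (u n).2.2.2.1, c < n) ∧
      ∀ r, n = r + 1 → u n = nxb u r ((trvb u r).getD r) (ekb u r) := fun n => by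
    induction n using Nat.strong_induction_on with
    | _ n ih =>
    cases n with
    | zero => simp [h2 0, i0]
    | succ r =>
      have a1 : trvb (fun i => ((List.range (r + 1)).map u).getD i i0) r = trvb u r := by
        simp only [trvb, h3 r r le_rfl]
        exact List.find?_congr fun c hc => by rw [h3 r c ((ih r r.lt_succ_self).1 c hc).le]
      have a2 : (trvb u r).getD r ≤ r := by
        cases h : trvb u r with
        | none => rfl
        | some c => exact ((ih r r.lt_succ_self).1 c (List.mem_of_find?_eq_some h)).le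
      have a3 := (ih _ (Nat.lt_succ_of_le a2)).1
      have a4 : u (r + 1) = nxb u r ((trvb u r).getD r) (ekb u r) := by
        rw [h2]
        simp only [Nat.succ_ne_zero, if_false, Nat.add_sub_cancel, ekb, a1, nxb, h3 r r le_rfl,
          h3 r _ a2]
        rw [List.filter_congr fun d hd => by rw [h3 r d ((a3 d hd).le.trans a2)]]
        rfl
      refine ⟨fun c hc => ?_, fun r' e => Nat.succ.inj e ▸ a4⟩
      simp only [a4, nxb, List.mem_append, List.mem_filter] at hc
      rcases hc with hc | hc
      · have := a3 c hc.1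
        omega
      · split_ifs at hc <;> simp_all
  refine ⟨u, h1, ?_, by simp [h2 0], fun r => (h4 _).2 r rfl⟩
  unfold trvb chgb
  fun_prop

end

theorem exists_crun : Nonempty CRun := by
  obtain ⟨u, h1, h2, h3, h4⟩ := exists_seq
  have e1 : ∀ r, Kd.of (ekb u r) = .T ↔ (trvb u r).isSome = true := fun r => by
    have := kdb_le (u r)
    rw [of_T, ekb]
    cases (trvb u r).isSome <;> simp [this]
  have e2 : ∀ c r, chgb (u c) c r = true ↔ Chg We (fun r => toSt (u r)) (fun r => oub (u r)) c r :=
    fun c r => by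
      simp only [chgb, Chg, toSt]
      cases Lb (u c) (u c).1.1 (oub (u c)) <;> simp
  let R : Run := {
    W := We
    S r := toSt (u r)
    see r := seeb (u r) = true
    base r := (trvb u r).getD r
    ek r := Kd.of (ekb u r)
    ou r := oub (u r)
    Ck r c := c ∈ (u r).2.2.2.1
    S0 := by simp [h3, toSt, i0, init, funext_iff, Lb]
    step r := by rw [h4, toSt_nxb]
    ok r h := by simpa [ekb, (e1 r).not.1 h] using ok_kdb (u r)
    Ck0 := by simp [h3, i0]
    Ck_succ r c := by simp [h4, nxb, ltb_iff, thb_eq, toSt, thr, of_C]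
    ord r h := by
      have := Option.not_isSome_iff_eq_none.1 ((e1 r).not.1 h)
      exact ⟨by simp [this], fun c hc => (e2 c r).not.1 (List.find?_eq_none.1 this c hc)⟩
    trv r h := by
      obtain ⟨c, hc⟩ := Option.isSome_iff_exists.1 ((e1 r).1 h)
      rw [hc]
      exact ⟨List.mem_of_find?_eq_some hc, (e2 c r).1
        (List.find?_some (p := fun c => chgb (u c) c r) hc)⟩ }
  refine ⟨{
    R with
    Ab' r := (u r).2.2.2.2.1.contains
    Xb r := (u r).2.2.1.contains
    Eb r := (u r).2.2.2.2.2.contains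
    W_eq := rfl
    Ab_iff r c := ?_
    Xb_iff r z := by simp [R, toSt]
    Eb_iff r z := ?_
    see_iff r := by simp [R, seeb, See, toSt, Nat.lt_succ_iff]
    cA := by fun_prop
    cX := by fun_prop
    cE := by fun_prop
    cL := by simp only [R, toSt]; fun_prop
    cC := by simp only [R, of_C, ekb]; fun_prop
    ccur := by simp only [R, toSt]; fun_prop
    cou := by simp only [R]; fun_prop }⟩
  · induction r with
    | zero => simp [h3, i0, Run.Ab]
    | succ r ih =>
      simp only [Run.Ab, Nat.exists_lt_succ_right, R, of_T] at ih ⊢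
      rw [← ih, h4]
      simp only [nxb, List.contains_iff_mem, List.mem_append]
      refine or_congr_right ?_
      split_ifs with h
      exacts [by simpa [h] using eq_comm, by simp [h]]
  · induction r with
    | zero => simp [h3, i0]
    | succ r ih =>
      rw [Nat.exists_lt_succ_right, ← ih, h4]
      simp only [nxb, List.contains_iff_mem, List.mem_append, mem_enb]
      refine or_congr_right ?_
      by_cases hT : R.ek r = .T
      · have : Kd.of (ekb u r) = .T := hT
        simp [Run.En, Enu, hT, this]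
      · rw [show (trvb u r).getD r = r from Run.base_eq hT]
        rfl

end Pool.Agent.P.MP_1a00c7_lc.B
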