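import Pool.Agent.P.MP_1a00c7_lc.BTree

/-!
The true path of a run without time travel.
-/

namespace Pool.Agent.P.MP_1a00c7_lc.B

open Set Filter St

/-- linear runs -/
structure Lin where
  U : ℕ → St
  κ : ℕ → Kd
  o : ℕ → ℕ
  t : ℕ → ℕ
  r : ℕ → ℕ
  see : ℕ → Prop
  U0 : U 0 = init
  inv : ∀ i, (U i).Inv (t i)
  ok : ∀ i, (U i).Ok (see i) (κ i) (o i)
  step : ∀ i, U (i + 1) = (U i).upd (κ i) (o i) (r i)
  le : ∀ i, t i ≤ r i
  succ : ∀ i, t (i + 1) = r i + 1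

namespace Lin

variable (M : Lin)

/-- the threshold -/
def thr (i : ℕ) : List ℕ := (M.U i).thr (M.κ i) (M.o i)

/-- the marker is treated -/
def Hd (i : ℕ) (ρ : List ℕ) (l : ℕ) : Prop :=
  (M.κ i = .C ∨ M.κ i = .T) ∧ ρ = (M.U i).cur ∧ l = M.o i

/-- arrivals -/
def Arr (ν : List ℕ) (i : ℕ) : Prop := (M.U i).cur = ν ∧ (M.U i).ph = none

/-- nodes on the true path -/
def TP (ν : List ℕ) : Prop := (∃ᶠ i in atTop, M.Arr ν i) ∧ ∀ᶠ i in atTop, ν < M.thr i

/-- the final set -/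
def Xf : Set ℕ := {z | ∃ i, z ∈ (M.U i).X}

theorem t_mono : StrictMono M.t :=
  strictMono_nat_of_lt_succ fun i => M.succ i ▸ Nat.lt_succ_of_le (M.le i)

variable {M}

theorem mem_X {i z : ℕ} :
    z ∈ (M.U (i + 1)).X ↔ z ∈ (M.U i).X ∨ (M.U i).Enu (M.κ i) (M.o i) z := by
  rw [M.step]
  rfl

theorem X_mono : Monotone fun i => (M.U i).X :=
  monotone_nat_of_le_succ fun _ _ h => mem_X.2 (Or.inl h)

theorem exists_enu {z i : ℕ} (h : z ∈ M.Xf) (h' : z ∉ (M.U i).X) :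
    ∃ k, i ≤ k ∧ (M.U k).Enu (M.κ k) (M.o k) z := by
  obtain ⟨j, hj⟩ := h
  induction j with
  | zero => exact absurd (X_mono (Nat.zero_le i) hj) h'
  | succ j ih =>
    refine (mem_X.1 hj).elim ih fun h => ⟨j, not_lt.1 fun hc => h' (X_mono hc hj), h⟩

theorem cur_succ {i : ℕ} (h1 : M.κ i ≠ .K) (h2 : M.κ i ≠ .T) :
    M.Arr ((M.U i).cur ++ [M.o i]) (i + 1) := by
  simp [Arr, M.step, upd, h1, h2]

theorem arr_succ {i o : ℕ} {σ : List ℕ} (h : M.Arr (σ ++ [o]) (i + 1)) :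
    M.κ i ≠ .K ∧ M.κ i ≠ .T ∧ (M.U i).cur = σ ∧ M.o i = o := by
  simp only [Arr, M.step, upd] at h
  have h1 : M.κ i ≠ .K := fun h' => by simp [h'] at h
  have h2 : M.κ i ≠ .T := fun h' => by simp [h'] at h
  simpa [h1, h2] using h

theorem old {i j s o : ℕ} {ρ : List ℕ} (hj : i ≤ j) (h : (M.U j).L ρ o = some s) (h0 : 0 < s)
    (h1 : s ≤ M.t i) : (M.U i).L ρ o = some s ∧ ∀ k, i ≤ k → k < j → ρ < M.thr k := by
  induction j, hj using Nat.le_induction with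
  | base => exact ⟨h, fun k a b => absurd a b.not_ge⟩
  | succ j hj ih =>
    obtain ⟨a1, a2, -⟩ := upd_L_old (M.step j ▸ h) h0
      (h1.trans ((M.t_mono.monotone hj).trans (M.le j)))
    refine ⟨(ih a1).1, fun k b1 b2 => ?_⟩
    rcases (Nat.le_of_lt_succ b2).eq_or_lt with rfl | b2
    exacts [a2, (ih a1).2 k b1 b2]

theorem keep {i j s o : ℕ} {ρ : List ℕ} (hj : i ≤ j) (h : (M.U i).L ρ o = some s) (h0 : 0 < s)
    (h1 : ∀ k, i ≤ k → k < j → ρ < M.thr k ∧ ((M.U k).L ρ o = some s → ¬ M.Hd k ρ o)) :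
    (M.U j).L ρ o = some s := by
  induction j, hj using Nat.le_induction with
  | base => exact h
  | succ j hj ih =>
    have := ih fun k a b => h1 k a (by omega)
    exact M.step j ▸ upd_L_keep (M.ok j) (M.inv j) this h0 (h1 j hj j.lt_succ_self).1
      ((h1 j hj j.lt_succ_self).2 this)

theorem not_hd (k : ℕ) (ρ : List ℕ) : ¬ M.Hd k ρ (fin ρ) := fun h =>
  ((M.ok k).top h.1).2.1.lt.ne' (h.2.1 ▸ h.2.2)

theorem keep_ne {i j o : ℕ} {ρ : List ℕ} (hj : i ≤ j) (h : (M.U i).L ρ o ≠ none)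
    (h1 : ∀ k, i ≤ k → ρ < M.thr k) : (M.U j).L ρ o ≠ none := by
  induction j, hj using Nat.le_induction with
  | base => exact h
  | succ j hj ih =>
    rw [M.step, upd_L_ne (M.ok j) (M.inv j)]
    refine ⟨h1 j hj, ?_⟩
    split_ifs
    exacts [(((M.inv j).rcd _ _).1 ih).2, ih]

theorem endT (i : ℕ) : ∃ j, i ≤ j ∧ M.κ j ≠ .T ∧ (M.U j).cur = (M.U i).cur ∧
    (M.U j).bnd ≤ (M.U i).bnd ∧ ((M.U i).ph ≠ none → (M.U j).ph ≠ none) := by
  induction h : (M.U i).bnd using Nat.strong_induction_on generalizing i with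
  | _ b ih =>
  by_cases hT : M.κ i = .T
  · have h1 := ((M.ok i).top (Or.inr hT)).2.2.1
    have h2 : (M.U (i + 1)).bnd = M.o i := by simp [M.step, upd, hT, bnd]
    obtain ⟨j, a1, a2, a3, a4, a5⟩ := ih _ (h ▸ h1) (i + 1) h2
    exact ⟨j, by omega, a2, by simp [a3, M.step, upd, hT], by omega,
      fun _ => a5 (by simp [M.step, upd, hT])⟩
  · exact ⟨i, le_rfl, hT, rfl, h.le, id⟩

theorem freqK : ∃ᶠ i in atTop, M.κ i = .K := by
  by_contra hc
  obtain ⟨i0, h0⟩ := eventually_atTop.1 (not_frequently.1 hc)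
  obtain ⟨b, hb⟩ := ((M.inv i0).fin.image List.length).bddAbove
  have h1 : ∀ i, i0 ≤ i → ∀ ρ, (M.U i).L ρ (fin ρ) ≠ none → (M.U i0).L ρ (fin ρ) ≠ none := by
    intro i hi
    induction i, hi using Nat.le_induction with
    | base => exact fun _ => id
    | succ i hi ih =>
      intro ρ h
      rw [M.step, upd_L_ne (M.ok i) (M.inv i), if_neg (by simp [h0 i hi])] at h
      exact ih ρ h.2
  have h2 : ∀ n, ∃ i, i0 ≤ i ∧ n ≤ (M.U i).cur.length := fun n => by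
    induction n with
    | zero => exact ⟨i0, le_rfl, Nat.zero_le _⟩
    | succ n ih =>
      obtain ⟨i, a1, a2⟩ := ih
      obtain ⟨j, b1, b2, b3, -⟩ := endT (M := M) i
      exact ⟨j + 1, by omega, by simp [(cur_succ (h0 j (by omega)) b2).1, b3, a2]⟩
  obtain ⟨i, a1, a2⟩ := h2 (b + 1)
  have := hb (mem_image_of_mem _ (h1 i a1 _ ((M.ok i).wit (M.inv i) (h0 i a1))))
  omega

theorem arr_K {i : ℕ} (h : M.κ i = .K) : M.Arr [] (i + 1) := by simp [Arr, M.step, upd, h]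

theorem arr_of_vis {ν : List ℕ} (h : ∃ᶠ i in atTop, ν <+: (M.U i).cur) :
    ∃ᶠ i in atTop, M.Arr ν i := frequently_atTop.2 fun i0 => by
  obtain ⟨j, a1, a2⟩ := frequently_atTop.1 (freqK (M := M)) i0
  obtain ⟨i, b1, b2⟩ := frequently_atTop.1 h (j + 1)
  induction i, b1 using Nat.le_induction with
  | base => exact ⟨j + 1, by omega, (List.prefix_nil.1 ((arr_K a2).1 ▸ b2)).symm ▸ arr_K a2⟩
  | succ i hi ih =>
    by_cases hK : M.κ i = .K
    · exact ⟨i + 1, by omega, (List.prefix_nil.1 ((arr_K hK).1 ▸ b2)).symm ▸ arr_K hK⟩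
    by_cases hT : M.κ i = .T
    · exact ih (by simpa [M.step, upd, hT] using b2)
    rcases List.prefix_concat_iff.1 ((cur_succ hK hT).1 ▸ b2) with h1 | h1
    exacts [⟨i + 1, by omega, h1 ▸ cur_succ hK hT⟩, ih h1]

theorem tp_nil : M.TP [] :=
  ⟨arr_of_vis (.of_forall fun _ => List.nil_prefix),
    .of_forall fun _ => (pre_le List.nil_prefix).trans_lt (cur_lt_thr _ _ _)⟩

theorem TP.wit {σ : List ℕ} (h : M.TP σ) :
    ∃ x, 0 < x ∧ ∀ᶠ i in atTop, (M.U i).L σ (fin σ) = some x := by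
  obtain ⟨i0, h0⟩ := eventually_atTop.1 h.2
  obtain ⟨i, a1, rfl, -⟩ := frequently_atTop.1 h.1 i0
  have : (M.U (i + 1)).L (M.U i).cur (fin (M.U i).cur) ≠ none := by
    rw [M.step, upd_L_ne (M.ok i) (M.inv i)]
    refine ⟨cur_lt_thr _ _ _, ?_⟩
    split_ifs with h1
    exacts [Or.inl rfl, (M.ok i).wit (M.inv i) fun h2 => h1 ⟨h2, rfl⟩]
  obtain ⟨x, hx⟩ := Option.ne_none_iff_exists'.1 this
  have h1 : 0 < x := Nat.pos_of_ne_zero fun h => ((M.inv _).m1 _ _ (h ▸ hx)).1 rfl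
  exact ⟨x, h1, eventually_atTop.2 ⟨i + 1, fun j hj =>
    keep hj hx h1 fun k b _ => ⟨h0 k (by omega), fun _ => not_hd _ _⟩⟩⟩

theorem stop {i x : ℕ} (h : M.κ i = .S) (h' : (M.U i).L (M.U i).cur (fin (M.U i).cur) = some x) :
    M.o i = fin (M.U i).cur ∧ (M.U i).Go (M.see i) ∧ (∀ l, Act (M.U i).cur l → (M.U i).bnd ≤ l) ∧
      num x (M.U i).cur (fin (M.U i).cur) ∉ (M.U i).X ∧
      num x (M.U i).cur (fin (M.U i).cur) ∈ (M.U (i + 1)).X := by
  have hok := M.ok i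
  rw [mem_X, h]
  rw [h] at hok
  generalize M.o i = o at hok
  cases hok with
  | S h1 h2 =>
    obtain ⟨y, h3, h4⟩ := (M.inv i).go h1
    obtain rfl : x = y := by simpa [h'] using h3
    exact ⟨rfl, h1, h2, h4, Or.inr ⟨Or.inr rfl, x, h', rfl⟩⟩

theorem TP.quiet {σ : List ℕ} (h : M.TP σ) :
    ∀ᶠ i in atTop, (M.U i).cur = σ → M.κ i ≠ .K ∧ M.κ i ≠ .S := by
  obtain ⟨x, -, hx⟩ := h.wit
  have h1 : ∀ᶠ i in atTop, num x σ (fin σ) ∈ M.Xf → num x σ (fin σ) ∈ (M.U i).X := by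
    by_cases hz : num x σ (fin σ) ∈ M.Xf
    · obtain ⟨j, hj⟩ := hz
      exact (eventually_ge_atTop j).mono fun i hi _ => X_mono hi hj
    · exact .of_forall fun _ h => absurd h hz
  filter_upwards [hx, h1]
  rintro i a1 a2 rfl
  refine ⟨fun hK => ?_, fun hS => (stop hS a1).2.2.2.1 (a2 ⟨_, (stop hS a1).2.2.2.2⟩)⟩
  have := M.ok i
  rw [hK] at this
  generalize M.o i = o at this
  cases this with
  | K _ h => simp [h] at a1

theorem TP.succ {σ : List ℕ} (h : M.TP σ) :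
    ∃ o, M.TP (σ ++ [o]) ∧ (o = fin σ ∨ Act σ o) := by
  classical
  obtain ⟨i3, h3⟩ := eventually_atTop.1 (h.quiet.and h.2)
  have hex : ∃ o, ∃ᶠ i in atTop, M.Arr (σ ++ [o]) i := by
    by_contra hc
    simp only [not_exists, not_frequently] at hc
    obtain ⟨i4, h4⟩ := eventually_atTop.1
      ((eventually_all_finite (finite_Iic (fin σ))).2 fun o _ => hc o)
    obtain ⟨i, a1, rfl, -⟩ := frequently_atTop.1 h.1 (i3 + i4)
    obtain ⟨j, b1, b2, b3, -⟩ := endT (M := M) i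
    refine h4 (j + 1) (by omega) (M.o j) ?_ (b3 ▸ cur_succ ((h3 j (by omega)).1 b3).1 b2)
    exact b3 ▸ (M.ok j).out.elim le_of_eq fun h => h.lt.le
  obtain ⟨m, m1, m2⟩ : ∃ m, (∃ᶠ i in atTop, M.Arr (σ ++ [m]) i) ∧
      ∀ o < m, ¬ ∃ᶠ i in atTop, M.Arr (σ ++ [o]) i :=
    ⟨_, Nat.find_spec hex, fun _ => Nat.find_min hex⟩
  refine ⟨m, ⟨m1, ?_⟩, ?_⟩
  swap
  · obtain ⟨i, h1, -⟩ := m1.exists
    exact ((M.inv i).val _ _ (h1 ▸ List.prefix_rfl)).1
  obtain ⟨i4, h4⟩ := eventually_atTop.1 ((eventually_all_finite (finite_Iio m)).2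
    fun o ho => not_frequently.1 fun h => m2 o ho (arr_of_vis h))
  refine eventually_atTop.2 ⟨i3 + i4, fun i hi => not_le.1 fun hc => ?_⟩
  have a1 := (h3 i (by omega)).2
  have a2 : (M.U i).cur = σ := by
    rcases le_total (M.U i).cur σ with h5 | h5
    · rcases between h5 a1 with h6 | ⟨o, h6, h7⟩
      exacts [h6, absurd (lt_of_pre (h7.trans (List.prefix_append _ _)) h6) hc.not_gt]
    · rcases between h5 ((cur_lt_thr _ _ _).trans_le hc) with h6 | ⟨o, h6, h7⟩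
      exacts [h6.symm, absurd h7 (h4 i (by omega) o h6)]
  have a3 : (M.κ i).th (M.o i) ≤ m := not_lt.1 fun h5 =>
    hc.not_gt (lt_of_pre (a2 ▸ List.prefix_rfl) h5)
  have a4 := (h3 i (by omega)).1 a2
  have key : ∀ j, i3 + i4 ≤ j → (M.U j).cur = σ → M.κ j ≠ .T → ¬ M.o j < m :=
    fun j b1 b2 b3 b4 => h4 (j + 1) (by omega) _ b4 (by
      rw [(cur_succ ((h3 j (by omega)).1 b2).1 b3).1, b2])
  by_cases hT : M.κ i = .T
  · obtain ⟨j, b1, b2, b3, b4, b5⟩ := endT (M := M) (i + 1)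
    have b6 : (M.U j).cur = σ := by simp [b3, M.step, upd, hT, a2]
    have b7 := (h3 j (by omega)).1 b6
    refine key j (by omega) b6 b2 ?_
    have b8 : (M.U (i + 1)).bnd = M.o i := by simp [M.step, upd, hT, bnd]
    have b9 := b5 (by simp [M.step, upd, hT])
    have := M.ok j
    generalize M.o j = o, M.κ j = κ at this b2 b7
    cases this with
    | C l _ h => exact h.2.1.trans_le (b4.trans (by simpa [b8, hT, Kd.th] using a3))
    | F _ h => exact absurd h b9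
    | _ => simp at b2 b7
  · refine key i hi a2 hT ?_
    revert a3 a4 hT
    cases M.κ i <;> simp [Kd.th]

end Lin

/-- the true path -/
structure Lin.Path (M : Lin) where
  f : ℕ → List ℕ
  g : ℕ → ℕ
  f0 : f 0 = []
  succ : ∀ n, f (n + 1) = f n ++ [g n]
  tp : ∀ n, M.TP (f n)
  out : ∀ n, g n = fin (f n) ∨ Act (f n) (g n)

theorem Lin.exists_path (M : Lin) : Nonempty M.Path := by
  choose nx h1 h2 using fun σ : {σ // M.TP σ} => σ.2.succ
  let f : ℕ → {σ // M.TP σ} := fun n => Nat.rec ⟨[], Lin.tp_nil⟩ (fun _ σ => ⟨_, h1 σ⟩) n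
  exact ⟨⟨fun n => (f n).1, fun n => nx (f n), rfl, fun _ => rfl, fun n => (f n).2,
    fun n => h2 _⟩⟩

namespace Lin.Path

variable {M : Lin} (P : M.Path)

theorem length (n : ℕ) : (P.f n).length = n := by
  induction n with
  | zero => simp [P.f0]
  | succ n ih => simp [P.succ, ih]

theorem pre {m n : ℕ} (h : m ≤ n) : P.f m <+: P.f n := by
  induction n, h using Nat.le_induction with
  | base => rfl
  | succ n _ ih => exact P.succ n ▸ ih.trans (List.prefix_append _ _)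

theorem nf_succ (n : ℕ) :
    nf (P.f (n + 1)) = nf (P.f n) + if P.g n = fin (P.f n) then 1 else 0 := by
  rw [P.succ, nf, List.countP_append]
  rcases P.out n with h | h
  · have : fin (P.f n) % 2 = 1 := by unfold fin; omega
    simp [h, nf, this]
  · simp [h.lt.ne, nf, h.1]

theorem fin_act (l : ℕ) : {n | Act (P.f n) (P.g n) ∧ P.g n ≤ l}.Finite := by
  have key : ∀ m n, m < n → Act (P.f n) (P.g n) → P.g m ≠ P.g n := fun m n h h' e =>
    h'.2.2.1 ((P.pre h).subset (by simp [P.succ, e]))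
  refine Finite.of_finite_image ((finite_Iic l).subset (image_subset_iff.2 fun n h => h.2))
    fun m hm n hn e => ?_
  rcases lt_trichotomy m n with h | h | h
  exacts [absurd e (key m n h hn.1), h, absurd e.symm (key n m h hm.1)]

theorem next_fin (n : ℕ) : ∃ m, P.g m = fin (P.f m) ∧ nf (P.f m) = nf (P.f n) := by
  by_contra hc
  simp only [not_exists, not_and] at hc
  have h1 : ∀ m, n ≤ m → nf (P.f m) = nf (P.f n) := fun m hm => by
    induction m, hm using Nat.le_induction with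
    | base => rfl
    | succ m _ ih => rw [P.nf_succ, if_neg fun h => hc m h ih, ih, add_zero]
  refine (Ici_infinite n).mono (fun m hm => ?_) (P.fin_act (2 * nf (P.f n)))
  have := (P.out m).resolve_left fun h => hc m h (h1 m hm)
  exact ⟨this, h1 m hm ▸ this.2.1.le⟩

theorem exists_fin (p : ℕ) : ∃ m, P.g m = fin (P.f m) ∧ nf (P.f m) = p := by
  induction p with
  | zero => simpa [P.f0, nf] using P.next_fin 0
  | succ p ih =>
    obtain ⟨m, h1, h2⟩ := ih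
    simpa [P.nf_succ, h1, h2] using P.next_fin (m + 1)

theorem big (l : ℕ) : ∀ᶠ n in atTop, l < P.g n ∧ l < 2 * nf (P.f n) := by
  obtain ⟨m, -, h⟩ := P.exists_fin (l + 1)
  obtain ⟨b, hb⟩ := (P.fin_act l).bddAbove
  filter_upwards [eventually_ge_atTop m, eventually_gt_atTop b] with n h1 h2
  have h3 : l + 1 ≤ nf (P.f n) := h ▸ (P.pre h1).sublist.countP_le
  refine ⟨?_, by omega⟩
  rcases P.out n with h4 | h4
  · unfold fin at h4
    omega
  · exact not_le.1 fun h5 => h2.not_ge (hb ⟨h4, h5⟩)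

theorem pre_of_le {ρ : List ℕ} (h : ∀ᶠ i in atTop, ρ < M.thr i) {n : ℕ} (h' : P.f n ≤ ρ) :
    P.f n <+: ρ := by
  cases n with
  | zero => exact P.f0 ▸ List.nil_prefix
  | succ n =>
    obtain ⟨i0, h0⟩ := eventually_atTop.1 h
    obtain ⟨i, a1, a2⟩ := frequently_atTop.1 (P.tp (n + 1)).1 (i0 + 1)
    obtain ⟨i, rfl⟩ : ∃ j, i = j + 1 := ⟨i - 1, by omega⟩
    rw [P.succ] at a2 h' ⊢
    obtain ⟨b1, b2, b3, b4⟩ := arr_succ a2
    have b5 : ρ < P.f n ++ [P.g n + 1] := (h0 i (by omega)).trans_le (by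
      rw [Lin.thr, St.thr, b3, b4]
      refine app_le_app ?_
      cases M.κ i <;> simp [Kd.th])
    rcases between ((lt_app _ _).le.trans h') b5 with h1 | ⟨o, h1, h2⟩
    · exact absurd (h1 ▸ lt_app _ _) h'.not_gt
    · rcases (Nat.le_of_lt_succ h1).eq_or_lt with rfl | h1
      exacts [h2, absurd (lt_of_pre h2 h1) h'.not_gt]

end Lin.Path

end Pool.Agent.P.MP_1a00c7_lc.B
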