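import Mathlib

/-!
The tree of strategies: states, actions and the invariants of single states.
-/

namespace Pool.Agent.P.MP_1a00c7_lc.B

open Set Filter Encodable

/-! ### The lexicographic order -/

theorem app_lt (ρ a b : List ℕ) : ρ ++ a < ρ ++ b ↔ a < b := by
  induction ρ with
  | nil => rfl
  | cons x ρ ih => simp [ih]

theorem pre_le {ρ σ : List ℕ} (h : ρ <+: σ) : ρ ≤ σ := by
  obtain ⟨t, rfl⟩ := h
  rw [← not_lt]
  conv => enter [1, 2]; rw [← List.append_nil ρ]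
  rw [app_lt]
  exact List.not_lt_nil _

theorem interval {ρ σ τ : List ℕ} (h1 : ρ ≤ σ) (h2 : σ ≤ τ) (h3 : ρ <+: τ) : ρ <+: σ := by
  rw [← not_lt] at h1 h2
  induction ρ generalizing σ τ with
  | nil => exact List.nil_prefix
  | cons x ρ ih =>
    obtain ⟨t, rfl⟩ := h3
    cases σ with
    | nil => simp at h1
    | cons y σ =>
      simp only [List.cons_append, List.cons_lt_cons_iff, not_or, not_and] at h1 h2
      obtain rfl : x = y := by omega
      simpa using ih (h1.2 rfl) (h2.2 rfl) (List.prefix_append _ _)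

theorem lt_app (σ : List ℕ) (k : ℕ) : σ < σ ++ [k] := by
  conv => enter [1]; rw [← List.append_nil σ]
  rw [app_lt]
  exact List.nil_lt_cons _ _

theorem lt_of_pre {ρ σ : List ℕ} {o k : ℕ} (h : ρ ++ [o] <+: σ) (h' : o < k) : σ < ρ ++ [k] := by
  obtain ⟨t, rfl⟩ := h
  rw [List.append_assoc, app_lt]
  simp [List.cons_lt_cons_iff, h']

theorem app_le_app {ρ : List ℕ} {o k : ℕ} (h : o ≤ k) : ρ ++ [o] ≤ ρ ++ [k] := by
  rw [← not_lt, app_lt]
  simpa [List.cons_lt_cons_iff] using h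

theorem pre_cases {ρ σ : List ℕ} (h : ρ <+: σ) : ρ = σ ∨ ∃ o, ρ ++ [o] <+: σ := by
  obtain ⟨t, rfl⟩ := h
  cases t with
  | nil => simp
  | cons o t => exact Or.inr ⟨o, t, by simp⟩

theorem between {ρ σ : List ℕ} {k : ℕ} (h1 : ρ ≤ σ) (h2 : σ < ρ ++ [k]) :
    ρ = σ ∨ ∃ o < k, ρ ++ [o] <+: σ := by
  rcases pre_cases (interval h1 h2.le (List.prefix_append _ _)) with h | ⟨o, h⟩
  · exact Or.inl h
  · exact Or.inr ⟨o, not_le.1 fun h' => h2.not_ge ((app_le_app h').trans (pre_le h)), h⟩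

theorem le_of_lt_zero {ρ σ : List ℕ} (h : ρ < σ ++ [0]) : ρ ≤ σ := not_lt.1 fun h' => by
  rcases between h'.le h with h1 | ⟨o, h1, -⟩
  · exact h'.ne h1
  · omega

theorem pre_of_app {ρ σ : List ℕ} {o : ℕ} (h : ρ ++ [o] <+: σ) : ρ <+: σ :=
  (List.prefix_append _ _).trans h

theorem not_app_pre (σ : List ℕ) (o : ℕ) : ¬ σ ++ [o] <+: σ := fun h => by
  simpa using h.length_le

theorem app_pre_app {ρ σ : List ℕ} {o k : ℕ} :
    ρ ++ [o] <+: σ ++ [k] ↔ (ρ = σ ∧ o = k) ∨ ρ ++ [o] <+: σ := by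
  simp [List.prefix_concat_iff]

/-! ### Nodes and numbers -/

/-- the number of finitary outcomes -/
def nf (σ : List ℕ) : ℕ := σ.countP fun o => o % 2 == 1

/-- the finitary outcome -/
def fin (σ : List ℕ) : ℕ := 2 * nf σ + 1

/-- the active levels -/
def Act (σ : List ℕ) (l : ℕ) : Prop :=
  l % 2 = 0 ∧ l < 2 * nf σ ∧ l ∉ σ ∧ (nf σ % 4 = 1 ∨ nf σ % 4 = 2)

theorem Act.lt {σ : List ℕ} {l : ℕ} (h : Act σ l) : l < fin σ := by
  have := h.2.1
  unfold fin
  omega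

/-- markers and witnesses -/
def num (s : ℕ) (σ : List ℕ) (o : ℕ) : ℕ := Nat.pair s (Nat.pair o (encode σ))

theorem num_inj {s s' o o' : ℕ} {σ σ' : List ℕ} :
    num s σ o = num s' σ' o' ↔ s = s' ∧ σ = σ' ∧ o = o' := by
  simp only [num, Nat.pair_eq_pair, encode_inj]
  tauto

/-- states -/
structure St where
  cur : List ℕ
  ph : Option ℕ
  st : ℕ
  L : List ℕ → ℕ → Option ℕ
  X : Set ℕ

/-- kinds of events: pick, finitary outcome, checkpoint, stop, travel -/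
inductive Kd | K | F | C | S | T
  deriving DecidableEq

/-- the last entry of the threshold -/
def Kd.th : Kd → ℕ → ℕ
  | .K, _ => 0
  | .S, _ => 0
  | .T, o => o
  | _, o => o + 1

namespace St

variable (S : St)

/-- the levels below the bound have not been treated yet -/
def bnd : ℕ := S.ph.getD (fin S.cur)

/-- all nodes from the threshold on are initialized -/
def thr (κ : Kd) (o : ℕ) : List ℕ := S.cur ++ [κ.th o]

/-- the number enumerated -/
def Enu (κ : Kd) (o z : ℕ) : Prop := (κ = .C ∨ κ = .S) ∧ ∃ s, S.L S.cur o = some s ∧ z = num s S.cur o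

open Classical in
/-- the new records -/
noncomputable def updL (σ : List ℕ) (κ : Kd) (o r : ℕ) (ρ : List ℕ) (o' : ℕ) (v : Option ℕ) :
    Option ℕ :=
  if ¬ ρ < σ ++ [κ.th o] then none
  else if κ = .K then
    if ρ = σ then (if o' = fin σ ∨ Act σ o' then some (r + 1) else none)
    else v.map fun s => if s = 0 then r + 1 else s
  else if (κ = .C ∨ κ = .T) ∧ ρ = σ ∧ o' = o then some 0 else v

/-- the new state -/
noncomputable def upd (κ : Kd) (o r : ℕ) : St where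
  cur := if κ = .K then [] else if κ = .T then S.cur else S.cur ++ [o]
  ph := if κ = .T then some o else none
  st := if κ = .K then r + 1 else S.st
  L ρ o' := updL S.cur κ o r ρ o' (S.L ρ o')
  X := S.X ∪ {z | S.Enu κ o z}

/-- the current node attacks -/
def Go (see : Prop) : Prop :=
  S.ph ≠ none ∨ ∃ x, S.L S.cur (fin S.cur) = some x ∧ num x S.cur (fin S.cur) ∉ S.X ∧ see

/-- the next level -/
def Top (l : ℕ) : Prop := Act S.cur l ∧ l < S.bnd ∧ ∀ l', Act S.cur l' → l' < S.bnd → l' ≤ l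

/-- the legal events -/
inductive Ok (see : Prop) : Kd → ℕ → Prop
  | K : S.ph = none → S.L S.cur (fin S.cur) = none → Ok see .K (fin S.cur)
  | F (x : ℕ) : S.ph = none → S.L S.cur (fin S.cur) = some x →
      (num x S.cur (fin S.cur) ∈ S.X ∨ ¬ see) → Ok see .F (fin S.cur)
  | C (l : ℕ) : S.Go see → S.Top l → Ok see .C l
  | T (l : ℕ) : S.Go see → S.Top l → Ok see .T l
  | S : S.Go see → (∀ l, Act S.cur l → S.bnd ≤ l) → Ok see .S (fin S.cur)

/-- the invariants -/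
structure Inv (r : ℕ) : Prop where
  val : ∀ ρ o, ρ ++ [o] <+: S.cur → (o = fin ρ ∨ Act ρ o) ∧ S.L ρ (fin ρ) ≠ none
  rcd : ∀ ρ o, S.L ρ o ≠ none ↔ S.L ρ (fin ρ) ≠ none ∧ (o = fin ρ ∨ Act ρ o)
  m1 : ∀ ρ o, S.L ρ o = some 0 → o ≠ fin ρ ∧ ρ <+: S.cur ∧ (ρ = S.cur → S.bnd ≤ o)
  m2 : ∀ ρ l, Act ρ l → (∃ o ≤ l, ρ ++ [o] <+: S.cur) ∨ (ρ = S.cur ∧ S.bnd ≤ l) →
    S.L ρ l = some 0
  wt : S.ph ≠ none → ∃ x, S.L S.cur (fin S.cur) = some x ∧ num x S.cur (fin S.cur) ∉ S.X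
  st_le : S.st ≤ r
  le : ∀ ρ o s, S.L ρ o = some s → s ≤ r
  xle : ∀ s ρ o, num s ρ o ∈ S.X → 0 < s ∧ s ≤ r
  nm : ∀ ρ o s, S.L ρ o = some s → o ≠ fin ρ → num s ρ o ∉ S.X
  fin : {ρ | S.L ρ (fin ρ) ≠ none}.Finite

/-- the initial state -/
def init : St := ⟨[], none, 0, fun _ _ => none, ∅⟩

variable {S} {see : Prop} {κ : Kd} {o r : ℕ}

theorem inv_init : init.Inv 0 := by
  constructor <;> simp [init, bnd]
  rintro _ l h rfl
  exact h.lt

theorem Inv.mono {r' : ℕ} (h : S.Inv r) (h' : r ≤ r') : S.Inv r' :=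
  { h with
    st_le := h.st_le.trans h'
    le := fun ρ o s h1 => (h.le ρ o s h1).trans h'
    xle := fun s ρ o h1 => ⟨(h.xle s ρ o h1).1, (h.xle s ρ o h1).2.trans h'⟩ }

theorem Inv.go (h : S.Inv r) (h' : S.Go see) :
    ∃ x, S.L S.cur (B.fin S.cur) = some x ∧ num x S.cur (B.fin S.cur) ∉ S.X :=
  h'.elim h.wt fun ⟨x, h1, h2, _⟩ => ⟨x, h1, h2⟩

theorem Ok.out (h : S.Ok see κ o) : o = fin S.cur ∨ Act S.cur o := by
  cases h with
  | C l _ h => exact Or.inr h.1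
  | T l _ h => exact Or.inr h.1
  | _ => exact Or.inl rfl

theorem Ok.wit (h : S.Ok see κ o) (hI : S.Inv r) (hκ : κ ≠ .K) : S.L S.cur (fin S.cur) ≠ none := by
  cases h with
  | K => exact absurd rfl hκ
  | F x _ h => simp [h]
  | C l h => obtain ⟨x, h, -⟩ := hI.go h; simp [h]
  | T l h => obtain ⟨x, h, -⟩ := hI.go h; simp [h]
  | S h => obtain ⟨x, h, -⟩ := hI.go h; simp [h]

theorem Ok.top (h : S.Ok see κ o) (hκ : κ = .C ∨ κ = .T) : S.Go see ∧ S.Top o := by
  cases h with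
  | C l h h' => exact ⟨h, h'⟩
  | T l h h' => exact ⟨h, h'⟩
  | _ => simp at hκ

/-- the record which is treated is present -/
theorem Ok.pos (h : S.Ok see κ o) (hI : S.Inv r) (hκ : κ ≠ .K) :
    ∃ s, 0 < s ∧ S.L S.cur o = some s := by
  obtain ⟨s, hs⟩ := Option.ne_none_iff_exists'.1 ((hI.rcd _ _).2 ⟨h.wit hI hκ, h.out⟩)
  refine ⟨s, Nat.pos_of_ne_zero ?_, hs⟩
  rintro rfl
  have := hI.m1 _ _ hs
  cases h with
  | C l _ h => exact h.2.1.not_ge (this.2.2 rfl)
  | T l _ h => exact h.2.1.not_ge (this.2.2 rfl)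
  | _ => exact this.1 rfl

theorem cur_lt_thr (S : St) (κ : Kd) (o : ℕ) : S.cur < S.thr κ o := lt_app _ _

theorem upd_L_none {ρ : List ℕ} (h : ¬ ρ < S.thr κ o) (o' : ℕ) : (S.upd κ o r).L ρ o' = none :=
  if_pos h

/-- a record with a nonzero old parameter is an old record -/
theorem upd_L_old {ρ : List ℕ} {o' s : ℕ} (h : (S.upd κ o r).L ρ o' = some s) (h0 : 0 < s)
    (h1 : s ≤ r) : S.L ρ o' = some s ∧ ρ < S.thr κ o ∧
      ¬ ((κ = .C ∨ κ = .T) ∧ ρ = S.cur ∧ o' = o) := by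
  simp only [upd, updL, thr] at h ⊢
  split_ifs at h with h2 h3 h4 h5 h6
  · simp at h; omega
  · obtain ⟨s', h7, h8⟩ := Option.map_eq_some_iff.1 h
    split_ifs at h8
    · omega
    · exact ⟨h8 ▸ h7, h2, by simp [h3]⟩
  · simp at h; omega
  · exact ⟨h, h2, h6⟩

/-- records are kept -/
theorem upd_L_keep {ρ : List ℕ} {o' s : ℕ} (hok : S.Ok see κ o) (hI : S.Inv r)
    (h : S.L ρ o' = some s) (h0 : 0 < s) (h1 : ρ < S.thr κ o)
    (h2 : ¬ ((κ = .C ∨ κ = .T) ∧ ρ = S.cur ∧ o' = o)) {r' : ℕ} :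
    (S.upd κ o r').L ρ o' = some s := by
  simp only [upd, updL]
  rw [if_neg (not_not.2 (show ρ < S.cur ++ [κ.th o] from h1))]
  split_ifs with h3 h4 h5
  · subst h3 h4
    cases hok with
    | K _ h6 => exact absurd h6 ((hI.rcd _ o').1 (by simp [h])).1
  · subst h3 h4
    cases hok with
    | K _ h6 => exact absurd h6 ((hI.rcd _ o').1 (by simp [h])).1
  · simp [h, h0.ne']
  · exact h

theorem upd_L_ne {ρ : List ℕ} {o' : ℕ} (hok : S.Ok see κ o) (hI : S.Inv r) {r' : ℕ} :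
    (S.upd κ o r').L ρ o' ≠ none ↔ ρ < S.thr κ o ∧
      if κ = .K ∧ ρ = S.cur then o' = fin ρ ∨ Act ρ o' else S.L ρ o' ≠ none := by
  simp only [upd, updL, thr]
  by_cases h1 : ρ < S.cur ++ [κ.th o]
  · by_cases h2 : κ = .K
    · by_cases h3 : ρ = S.cur
      · subst h3
        subst h2
        simp [h1, or_iff_not_imp_left]
      · subst h2
        simp [h1, h3]
    · simp only [h1, h2, not_true, if_false, false_and, true_and]
      split_ifs with h3
      · obtain ⟨s, -, h4⟩ := hok.pos hI h2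
        simp [h3.2.1, h3.2.2, h4]
      · rfl
  · simp [h1]

theorem Inv.upd (hI : S.Inv r) (hok : S.Ok see κ o) : (S.upd κ o r).Inv (r + 1) := by
  have hth : ∀ ρ, ρ <+: S.cur → ρ < S.thr κ o := fun ρ h => (pre_le h).trans_lt (S.cur_lt_thr _ _)
  have hX : ∀ z, z ∈ (S.upd κ o r).X ↔ z ∈ S.X ∨ S.Enu κ o z := fun _ => Iff.rfl
  refine ⟨fun ρ o' h => ?_, fun ρ o' => ?_, fun ρ o' h => ?_, fun ρ l h1 h2 => ?_, fun h => ?_, ?_,
    fun ρ o' s h => ?_, fun s ρ o' h => ?_, fun ρ o' s h1 h2 h3 => ?_, ?_⟩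
  · by_cases hK : κ = .K
    · simp [St.upd, hK] at h
    rw [upd_L_ne hok hI, if_neg (by simp [hK])]
    have h1 : (ρ = S.cur ∧ o' = o) ∨ ρ ++ [o'] <+: S.cur := by
      simp only [St.upd, hK, if_false] at h
      split_ifs at h
      exacts [Or.inr h, app_pre_app.1 h]
    rcases h1 with ⟨rfl, rfl⟩ | h1
    · exact ⟨hok.out, S.cur_lt_thr _ _, hok.wit hI hK⟩
    · exact ⟨(hI.val _ _ h1).1, hth _ (pre_of_app h1), (hI.val _ _ h1).2⟩
  · rw [upd_L_ne hok hI, upd_L_ne hok hI]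
    split_ifs
    · simp
    · rw [hI.rcd, and_assoc]
  · simp only [St.upd, updL, bnd] at h ⊢
    split_ifs at h with h1 h2 h3 h4 h5
    · simp at h
    · obtain ⟨s, -, h5⟩ := Option.map_eq_some_iff.1 h
      split_ifs at h5
      omega
    · obtain ⟨h5, rfl, rfl⟩ := h5
      refine ⟨(hok.top h5).2.1.lt.ne, ?_⟩
      rcases h5 with rfl | rfl <;> simp
    · obtain ⟨a1, a2, a3⟩ := hI.m1 _ _ h
      refine ⟨a1, ?_⟩
      simp only [h2, if_false]
      split_ifs with h6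
      · exact ⟨a2, fun h7 => ((hok.top (Or.inr h6)).2.2.1.le.trans (a3 h7) :)⟩
      · exact ⟨a2.trans (List.prefix_append _ _), fun h7 => absurd (h7 ▸ a2) (not_app_pre _ _)⟩
  · by_cases hK : κ = .K
    · simp [St.upd, hK, bnd] at h2
      exact absurd h1.lt (h2.1 ▸ h2.2.not_gt)
    have key : ρ <+: S.cur → (S.L ρ l = some 0 ∨ (κ = .C ∨ κ = .T) ∧ ρ = S.cur ∧ l = o) →
        (S.upd κ o r).L ρ l = some 0 := fun h3 h4 => by
      simp only [St.upd, updL]
      rw [if_neg (not_not.2 (show ρ < S.cur ++ [κ.th o] from hth _ h3)), if_neg hK]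
      split_ifs with h5
      exacts [rfl, h4.resolve_right h5]
    have k2 : (κ = .C ∨ κ = .T) → ρ = S.cur → o ≤ l → (S.upd κ o r).L ρ l = some 0 :=
      fun h3 h4 h5 => key (h4 ▸ List.prefix_rfl) (by
        rcases h5.eq_or_lt with h5 | h5
        · exact Or.inr ⟨h3, h4, h5.symm⟩
        · exact Or.inl (hI.m2 _ _ h1 (Or.inr ⟨h4, not_lt.1 fun h6 =>
            h5.not_ge ((hok.top h3).2.2.2 l (h4 ▸ h1) h6)⟩)))
    by_cases hT : κ = .T
    · simp only [St.upd, hT, bnd, if_true, reduceCtorEq, if_false, Option.getD_some] at h2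
      rcases h2 with ⟨o', h2, h3⟩ | h2
      · exact key (pre_of_app h3) (Or.inl (hI.m2 _ _ h1 (Or.inl ⟨o', h2, h3⟩)))
      · exact k2 (Or.inr hT) h2.1 h2.2
    simp only [St.upd, hT, hK, bnd, if_false, Option.getD_none] at h2
    rcases h2 with ⟨o', h2, h3⟩ | h2
    · rcases app_pre_app.1 h3 with ⟨h4, rfl⟩ | h3
      · cases hok with
        | C => exact k2 (Or.inl rfl) h4 h2
        | T => exact absurd rfl hT
        | _ => exact absurd h1.lt (h4 ▸ h2.not_gt)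
      · exact key (pre_of_app h3) (Or.inl (hI.m2 _ _ h1 (Or.inl ⟨o', h2, h3⟩)))
    · exact absurd h1.lt (h2.1 ▸ h2.2.not_gt)
  · obtain rfl : κ = .T := by simpa [St.upd] using h
    obtain ⟨x, h1, h2⟩ := hI.go (hok.top (Or.inr rfl)).1
    have h3 : 0 < x := Nat.pos_of_ne_zero fun h => (hI.m1 _ _ (h ▸ h1)).1 rfl
    refine ⟨x, upd_L_keep hok hI h1 h3 (S.cur_lt_thr _ _) fun h4 =>
      (hok.top (Or.inr rfl)).2.1.lt.ne' h4.2.2, fun h4 => ?_⟩
    rcases (hX _).1 h4 with h4 | h4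
    exacts [h2 h4, by simpa using h4.1]
  · have := hI.st_le
    simp only [St.upd]
    split_ifs <;> omega
  · simp only [St.upd, updL] at h
    split_ifs at h
    · simp at h; omega
    · obtain ⟨s', h7, h8⟩ := Option.map_eq_some_iff.1 h
      have := hI.le _ _ _ h7
      split_ifs at h8 <;> omega
    · simp at h; omega
    · have := hI.le _ _ _ h
      omega
  · rcases (hX _).1 h with h | ⟨h1, s', h2, h3⟩
    · have := hI.xle _ _ _ h
      omega
    · obtain ⟨rfl, rfl, rfl⟩ := num_inj.1 h3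
      obtain ⟨s', h4, h5⟩ := hok.pos hI (by rintro rfl; simp at h1)
      have := hI.le _ _ _ h2
      obtain rfl : s = s' := by simpa [h2] using h5
      omega
  · have h4 : 0 < s ∧ s ≤ r := by
      rcases (hX _).1 h3 with h | ⟨h4, s', h5, h6⟩
      · exact hI.xle _ _ _ h
      · obtain ⟨rfl, rfl, rfl⟩ := num_inj.1 h6
        obtain ⟨s', h7, h8⟩ := hok.pos hI (by rintro rfl; simp at h4)
        obtain rfl : s = s' := by simpa [h5] using h8
        exact ⟨h7, hI.le _ _ _ h5⟩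
    obtain ⟨a1, -, a3⟩ := upd_L_old h1 h4.1 h4.2
    rcases (hX _).1 h3 with h | ⟨h5, s', -, h6⟩
    · exact hI.nm _ _ _ a1 h2 h
    · obtain ⟨rfl, rfl, rfl⟩ := num_inj.1 h6
      rcases h5 with rfl | rfl
      · exact a3 ⟨Or.inl rfl, rfl, rfl⟩
      · cases hok
        exact h2 rfl
  · refine (hI.fin.insert S.cur).subset fun ρ h => ?_
    have := ((upd_L_ne hok hI).1 h).2
    split_ifs at this with h1
    exacts [Or.inl h1.2, Or.inr this]

end St

end Pool.Agent.P.MP_1a00c7_lc.B
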