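import Mathlib

namespace Pool.Agent.P.MP_1a00c7_lc

/-- `A` (a subset of the naturals, given by its characteristic function) is `n`-c.e. -/
def NCE (n : ℕ) (A : ℕ → Bool) : Prop :=
  ∃ g : ℕ → ℕ → Bool, Computable₂ g ∧ ∀ x, g x 0 = false ∧
    (∀ᶠ s in Filter.atTop, g x s = A x) ∧ {s | g x (s + 1) ≠ g x s}.encard ≤ n

/-- The Turing degree of a set. -/
def deg (A : ℕ → Bool) : TuringDegree :=
  toAntisymmetrization TuringReducible fun x => Part.some (A x).toNat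

/-- A Turing degree is `n`-c.e. if it contains an `n`-c.e. set. -/
def NCEDeg (n : ℕ) (a : TuringDegree) : Prop := ∃ A, NCE n A ∧ deg A = a

/-- `0 = a 0 < a 1 < ... < a n` with `a k` a `k`-c.e. degree for `1 ≤ k ≤ n`. -/
def Chain (n : ℕ) (a : ℕ → TuringDegree) : Prop :=
  a 0 = deg (fun _ => false) ∧ (∀ k < n, a k < a (k + 1)) ∧
    ∀ k, 1 ≤ k → k ≤ n → NCEDeg k (a k)

/-- `n`-bubble in the `m`-c.e. degrees. -/
def Bubble (n m : ℕ) (a : ℕ → TuringDegree) : Prop :=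
  Chain n a ∧ ∀ k, 1 ≤ k → k ≤ n → ∀ u, NCEDeg m u → u ≤ a k →
    u ≤ a (k - 1) ∨ a (k - 1) ≤ u

/-- weak `n`-bubble in the `m`-c.e. degrees; `j` is the join of `u` and `a (k - 2)`. -/
def WeakBubble (n m : ℕ) (a : ℕ → TuringDegree) : Prop :=
  Chain n a ∧ ∀ k, 2 ≤ k → k ≤ n → ∀ u, NCEDeg m u → u ≤ a k →
    u ≤ a (k - 1) ∨ ∃ j, IsLUB {u, a (k - 2)} j ∧ a (k - 1) ≤ j

end Pool.Agent.P.MP_1a00c7_lc
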