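import Pool.Agent.P.MP_1a00c7_lc.Basic

/-! Splitting over a c.e. base: the construction. -/

namespace Pool.Agent.P.MP_1a00c7_lc

open Filter Pool.Agent.Lib.Helper43

attribute [local irreducible] Computable

/-- least `x < n` with `p x`, or `n` -/
def fst (p : ℕ → Bool) (n : ℕ) : ℕ := ((List.range n).find? p).getD n

@[fun_prop] theorem comp_fst {α : Type} [Primcodable α] {g : α → ℕ → Bool} {n : α → ℕ}
    (hg : Computable fun p : α × ℕ => g p.1 p.2) (hn : Computable n) :
    Computable fun a => fst (g a) (n a) := CFP.optGetD (CFP.find? hg (CFP.range hn)) hn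

theorem fst_spec (p : ℕ → Bool) (n : ℕ) :
    fst p n ≤ n ∧ (∀ x < fst p n, p x = false) ∧ (fst p n < n → p (fst p n) = true) := by
  unfold fst
  cases h : (List.range n).find? p with
  | none =>
    rw [List.find?_range_eq_none] at h
    exact ⟨le_rfl, fun x hx => by simpa using h x hx, fun h => absurd h (lt_irrefl _)⟩
  | some k =>
    rw [List.find?_range_eq_some] at h
    exact ⟨(List.mem_range.1 h.2.1).le, fun x hx => by simpa using h.2.2 x hx, fun _ => h.1⟩

theorem fst_le (p : ℕ → Bool) (n : ℕ) : fst p n ≤ n := (fst_spec p n).1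

theorem fst_lt {p : ℕ → Bool} {n x : ℕ} (h : x < fst p n) : p x = false := (fst_spec p n).2.1 x h

theorem fst_true {p : ℕ → Bool} {n : ℕ} (h : fst p n < n) : p (fst p n) = true :=
  (fst_spec p n).2.2 h

theorem le_fst {p : ℕ → Bool} {n m : ℕ} (h : m ≤ n) (hp : ∀ x < m, p x = false) : m ≤ fst p n := by
  by_contra hc
  have := fst_true (p := p) (n := n) (by omega)
  rw [hp _ (by omega)] at this
  exact absurd this (by simp)

theorem fst_le_of {p : ℕ → Bool} {n x : ℕ} (h : p x = true) : fst p n ≤ x := by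
  by_contra hc
  rw [fst_lt (not_le.1 hc)] at h
  exact absurd h (by simp)

theorem fst_congr {p q : ℕ → Bool} {n : ℕ} (h : ∀ x < n, p x = q x) : fst p n = fst q n := by
  refine le_antisymm (le_fst (fst_le _ _) fun x hx => ?_) (le_fst (fst_le _ _) fun x hx => ?_)
  · rw [← h x (hx.trans_le (fst_le _ _))]; exact fst_lt hx
  · rw [h x (hx.trans_le (fst_le _ _))]; exact fst_lt hx

structure Dat where
  d : ℕ → ℕ → Bool
  g : ℕ → ℕ → Bool
  h : ℕ → ℕ → Bool
  cL : ℕ
  cd : Computable fun p : ℕ × ℕ => d p.1 p.2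
  cg : Computable fun p : ℕ × ℕ => g p.1 p.2
  ch : Computable fun p : ℕ × ℕ => h p.1 p.2

namespace Dat
variable (X : Dat) {α : Type} [Primcodable α]

@[fun_prop] theorem comp_d {x s : α → ℕ} (hx : Computable x) (hs : Computable s) :
    Computable fun a => X.d (x a) (s a) := CFP.comp (g := fun a => (x a, s a)) X.cd (by fun_prop)

@[fun_prop] theorem comp_g {x s : α → ℕ} (hx : Computable x) (hs : Computable s) :
    Computable fun a => X.g (x a) (s a) := CFP.comp (g := fun a => (x a, s a)) X.cg (by fun_prop)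

@[fun_prop] theorem comp_h {x s : α → ℕ} (hx : Computable x) (hs : Computable s) :
    Computable fun a => X.h (x a) (s a) := CFP.comp (g := fun a => (x a, s a)) X.ch (by fun_prop)

def a (s : ℕ) : ℕ := fst (fun x => X.d x s != X.d x (s - 1)) s

@[fun_prop] theorem comp_a {s : α → ℕ} (hs : Computable s) : Computable fun b => X.a (s b) := by
  unfold a; fun_prop

def al (r s : ℕ) : Bool := (List.range (X.a r)).all fun x => X.d x s == X.d x r

@[fun_prop] theorem comp_al {r s : α → ℕ} (hr : Computable r) (hs : Computable s) :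
    Computable fun b => X.al (r b) (s b) := by
  unfold al; fun_prop

def cert (x r : ℕ) : Bool := X.g x r && (List.range (r + 1)).any fun s =>
  X.g x s && phi X.cL (seg (fun y => X.d y r) (X.a r)) (Nat.pair x s) == some false

@[fun_prop] theorem comp_cert {r s : α → ℕ} (hr : Computable r) (hs : Computable s) :
    Computable fun b => X.cert (r b) (s b) := by
  unfold cert; fun_prop

def ut (x s : ℕ) : Bool := X.g x s || (List.range (s + 1)).any fun r => X.cert x r && X.al r s

@[fun_prop] theorem comp_ut {r s : α → ℕ} (hr : Computable r) (hs : Computable s) :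
    Computable fun b => X.ut (r b) (s b) := by
  unfold ut; fun_prop

def en (x s : ℕ) : ℕ := @Nat.rec (fun _ => ℕ) 0 (fun n ih => bif X.ut x n then ih else n + 1) s

@[fun_prop] theorem comp_en {r s : α → ℕ} (hr : Computable r) (hs : Computable s) :
    Computable fun b => X.en (r b) (s b) :=
  CFP.natRec (h := fun b n ih => bif X.ut (r b) n then ih else n + 1) hs (by fun_prop) (by fun_prop)

def cnt (x s : ℕ) : ℕ := ((List.range s).filter fun t => X.g x (t + 1) != X.g x t).length

@[fun_prop] theorem comp_cnt {r s : α → ℕ} (hr : Computable r) (hs : Computable s) :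
    Computable fun b => X.cnt (r b) (s b) := by
  unfold cnt; fun_prop

def u (r : ℕ) : ℕ := fst (fun x => X.ut x r && !X.cert x r) (X.a r)

@[fun_prop] theorem comp_u {s : α → ℕ} (hs : Computable s) : Computable fun b => X.u (s b) := by
  unfold u; fun_prop

def lk (T : List (List ℕ)) (e r : ℕ) : ℕ := (T.getD r []).getD e 0

@[fun_prop] theorem comp_lk {T : α → List (List ℕ)} {r s : α → ℕ} (hT : Computable T)
    (hr : Computable r) (hs : Computable s) : Computable fun b => lk (T b) (r b) (s b) := by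
  unfold lk; fun_prop

def rc (l : ℕ → ℕ → ℕ) (e r : ℕ) : Bool :=
  (List.range r).all fun r' => !X.al r' r || decide (l e r' < l e r)

def eps (l : ℕ → ℕ → ℕ) (x s : ℕ) : ℕ :=
  fst (fun e => (List.range (X.en x s)).any fun r => X.rc l e r && X.al r s && decide (x < X.u r)) x

def V (l : ℕ → ℕ → ℕ) (i z s : ℕ) : Bool :=
  X.ut z.unpair.1 s && z.unpair.2.unpair.1 == X.cnt z.unpair.1 (X.en z.unpair.1 s) &&
    z.unpair.2.unpair.2 == X.eps l z.unpair.1 s && z.unpair.2.unpair.2 % 2 != i

def len (l : ℕ → ℕ → ℕ) (e r : ℕ) : ℕ :=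
  fst (fun y => phi (e / 2) (seg (join (fun z => X.V l (e % 2) z r) fun z => X.d z r) (X.u r)) y
    != some (X.h y r)) r

@[fun_prop] theorem comp_rc {l : α → ℕ → ℕ → ℕ} {r s : α → ℕ}
    (hl : Computable fun p : α × ℕ × ℕ => l p.1 p.2.1 p.2.2)
    (hr : Computable r) (hs : Computable s) : Computable fun b => X.rc (l b) (r b) (s b) := by
  unfold rc
  refine CFP.all (CFP.or (by fun_prop) (CFP.decLt ?_ ?_)) (by fun_prop)
  · exact CFP.comp (g := fun q : α × ℕ => (q.1, r q.1, q.2)) hl (by fun_prop)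
  · exact CFP.comp (g := fun q : α × ℕ => (q.1, r q.1, s q.1)) hl (by fun_prop)

@[fun_prop] theorem comp_eps {l : α → ℕ → ℕ → ℕ} {r s : α → ℕ}
    (hl : Computable fun p : α × ℕ × ℕ => l p.1 p.2.1 p.2.2)
    (hr : Computable r) (hs : Computable s) : Computable fun b => X.eps (l b) (r b) (s b) := by
  unfold eps
  refine comp_fst (CFP.any (CFP.and (CFP.and (X.comp_rc (l := fun q : (α × ℕ) × ℕ => l q.1.1) ?_
    ?_ ?_) ?_) ?_) ?_) hr
  · exact CFP.comp (g := fun q : ((α × ℕ) × ℕ) × ℕ × ℕ => (q.1.1.1, q.2)) hl (by fun_prop)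
  all_goals fun_prop

@[fun_prop] theorem comp_V {l : α → ℕ → ℕ → ℕ} {i r s : α → ℕ}
    (hl : Computable fun p : α × ℕ × ℕ => l p.1 p.2.1 p.2.2) (hi : Computable i)
    (hr : Computable r) (hs : Computable s) : Computable fun b => X.V (l b) (i b) (r b) (s b) := by
  unfold V
  refine CFP.and (CFP.and (by fun_prop) (CFP.beq (by fun_prop) (X.comp_eps hl ?_ hs))) ?_
  all_goals fun_prop

theorem comp_len {l : α → ℕ → ℕ → ℕ} {r s : α → ℕ}
    (hl : Computable fun p : α × ℕ × ℕ => l p.1 p.2.1 p.2.2)
    (hr : Computable r) (hs : Computable s) : Computable fun b => X.len (l b) (r b) (s b) := by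
  unfold len
  refine comp_fst (CFP.bne (comp_phi (by fun_prop) (comp_seg (comp_join
    (f := fun (q : (α × ℕ) × ℕ) z => X.V (l q.1.1) (r q.1.1 % 2) z (s q.1.1))
    (X.comp_V (l := fun q : ((α × ℕ) × ℕ) × ℕ => l q.1.1.1) ?_ ?_ ?_ ?_) ?_ ?_) ?_) ?_) ?_) hs
  · exact CFP.comp (g := fun q : (((α × ℕ) × ℕ) × ℕ) × ℕ × ℕ => (q.1.1.1.1, q.2)) hl (by fun_prop)
  all_goals fun_prop

theorem en_le (x s : ℕ) : X.en x s ≤ s := by
  induction s with
  | zero => exact le_rfl
  | succ s ih =>
    show (bif X.ut x s then X.en x s else s + 1) ≤ _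
    cases X.ut x s <;> simp
    omega

theorem len_congr {l l' : ℕ → ℕ → ℕ} {s : ℕ} (h : ∀ e, ∀ r < s, l e r = l' e r) (e : ℕ) :
    X.len l e s = X.len l' e s := by
  have h1 : ∀ e, ∀ r < s, X.rc l e r = X.rc l' e r := by
    intro e r hr
    unfold rc
    rw [Bool.eq_iff_iff]
    simp only [List.all_eq_true, List.mem_range]
    refine forall₂_congr fun r' hr' => ?_
    rw [h e r hr, h e r' (by omega)]
  have h2 : ∀ x, X.eps l x s = X.eps l' x s := by
    intro x
    refine fst_congr fun e _ => ?_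
    rw [Bool.eq_iff_iff]
    simp only [List.any_eq_true, List.mem_range]
    refine exists_congr fun r => and_congr_right fun hr => ?_
    rw [h1 e r (hr.trans_le (X.en_le x s))]
  unfold len V
  simp only [h2]

theorem exists_len : ∃ l : ℕ → ℕ → ℕ, (Computable fun p : ℕ × ℕ => l p.1 p.2) ∧
    ∀ e r, e < r → l e r = X.len l e r := by
  obtain ⟨T, h1, h2⟩ := CFP.exists_strongRec (σ := List ℕ)
    (fun r T => (List.range r).map fun e => X.len (lk T) e r)
    (CFP.map (X.comp_len (l := fun q : (ℕ × List (List ℕ)) × ℕ => lk q.1.2) (by fun_prop)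
      (by fun_prop) (by fun_prop)) (by fun_prop))
  refine ⟨fun e r => (T r).getD e 0, by fun_prop, fun e r he => ?_⟩
  show (T r).getD e 0 = _
  conv_lhs => rw [h2 r, List.getD_eq_getElem?_getD]
  simp only [List.getElem?_map, List.getElem?_range he, Option.map_some, Option.getD_some]
  refine X.len_congr (fun e r' hr' => ?_) e
  simp [lk, List.getD_eq_getElem?_getD, List.getElem?_range hr']

end Dat

end Pool.Agent.P.MP_1a00c7_lc
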