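import Pool.Agent.P.MP_1a00c7_lc.Split1

/-! Splitting over a c.e. base: the verification. -/

namespace Pool.Agent.P.MP_1a00c7_lc

open Filter Pool.Agent.Lib.Helper43

attribute [local irreducible] Computable

structure Hyp extends Dat where
  D : ℕ → Bool
  U : ℕ → Bool
  E : ℕ → Bool
  j : ℕ
  l : ℕ → ℕ → ℕ
  dm : ∀ x s t, s ≤ t → d x s = true → d x t = true
  dD : ∀ x, ∀ᶠ s in atTop, d x s = D x
  g0 : ∀ x, g x 0 = false
  gU : ∀ x, ∀ᶠ s in atTop, g x s = U x
  gj : ∀ x, {s | g x (s + 1) ≠ g x s}.encard ≤ j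
  hL : ∀ x s, ∀ᶠ n in atTop, phi cL (seg D n) (Nat.pair x s) = some (g x s && !U x)
  hE : ∀ x, ∀ᶠ s in atTop, h x s = E x
  nE : ¬ Red E D
  cl : Computable fun p : ℕ × ℕ => l p.1 p.2
  hl : ∀ e r, e < r → l e r = toDat.len l e r

theorem ev_all {p : ℕ → ℕ → Prop} (n : ℕ) (h : ∀ x, ∀ᶠ s in atTop, p x s) :
    ∀ᶠ s in atTop, ∀ x < n, p x s := by
  have := (Finset.eventually_all (Finset.range n)).2 fun x _ => h x
  filter_upwards [this] with s hs x hx using hs x (Finset.mem_range.2 hx)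

namespace Hyp
variable (X : Hyp)

@[fun_prop] theorem comp_l {α : Type} [Primcodable α] {x s : α → ℕ} (hx : Computable x)
    (hs : Computable s) : Computable fun a => X.l (x a) (s a) :=
  CFP.comp (g := fun a => (x a, s a)) X.cl (by fun_prop)

def Tr (r : ℕ) : Prop := ∀ x < X.a r, X.D x = X.d x r

theorem al_iff {r s : ℕ} : X.al r s = true ↔ ∀ x < X.a r, X.d x s = X.d x r := by
  simp [Dat.al]

theorem a_le (s : ℕ) : X.a s ≤ s := fst_le _ _

theorem d_le {x s : ℕ} (h : X.d x s = true) : X.D x = true := by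
  obtain ⟨t, h1, h2⟩ := ((X.dD x).and (eventually_ge_atTop s)).exists
  rw [← h1]; exact X.dm x s t h2 h

theorem Tr.al {X : Hyp} {r s : ℕ} (h : X.Tr r) (hs : r ≤ s) : X.al r s = true := by
  refine X.al_iff.2 fun x hx => ?_
  have h1 := h x hx
  have h2 := X.dm x r s hs
  have h3 := X.d_le (x := x) (s := s)
  revert h1 h2 h3
  cases X.d x s <;> cases X.d x r <;> cases X.D x <;> simp

theorem al_mid {r s t : ℕ} (h : X.al r t = true) (h1 : r ≤ s) (h2 : s ≤ t) : X.al r s = true := by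
  rw [al_iff] at h ⊢
  intro x hx
  have h3 := h x hx
  have h4 := X.dm x r s h1
  have h5 := X.dm x s t h2
  revert h3 h4 h5
  cases X.d x s <;> cases X.d x r <;> cases X.d x t <;> simp

theorem Tr.of_al {X : Hyp} {r s : ℕ} (h : X.Tr s) (hs : r ≤ s) (ha : X.al r s = true) : X.Tr r := by
  rcases hs.eq_or_lt with rfl | hs
  · exact h
  have h1 : X.a r ≤ X.a s := le_fst ((X.a_le r).trans hs.le) fun x hx => by
    rw [X.al_iff.1 ha x hx, X.al_iff.1 (X.al_mid ha (s := s - 1) (by omega) (by omega)) x hx]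
    simp
  intro x hx
  rw [h x (by omega), X.al_iff.1 ha x hx]

theorem a_ev (n : ℕ) : ∀ᶠ s in atTop, n ≤ X.a s := by
  obtain ⟨t, ht⟩ := eventually_atTop.1 (ev_all n X.dD)
  filter_upwards [eventually_ge_atTop (t + 1), eventually_ge_atTop n] with s h1 h2
  exact le_fst h2 fun x hx => by rw [ht s (by omega) x hx, ht (s - 1) (by omega) x hx]; simp

theorem tr_freq : ∃ᶠ s in atTop, X.Tr s := by
  rw [frequently_atTop]
  intro n
  have hex : ∃ k, ∃ s ≥ n, X.a s = k := ⟨_, n, le_rfl, rfl⟩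
  classical
  obtain ⟨s, h1, h2⟩ := Nat.find_spec hex
  refine ⟨s, h1, fun x hx => ?_⟩
  have h3 : ∀ t, s ≤ t → X.d x t = X.d x s := by
    intro t ht
    induction ht with
    | refl => rfl
    | @step m hm ih =>
      have h4 : X.a s ≤ X.a (m + 1) := h2 ▸ Nat.find_min' hex ⟨m + 1, le_trans h1 (Nat.le_succ_of_le hm), rfl⟩
      have := fst_lt (hx.trans_le h4)
      rw [← ih]
      simpa using this
  obtain ⟨t, h4, h5⟩ := ((X.dD x).and (eventually_ge_atTop s)).exists
  rw [← h4, h3 t h5]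

theorem Tr.seg {X : Hyp} {r : ℕ} (h : X.Tr r) : seg (fun y => X.d y r) (X.a r) = seg X.D (X.a r) :=
  seg_eq_iff.2 fun i hi => (h i hi).symm

theorem Tr.cert {X : Hyp} {r x : ℕ} (h : X.Tr r) (hc : X.cert x r = true) : X.U x = true := by
  simp only [Dat.cert, Bool.and_eq_true, List.any_eq_true, beq_iff_eq, h.seg] at hc
  obtain ⟨-, s, -, h1, h2⟩ := hc
  obtain ⟨n, hn⟩ := (X.hL x s).exists
  have := phi_unique h2 hn
  simpa [h1] using this

theorem cert_ev {x : ℕ} (hx : X.U x = true) : ∀ᶠ r in atTop, X.Tr r → X.cert x r = true := by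
  obtain ⟨s, hs⟩ := (X.gU x).exists
  obtain ⟨n, hn⟩ := (X.hL x s).exists
  filter_upwards [X.a_ev n, X.gU x, eventually_ge_atTop s] with r h1 h2 h3 h
  simp only [Dat.cert, Bool.and_eq_true, List.any_eq_true, beq_iff_eq, h.seg, List.mem_range]
  refine ⟨h2.trans hx, s, by omega, hs.trans hx, phi_mono h1 ?_⟩
  simpa [hx] using hn

theorem ut_iff {x s : ℕ} :
    X.ut x s = true ↔ X.g x s = true ∨ ∃ r ≤ s, X.cert x r = true ∧ X.al r s = true := by
  simp [Dat.ut]

theorem cert_g {x r : ℕ} (h : X.cert x r = true) : X.g x r = true := by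
  simp only [Dat.cert, Bool.and_eq_true] at h
  exact h.1

theorem ut_entry {x s : ℕ} (h : X.ut x s = false) (h' : X.ut x (s + 1) = true) :
    X.g x (s + 1) ≠ X.g x s := by
  have h1 := X.ut_iff.not.1 (by simp [h] : ¬ X.ut x s = true)
  push Not at h1
  have h2 : X.g x (s + 1) = true := by
    rcases X.ut_iff.1 h' with h2 | ⟨r, r1, r2, r3⟩
    · exact h2
    · rcases r1.eq_or_lt with rfl | r1
      · exact X.cert_g r2
      · exact absurd (X.al_mid r3 (by omega) (by omega)) (h1.2 r (by omega) r2)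
  rw [h2]
  exact fun e => h1.1 e.symm

theorem ut_ev (x : ℕ) : ∀ᶠ s in atTop, X.ut x s = X.U x := by
  by_cases hx : X.U x = true
  · filter_upwards [X.gU x] with s hs
    rw [hx]; exact X.ut_iff.2 (Or.inl (hs.trans hx))
  · obtain ⟨t, ht⟩ := eventually_atTop.1 (X.gU x)
    have h1 : ∀ r, ∀ᶠ s in atTop, X.cert x r = true → ¬ X.al r s = true := by
      intro r
      by_cases hc : X.cert x r = true
      · have h2 : ¬ X.Tr r := fun h => hx (h.cert hc)
        unfold Tr at h2
        push Not at h2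
        obtain ⟨y, y1, y2⟩ := h2
        filter_upwards [X.dD y] with s hs _ ha
        exact y2 (hs ▸ X.al_iff.1 ha y y1)
      · exact Eventually.of_forall fun _ h => absurd h hc
    filter_upwards [ev_all t h1, eventually_ge_atTop t] with s h2 h3
    rw [Bool.eq_false_iff.2 hx, Bool.eq_false_iff]
    intro h
    rcases X.ut_iff.1 h with h | ⟨r, -, r2, r3⟩
    · exact hx (ht s h3 ▸ h)
    · by_cases hr : r < t
      · exact h2 r hr r2 r3
      · exact hx (ht r (by omega) ▸ X.cert_g r2)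

theorem en_succ (x s : ℕ) : X.en x (s + 1) = bif X.ut x s then X.en x s else s + 1 := rfl

theorem en_mono (x : ℕ) : Monotone (X.en x) := monotone_nat_of_le_succ fun s => by
  rw [en_succ]
  have := X.en_le x s
  cases X.ut x s <;> simp
  omega

theorem cnt_succ (x s : ℕ) :
    X.cnt x (s + 1) = X.cnt x s + if X.g x (s + 1) ≠ X.g x s then 1 else 0 := by
  simp only [Dat.cnt, List.range_succ, List.filter_append, List.length_append]
  congr 1
  by_cases h : X.g x (s + 1) = X.g x s <;> simp [h]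

theorem cnt_mono (x : ℕ) : Monotone (X.cnt x) := monotone_nat_of_le_succ fun s => by
  rw [cnt_succ]; omega

theorem cnt_le (x s : ℕ) : X.cnt x s ≤ X.j := by
  have h1 : (((List.range s).filter fun t => X.g x (t + 1) != X.g x t).toFinset : Set ℕ) ⊆
      {s | X.g x (s + 1) ≠ X.g x s} := by
    intro t ht
    simp only [List.coe_toFinset, List.mem_filter, Set.mem_ofPred_eq] at ht ⊢
    simpa using ht.2
  have h2 := (Set.encard_le_encard h1).trans (X.gj x)
  rw [Set.encard_coe_eq_coe_finsetCard, List.toFinset_card_of_nodup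
    (List.nodup_range.filter _)] at h2
  exact_mod_cast h2

theorem en_const {x s t : ℕ} (hst : s ≤ t) (h : ∀ r, s ≤ r → r < t → X.ut x r = true) :
    X.en x t = X.en x s := by
  induction hst with
  | refl => rfl
  | @step m hm ih =>
    rw [en_succ, h m hm (by omega), cond_true, ih fun r h1 h2 => h r h1 (by omega)]

theorem same_cnt {x s t : ℕ} (hst : s ≤ t) (ht : X.ut x t = true)
    (h : X.cnt x (X.en x t) = X.cnt x (X.en x s)) : ∀ r, s ≤ r → r ≤ t → X.ut x r = true := by
  induction hst with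
  | refl => intro r h1 h2; rwa [le_antisymm h2 h1]
  | @step m hm ih =>
    have h1 : X.ut x m = true := by
      by_contra hc
      have hc' := Bool.eq_false_iff.2 hc
      rw [en_succ, hc', cond_false, cnt_succ, if_pos (X.ut_entry hc' ht)] at h
      have := X.cnt_mono x ((X.en_le x s).trans hm)
      omega
    rw [en_succ, h1, cond_true] at h
    intro r h2 h3
    rcases h3.eq_or_lt with rfl | h3
    · exact ht
    · exact ih h1 h r h2 (by omega)

def Q (x s e : ℕ) : Prop := ∃ r < X.en x s, X.rc X.l e r = true ∧ X.al r s = true ∧ x < X.u r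

theorem eps_spec (x s : ℕ) : X.eps X.l x s ≤ x ∧ (∀ e, X.Q x s e → X.eps X.l x s ≤ e) ∧
    (X.eps X.l x s < x → X.Q x s (X.eps X.l x s)) := by
  refine ⟨fst_le _ _, fun e h => fst_le_of ?_, fun h => ?_⟩
  · simpa [Q, and_assoc] using h
  · have := fst_true h
    unfold Q
    simpa [and_assoc, Dat.eps] using this

theorem eps_le {x s t : ℕ} (h : ∀ e, X.Q x t e → X.Q x s e) : X.eps X.l x s ≤ X.eps X.l x t := by
  rcases (X.eps_spec x t).1.eq_or_lt with e | e
  · rw [e]; exact (X.eps_spec x s).1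
  · exact (X.eps_spec x s).2.1 _ (h _ ((X.eps_spec x t).2.2 e))

theorem eps_mono {x s t : ℕ} (hst : s ≤ t) (h : X.en x t = X.en x s) :
    X.eps X.l x s ≤ X.eps X.l x t := by
  refine X.eps_le ?_
  rintro e ⟨r, r1, r2, r3, r4⟩
  have := X.en_le x s
  exact ⟨r, h ▸ r1, r2, X.al_mid r3 (by omega) hst, r4⟩

theorem V_iff {i z s : ℕ} : X.V X.l i z s = true ↔ X.ut z.unpair.1 s = true ∧
    z.unpair.2.unpair.1 = X.cnt z.unpair.1 (X.en z.unpair.1 s) ∧
    z.unpair.2.unpair.2 = X.eps X.l z.unpair.1 s ∧ z.unpair.2.unpair.2 % 2 ≠ i := by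
  simp [Dat.V, and_assoc]

theorem Tr.final {X : Hyp} {r x : ℕ} (h : X.Tr r) (hc : X.cert x r = true) {s : ℕ} (hs : r ≤ s) :
    X.ut x s = true ∧ X.en x s = X.en x r ∧ X.eps X.l x s = X.eps X.l x r := by
  have h1 : ∀ s, r ≤ s → X.ut x s = true := fun s hs => X.ut_iff.2 (Or.inr ⟨r, hs, hc, h.al hs⟩)
  have h2 := X.en_const hs fun t ht _ => h1 t ht
  refine ⟨h1 s hs, h2, le_antisymm (X.eps_le ?_) (X.eps_mono hs h2)⟩
  rintro e ⟨t, t1, t2, t3, t4⟩
  have := X.en_le x r
  exact ⟨t, h2 ▸ t1, t2, (h.of_al (by omega) t3).al (by omega), t4⟩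

theorem Tr.final_V {X : Hyp} {r z : ℕ} (h : X.Tr r) (hc : X.cert z.unpair.1 r = true) {s : ℕ}
    (hs : r ≤ s) (i : ℕ) : X.V X.l i z s = X.V X.l i z r := by
  unfold Dat.V
  rw [(h.final hc hs).1, (h.final hc hs).2.1, (h.final hc hs).2.2, (h.final hc le_rfl).1]

open Classical in
noncomputable def Vf (i z : ℕ) : Bool := decide (∀ᶠ s in atTop, X.V X.l i z s = true)

theorem Vf_of {i z r : ℕ} (h : ∀ s, r ≤ s → X.V X.l i z s = X.V X.l i z r) :
    X.Vf i z = X.V X.l i z r := by
  rw [Bool.eq_iff_iff]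
  simp only [Vf, decide_eq_true_eq]
  constructor
  · intro h1
    obtain ⟨s, h2, h3⟩ := (h1.and (eventually_ge_atTop r)).exists
    rw [← h s h3, h2]
  · intro h1
    filter_upwards [eventually_ge_atTop r] with s hs
    rw [h s hs, h1]

theorem exists_cert {x : ℕ} (hx : X.U x = true) (n : ℕ) : ∃ r ≥ n, X.Tr r ∧ X.cert x r = true := by
  obtain ⟨r, h1, h2, h3⟩ := (X.tr_freq.and_eventually ((X.cert_ev hx).and
    (eventually_ge_atTop n))).exists
  exact ⟨r, h3, h1, h2 h1⟩

theorem V_ev (x : ℕ) : ∀ᶠ s in atTop, ∀ i z, z.unpair.1 = x → X.V X.l i z s = X.Vf i z := by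
  by_cases hx : X.U x = true
  · obtain ⟨r, -, h1, h2⟩ := X.exists_cert hx 0
    filter_upwards [eventually_ge_atTop r] with s hs i z hz
    subst hz
    rw [X.Vf_of fun s hs => h1.final_V h2 hs i, h1.final_V h2 hs i]
  · obtain ⟨r, hr⟩ := eventually_atTop.1 (X.ut_ev x)
    have : ∀ s, r ≤ s → ∀ i z, z.unpair.1 = x → X.V X.l i z s = false := by
      intro s hs i z hz
      rw [Bool.eq_false_iff]
      intro h
      exact hx (by rw [← hr s hs, ← hz]; exact (X.V_iff.1 h).1)
    filter_upwards [eventually_ge_atTop r] with s hs i z hz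
    rw [X.Vf_of (r := r) fun s hs => by rw [this s hs i z hz, this r le_rfl i z hz],
      this s hs i z hz, this r le_rfl i z hz]

theorem Vf_U {i z : ℕ} (h : X.Vf i z = true) : X.U z.unpair.1 = true := by
  obtain ⟨s, h1, h2⟩ := ((X.V_ev z.unpair.1).and (X.ut_ev z.unpair.1)).exists
  rw [← h2]
  exact (X.V_iff.1 ((h1 i z rfl).trans h)).1

theorem nce_Vf (i : ℕ) : NCE 2 (X.Vf i) := by
  refine nce_two (fun z s => X.V X.l i z s) (by fun_prop) (fun z => ?_) (fun z s t hst h1 h2 => ?_)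
    fun z => (X.V_ev _).mono fun s hs => hs i z rfl
  · rw [Bool.eq_false_iff]
    intro h
    rcases X.ut_iff.1 (X.V_iff.1 h).1 with h | ⟨r, r1, r2, -⟩
    · simp [X.g0] at h
    · have := X.cert_g r2
      rw [Nat.le_zero.1 r1, X.g0] at this
      simp at this
  · rw [Bool.eq_false_iff] at h2 ⊢
    intro h3
    obtain ⟨a1, a2, a3, a4⟩ := X.V_iff.1 h1
    obtain ⟨b1, b2, b3, -⟩ := X.V_iff.1 h3
    have c1 := X.same_cnt hst.le b1 (b2.symm.trans a2)
    have c2 : X.en z.unpair.1 (s + 1) = X.en z.unpair.1 s := by rw [en_succ, a1, cond_true]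
    have c3 := X.en_const (s := s + 1) hst fun r r1 r2 => c1 r (by omega) r2.le
    have c4 := X.eps_mono (Nat.le_add_right s 1) c2
    have c5 := X.eps_mono (s := s + 1) hst c3
    exact h2 (X.V_iff.2 ⟨c1 _ (by omega) hst, by rw [c2, a2], by omega, a4⟩)

/-- test for true stages on an oracle string whose positions `k y` describe `D` -/
def tst (k : ℕ → ℕ) (r : ℕ) (τ : List Bool) : Bool :=
  (List.range (X.a r)).all fun y => decide (k y < τ.length) && τ.getD (k y) false == X.d y r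

theorem tst_iff {k : ℕ → ℕ} {O : ℕ → Bool} (hO : ∀ y, O (k y) = X.D y) {r n : ℕ} :
    X.tst k r (seg O n) = true ↔ (∀ y < X.a r, k y < n) ∧ X.Tr r := by
  simp only [tst, List.all_eq_true, List.mem_range, Bool.and_eq_true, decide_eq_true_eq,
    seg_length, beq_iff_eq, Tr]
  constructor
  · intro h
    exact ⟨fun y hy => (h y hy).1, fun y hy => by rw [← (h y hy).2, seg_getD _ (h y hy).1, hO]⟩
  · intro h y hy
    exact ⟨h.1 y hy, by rw [seg_getD _ (h.1 y hy), hO, h.2 y hy]⟩

theorem red_Vf (i : ℕ) : Red (X.Vf i) (join X.U X.D) := by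
  refine red_of_search (fun z r τ => decide (2 * z.unpair.1 < τ.length) &&
      (!τ.getD (2 * z.unpair.1) false || (X.tst (fun y => 2 * y + 1) r τ && X.cert z.unpair.1 r)))
    (fun z r τ => τ.getD (2 * z.unpair.1) false && X.V X.l i z r)
    (by unfold tst; fun_prop) (by fun_prop) (fun z r n h => ?_) fun z => ?_
  · simp only [Bool.and_eq_true, decide_eq_true_eq, seg_length, Bool.or_eq_true,
      X.tst_iff (join_odd X.U X.D)] at h
    rw [seg_getD _ h.1, join_even] at h ⊢
    rcases h.2 with h2 | h2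
    · have h3 : X.U z.unpair.1 = false := by simpa using h2
      rw [h3, Bool.false_and, eq_comm, Bool.eq_false_iff]
      exact fun h4 => by simp [X.Vf_U h4] at h3
    · rw [h2.1.2.cert h2.2, Bool.true_and, X.Vf_of fun s hs => h2.1.2.final_V h2.2 hs i]
  · by_cases hx : X.U z.unpair.1 = true
    · obtain ⟨r, -, h1, h2⟩ := X.exists_cert hx 0
      refine ⟨r, 2 * z.unpair.1 + 2 * X.a r + 1, ?_⟩
      simp only [Bool.and_eq_true, decide_eq_true_eq, seg_length, Bool.or_eq_true,
        X.tst_iff (join_odd X.U X.D)]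
      exact ⟨by omega, Or.inr ⟨⟨fun y hy => by omega, h1⟩, h2⟩⟩
    · refine ⟨0, 2 * z.unpair.1 + 1, ?_⟩
      rw [seg_getD _ (by omega), join_even]
      simp [hx]

theorem red_U : Red X.U (join (X.Vf 0) (X.Vf 1)) := by
  refine red_of_search (fun x _ τ => (List.range (X.j + 1)).all fun c => (List.range (x + 1)).all
      fun e => decide (2 * Nat.pair x (Nat.pair c e) + 1 < τ.length))
    (fun x _ τ => (List.range (X.j + 1)).any fun c => (List.range (x + 1)).any fun e =>
      τ.getD (2 * Nat.pair x (Nat.pair c e)) false ||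
        τ.getD (2 * Nat.pair x (Nat.pair c e) + 1) false)
    (by fun_prop) (by fun_prop) (fun x _ n h => ?_) fun x => ?_
  · simp only [List.all_eq_true, List.mem_range, decide_eq_true_eq, seg_length] at h
    rw [Bool.eq_iff_iff]
    simp only [List.any_eq_true, List.mem_range, Bool.or_eq_true]
    constructor
    · rintro ⟨c, c1, e, e1, h1⟩
      have := h c c1 e e1
      rw [seg_getD _ (by omega), seg_getD _ this, join_even, join_odd] at h1
      rcases h1 with h1 | h1 <;> simpa using X.Vf_U h1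
    · intro hx
      obtain ⟨s, h1, h2⟩ := ((X.V_ev x).and (X.ut_ev x)).exists
      have c1 := X.cnt_le x (X.en x s)
      have e1 := (X.eps_spec x s).1
      have := h (X.cnt x (X.en x s)) (by omega) (X.eps X.l x s) (by omega)
      refine ⟨X.cnt x (X.en x s), by omega, X.eps X.l x s, by omega, ?_⟩
      rw [seg_getD _ (by omega), seg_getD _ this, join_even, join_odd, ← h1 _ _ (by simp),
        ← h1 _ _ (by simp), V_iff, V_iff]
      simp only [Nat.unpair_pair, h2, hx, true_and]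
      omega
  · obtain ⟨n, hn⟩ := (ev_all (X.j + 1) fun c => ev_all (x + 1) fun e =>
      eventually_gt_atTop (2 * Nat.pair x (Nat.pair c e) + 1)).exists
    exact ⟨0, n, by simpa using hn⟩

theorem u_le (r : ℕ) : X.u r ≤ X.a r := fst_le _ _

theorem u_cert {x r : ℕ} (h : x < X.u r) (h' : X.ut x r = true) : X.cert x r = true := by
  simpa [h'] using fst_lt h

theorem u_ev (n : ℕ) : ∀ᶠ r in atTop, X.Tr r → n ≤ X.u r := by
  have h1 : ∀ x, ∀ᶠ r in atTop, X.Tr r → (X.ut x r && !X.cert x r) = false := by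
    intro x
    by_cases hx : X.U x = true
    · filter_upwards [X.cert_ev hx] with r hr h
      simp [hr h]
    · filter_upwards [X.ut_ev x] with r hr _
      simp [hr, hx]
  filter_upwards [ev_all n h1, X.a_ev n] with r h2 h3 h
  exact le_fst h3 fun x hx => h2 x hx h

theorem pres {e s0 : ℕ} (h0 : ∀ e' < e, ∀ r, X.Tr r → X.rc X.l e' r = true → r < s0) :
    ∀ᶠ r in atTop, X.Tr r → X.rc X.l e r = true → ∀ z < X.u r,
      join (fun z => X.V X.l (e % 2) z r) (fun z => X.d z r) z = join (X.Vf (e % 2)) X.D z := by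
  filter_upwards [ev_all (max (e + 1) s0) X.V_ev] with r h1 h2 h3
  refine join_congr (fun z hz => ?_) fun z hz => (h2 z (hz.trans_le (X.u_le r))).symm
  have hx : z.unpair.1 < X.u r := (Nat.unpair_left_le z).trans_lt hz
  by_cases c1 : z.unpair.1 < max (e + 1) s0
  · exact h1 _ c1 _ z rfl
  by_cases c2 : X.ut z.unpair.1 r = true
  · exact (X.Vf_of fun s hs => h2.final_V (X.u_cert hx c2) hs _).symm
  have h4 : X.V X.l (e % 2) z r = false := Bool.eq_false_iff.2 fun h => c2 (X.V_iff.1 h).1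
  rw [h4, eq_comm, Bool.eq_false_iff]
  intro h5
  obtain ⟨t, t1, t2, t3⟩ := X.exists_cert (X.Vf_U h5) (r + 1)
  rw [X.Vf_of fun s hs => t2.final_V t3 hs _] at h5
  obtain ⟨-, -, b3, b4⟩ := X.V_iff.1 h5
  have h6 : r + 1 ≤ X.en z.unpair.1 t := by
    refine le_trans ?_ (X.en_mono _ t1)
    rw [en_succ, Bool.eq_false_iff.2 c2, cond_false]
  have h7 := (X.eps_spec z.unpair.1 t).2.1 e ⟨r, h6, h3, h2.al (by omega), hx⟩
  rcases h7.eq_or_lt with h7 | h7
  · exact b4 (by rw [b3, h7])
  · obtain ⟨q, q1, q2, q3, q4⟩ := (X.eps_spec z.unpair.1 t).2.2 (by omega)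
    have := X.en_le z.unpair.1 t
    have := h0 _ h7 q (t2.of_al (by omega) q3) q2
    have := X.u_le q
    have := X.a_le q
    omega

theorem rc_iff {e r : ℕ} :
    X.rc X.l e r = true ↔ ∀ r' < r, X.al r' r = true → X.l e r' < X.l e r := by
  simp only [Dat.rc, List.all_eq_true, List.mem_range, Bool.or_eq_true, Bool.not_eq_true',
    decide_eq_true_eq]
  refine forall₂_congr fun r' _ => ?_
  cases X.al r' r <;> simp

theorem fin_rc (e : ℕ) : ∃ s0, ∀ r, X.Tr r → X.rc X.l e r = true → r < s0 := by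
  induction e using Nat.strong_induction_on with
  | _ e ih =>
  obtain ⟨s0, h0⟩ : ∃ s0, ∀ e' < e, ∀ r, X.Tr r → X.rc X.l e' r = true → r < s0 := by
    choose! f hf using ih
    obtain ⟨n, hn⟩ := (ev_all e fun e' => eventually_ge_atTop (f e')).exists
    exact ⟨n, fun e' he r h1 h2 => (hf e' he r h1 h2).trans_le (hn e' he)⟩
  obtain ⟨r1, h1⟩ := eventually_atTop.1 (X.pres h0)
  by_contra hc
  push Not at hc
  have h2 : ∀ y n, ∃ r ≥ n, X.Tr r ∧ X.rc X.l e r = true ∧ y ≤ X.l e r := by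
    intro y
    induction y with
    | zero => intro n; obtain ⟨r, a1, a2, a3⟩ := hc n; exact ⟨r, a3, a1, a2, Nat.zero_le _⟩
    | succ y ih =>
      intro n
      obtain ⟨r, -, b2, -, b4⟩ := ih n
      obtain ⟨r', a1, a2, a3⟩ := hc (max n (r + 1))
      have := X.rc_iff.1 a2 r (by omega) (b2.al (by omega))
      exact ⟨r', by omega, a1, a2, by omega⟩
  have h3 : ∀ y r, max r1 (e + 1) ≤ r → X.Tr r → X.rc X.l e r = true → y < X.l e r →
      phi (e / 2) (seg (join (X.Vf (e % 2)) X.D) (X.u r)) y = some (X.h y r) := by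
    intro y r a1 a2 a3 a4
    rw [X.hl e r (by omega)] at a4
    rw [← seg_eq_iff.2 (h1 r (by omega) a2 a3)]
    simpa using fst_lt a4
  refine X.nE (red_of_search (fun y r τ => decide (max r1 (e + 1) ≤ r) && X.tst (fun y => y) r τ &&
    X.rc X.l e r && decide (y < X.l e r)) (fun y r _ => X.h y r) (by unfold tst; fun_prop)
    (by fun_prop) (fun y r n h => ?_) fun y => ?_)
  · simp only [Bool.and_eq_true, decide_eq_true_eq, X.tst_iff (k := fun y => y) fun _ => rfl] at h
    obtain ⟨t, ht⟩ := eventually_atTop.1 (X.hE y)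
    obtain ⟨r', b1, b2, b3, b4⟩ := h2 (y + 1) (max t (max r1 (e + 1)))
    rw [← ht r' (by omega)]
    exact phi_unique (h3 y r h.1.1.1 h.1.1.2.2 h.1.2 h.2) (h3 y r' (by omega) b2 b3 b4)
  · obtain ⟨r, b1, b2, b3, b4⟩ := h2 (y + 1) (max r1 (e + 1))
    refine ⟨r, X.a r, ?_⟩
    simp only [Bool.and_eq_true, decide_eq_true_eq, X.tst_iff (k := fun y => y) fun _ => rfl]
    exact ⟨⟨⟨b1, fun _ h => h, b2⟩, b3⟩, b4⟩

theorem not_red {i : ℕ} (hi : i < 2) : ¬ Red X.E (join (X.Vf i) X.D) := by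
  intro h
  obtain ⟨c, hc⟩ := h.use
  obtain ⟨s0, h0⟩ := X.fin_rc (2 * c + i)
  have e1 : (2 * c + i) / 2 = c := by omega
  have e2 : (2 * c + i) % 2 = i := by omega
  have h1 : ∀ y, ∃ r, X.Tr r ∧ y ≤ X.l (2 * c + i) r := by
    intro y
    obtain ⟨n, hn⟩ := (ev_all y hc).exists
    obtain ⟨r, a1, a2, a3, a4, a5, a6⟩ := (X.tr_freq.and_eventually ((X.u_ev n).and
      ((ev_all n X.V_ev).and ((ev_all y X.hE).and ((eventually_ge_atTop y).and
        (eventually_gt_atTop (2 * c + i))))))).exists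
    refine ⟨r, a1, ?_⟩
    rw [X.hl _ r a6]
    refine le_fst a5 fun y' hy => ?_
    rw [e1, e2, a4 y' hy, phi_mono (a2 a1) (v := X.E y')]
    · simp
    · rw [← hn y' hy]
      congr 1
      refine seg_eq_iff.2 (join_congr (fun z hz => a3 _ ((Nat.unpair_left_le z).trans_lt hz) i z rfl)
        fun z hz => (a1 z (hz.trans_le ((a2 a1).trans (X.u_le r)))).symm)
  obtain ⟨M, hM⟩ := (ev_all s0 fun r => eventually_gt_atTop (X.l (2 * c + i) r)).exists
  classical
  obtain ⟨a1, a2⟩ := Nat.find_spec (h1 M)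
  have h2 := h0 _ a1 (X.rc_iff.2 fun r' hr ha => ?_)
  · have := hM _ h2
    omega
  · have := Nat.find_min (h1 M) hr
    have h3 := a1.of_al hr.le ha
    simp only [h3, true_and] at this
    omega

end Hyp

end Pool.Agent.P.MP_1a00c7_lc
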