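import Pool.Agent.P.MP_1a00c7_lc.Split2

/-! Weak 3-bubbles in the `m`-c.e. degrees are 3-bubbles for `m ≥ 2`. -/

namespace Pool.Agent.P.MP_1a00c7_lc

open Filter Pool.Agent.Lib.Helper43

attribute [local irreducible] Computable

theorem NCE.zero {A : ℕ → Bool} (h : NCE 0 A) : A = fun _ => false := by
  obtain ⟨g, -, h⟩ := h
  funext x
  obtain ⟨h0, h1, h2⟩ := h x
  have h3 : ∀ s, g x s = false := by
    intro s
    induction s with
    | zero => exact h0
    | succ s ih =>
      by_contra hc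
      have h4 : {s | g x (s + 1) ≠ g x s} = ∅ := by simpa using h2
      exact (h4 ▸ (by rw [Set.mem_ofPred_eq, ih]; exact hc) : s ∈ (∅ : Set ℕ))
  obtain ⟨s, hs⟩ := h1.exists
  rw [← hs, h3]

/-- splitting over a c.e. set that computes the Lachlan set -/
theorem split {D U E : ℕ → Bool} {j k : ℕ} {g : ℕ → ℕ → Bool} (hD : NCE 1 D) (hE : NCE k E)
    (cg : Computable₂ g) (hg : ∀ x, g x 0 = false ∧ (∀ᶠ s in atTop, g x s = U x) ∧
      {s | g x (s + 1) ≠ g x s}.encard ≤ j)
    (hL : Red (fun z => g z.unpair.1 z.unpair.2 && !U z.unpair.1) D) (nE : ¬ Red E D) :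
    ∃ V : ℕ → ℕ → Bool, Red U (join (V 0) (V 1)) ∧ ∀ i < 2, NCE 2 (V i) ∧ Red (V i) (join U D) ∧
      ¬ Red E (join (V i) D) := by
  obtain ⟨d, cd, hd⟩ := hD
  obtain ⟨h, ch, hh⟩ := hE
  obtain ⟨c, hc⟩ := hL.use
  let Y : Dat := ⟨d, g, h, c, cd, cg, ch⟩
  obtain ⟨l, cl, hl⟩ := Y.exists_len
  let X : Hyp := ⟨Y, D, U, E, j, l, fun x s t hst => NCE.approx_mono (hd x).1 (hd x).2.2 hst,
    fun x => (hd x).2.1, fun x => (hg x).1, fun x => (hg x).2.1, fun x => (hg x).2.2,
    fun x s => by simpa using hc (Nat.pair x s), fun x => (hh x).2.1, nE, cl, hl⟩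
  exact ⟨X.Vf, X.red_U, fun i hi => ⟨X.nce_Vf i, X.red_Vf i, X.not_red hi⟩⟩

theorem lachlan {U : ℕ → Bool} {j : ℕ} {g : ℕ → ℕ → Bool}
    (cg : Computable₂ g) (hg : ∀ x, g x 0 = false ∧ (∀ᶠ s in atTop, g x s = U x) ∧
      {s | g x (s + 1) ≠ g x s}.encard ≤ (j + 1 : ℕ)) :
    NCE j (fun z => g z.unpair.1 z.unpair.2 && !U z.unpair.1) ∧
      Red (fun z => g z.unpair.1 z.unpair.2 && !U z.unpair.1) U := by
  have cg' : ∀ {α : Type} [Primcodable α] {x s : α → ℕ}, Computable x → Computable s →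
      Computable fun a => g (x a) (s a) := fun hx hs =>
    CFP.comp (f := fun p : ℕ × ℕ => g p.1 p.2) (g := fun a => (_, _)) cg (CFP.prodMk hx hs)
  constructor
  · refine ⟨fun z t => decide (z.unpair.2 ≤ t) && (g z.unpair.1 z.unpair.2 && !g z.unpair.1 t),
      CFP.and (by fun_prop) (CFP.and (cg' (by fun_prop) (by fun_prop))
        (CFP.not (cg' (by fun_prop) (by fun_prop)))), fun z => ?_⟩
    dsimp only
    generalize z.unpair.1 = x
    generalize z.unpair.2 = s
    obtain ⟨h0, h1, h2⟩ := hg x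
    refine ⟨?_, ?_, ?_⟩
    · rcases s with _ | s <;> simp [h0]
    · filter_upwards [h1, eventually_ge_atTop s] with t h3 h4
      simp [h3, h4]
    · by_cases hs : g x s = true
      · obtain ⟨c, c1, c2⟩ : ∃ c < s, g x (c + 1) ≠ g x c := by
          by_contra hn
          push Not at hn
          have : ∀ c ≤ s, g x c = false := by
            intro c hc
            induction c with
            | zero => exact h0
            | succ c ih => rw [hn c hc, ih (by omega)]
          simp [this s le_rfl] at hs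
        have h3 : {t | (decide (s ≤ t + 1) && (g x s && !g x (t + 1))) ≠
            (decide (s ≤ t) && (g x s && !g x t))} ⊆ {t | g x (t + 1) ≠ g x t} \ {c} := by
          intro t ht
          simp only [Set.mem_ofPred_eq, Set.mem_sdiff, Set.mem_singleton_iff] at ht ⊢
          by_cases h4 : s ≤ t
          · refine ⟨fun e => ht ?_, by omega⟩
            simp [h4, e, h4.trans (Nat.le_succ t)]
          · refine absurd ?_ ht
            by_cases h5 : s = t + 1
            · simp [h4, ← h5]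
            · simp [h4, show ¬ s ≤ t + 1 by omega]
        refine (Set.encard_le_encard h3).trans ?_
        rw [← Set.encard_sdiff_singleton_add_one (show c ∈ {t | g x (t + 1) ≠ g x t} from c2),
          Nat.cast_succ] at h2
        exact (ENat.add_le_add_iff_right (by simp)).1 h2
      · simp [hs]
  · refine red_of_search (fun z _ τ => decide (z.unpair.1 < τ.length))
      (fun z _ τ => g z.unpair.1 z.unpair.2 && !τ.getD z.unpair.1 false) (by fun_prop)
      (CFP.and (cg' (by fun_prop) (by fun_prop)) (by fun_prop))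
      (fun z _ n h => by rw [seg_getD _ (by simpa using h)]) fun z => ⟨0, z.unpair.1 + 1, by simp⟩

theorem weak_three {m : ℕ} (hm : 2 ≤ m) {a : ℕ → TuringDegree} (h : WeakBubble 3 m a) :
    Bubble 3 m a := by
  obtain ⟨hc, hw⟩ := h
  refine ⟨hc, ?_⟩
  obtain ⟨h0, hlt, hn⟩ := hc
  obtain ⟨D, hD, eD⟩ := hn 1 le_rfl (by omega)
  obtain ⟨E, hE, eE⟩ := hn 2 (by omega) (by omega)
  obtain ⟨F, -, eF⟩ := hn 3 (by omega) le_rfl
  have DE : Red D E := deg_le.1 (eD ▸ eE ▸ (hlt 1 (by omega)).le)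
  have EF : Red E F := deg_le.1 (eE ▸ eF ▸ (hlt 2 (by omega)).le)
  have nE : ¬ Red E D := fun h => (hlt 1 (by omega)).not_ge (eD ▸ eE ▸ deg_le.2 h)
  have w2 : ∀ U, NCE m U → Red U E → Red U D ∨ Red D U := by
    intro U h1 h2
    rcases hw 2 le_rfl (by omega) (deg U) ⟨U, h1, rfl⟩ (eE ▸ deg_le.2 h2) with h | ⟨j, j1, j2⟩
    · exact Or.inl (deg_le.1 (eD ▸ h))
    · refine Or.inr (deg_le.1 (eD ▸ j2.trans (j1.2 ?_)))
      rintro _ (rfl | rfl)
      · exact le_rfl
      · exact h0 ▸ deg_le.2 (red_of_comp (by fun_prop) U)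
  have w3 : ∀ U, NCE m U → Red U F → Red U E ∨ Red E (join U D) := by
    intro U h1 h2
    rcases hw 3 (by omega) le_rfl (deg U) ⟨U, h1, rfl⟩ (eF ▸ deg_le.2 h2) with h | ⟨j, j1, j2⟩
    · exact Or.inl (deg_le.1 (eE ▸ h))
    · refine Or.inr (deg_le.1 (eE ▸ j2.trans_eq (j1.unique ?_)))
      exact eD ▸ isLUB_join U D
  have key : ∀ j ≤ m, ∀ U, NCE j U → Red U F → Red U E ∨ Red E U := by
    intro j
    induction j with
    | zero => exact fun _ U h _ => Or.inl (h.zero ▸ red_of_comp (by fun_prop) E)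
    | succ j ih =>
      intro hj U hU UF
      obtain ⟨g, cg, hg⟩ := id hU
      obtain ⟨l1, l2⟩ := lachlan cg hg
      rcases ih (by omega) _ l1 (l2.trans UF) with h | h
      swap
      · exact Or.inr (h.trans l2)
      rcases w2 _ (l1.mono (by omega)) h with h | h
      · obtain ⟨V, v1, v2⟩ := split hD hE cg hg h nE
        have : ∀ i < 2, Red (V i) E := fun i hi => (w3 _ ((v2 i hi).1.mono hm)
          ((v2 i hi).2.1.trans (UF.join (DE.trans EF)))).resolve_right (v2 i hi).2.2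
        exact Or.inl (v1.trans ((this 0 (by omega)).join (this 1 (by omega))))
      · exact (w3 U (hU.mono hj) UF).imp_right fun h' => h'.trans ((Red.refl U).join (h.trans l2))
  rintro k k1 k2 _ ⟨U, hU, rfl⟩ hu
  interval_cases k
  · exact Or.inr (h0 ▸ deg_le.2 (red_of_comp (by fun_prop) U))
  · rw [← eE] at hu
    show _ ≤ a 1 ∨ a 1 ≤ _
    rw [← eD]
    exact w2 U hU hu
  · rw [← eF] at hu
    show _ ≤ a 2 ∨ a 2 ≤ _
    rw [← eE]
    exact key m le_rfl U hU hu

end Pool.Agent.P.MP_1a00c7_lc
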